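import Pool.Agent.H1.Gen.Main

/-!
Functions computed by stack programs in polynomial time: composition, generators of lists of
numbers, reading a raw bit string.
-/

namespace Pool.Agent.H1.NP

open Turing Function Pool.Agent.H70.TM Polynomial Pool.Agent.H68.OQP Pool.Agent.H1.Gen

/-- polynomials over the naturals are monotone -/
theorem eval_mono_nat (p : ℕ[X]) {a b : ℕ} (h : a ≤ b) : p.eval a ≤ p.eval b := by
  induction p using Polynomial.induction_on' with
  | add p q hp hq =>
    simp only [eval_add]
    omega
  | monomial n c =>
    simp only [eval_monomial]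
    exact Nat.mul_le_mul_left _ (Nat.pow_le_pow_left h n)

/-- each stack grows by at most the number of steps -/
theorem run_len {c : Cmd ℕ Fl} {v v' : Fl} {S S' : ℕ → List Bool} {n : ℕ}
    (h : Run c v S v' S' n) : ∀ k, (S' k).length ≤ (S k).length + n := by
  induction h with
  | push k f v S =>
    intro k'
    by_cases hk : k' = k
    · subst hk; simp
    · simp [update_of_ne hk]
  | pop k f v S =>
    intro k'
    by_cases hk : k' = k
    · subst hk; simp; omega
    · simp [update_of_ne hk]
  | load f v S => intro k; omega
  | seq h1 h2 ih1 ih2 => intro k; have := ih1 k; have := ih2 k; omega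
  | ite_true hp h1 ih1 => intro k; have := ih1 k; omega
  | ite_false hp h1 ih1 => intro k; have := ih1 k; omega
  | wh_false hp => intro k; omega
  | wh_true hp h1 h2 ih1 ih2 => intro k; have := ih1 k; have := ih2 k; omega

theorem does_len {c : Cmd ℕ Fl} {S S' : ℕ → List Bool} {t : ℕ} (h : Does c S S' t) (k : ℕ) :
    (S' k).length ≤ (S k).length + t := by
  obtain ⟨v', n, hn, hr⟩ := h ⟨false, false, false⟩
  have := run_len hr k
  omega

/-- all stacks empty but stack `k` -/
abbrev one1 (k : ℕ) (w : List Bool) : ℕ → List Bool := update (fun _ => []) k w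

/-- `f` is computed by a stack program in polynomial time, on codes -/
def PolyOn {α β : Type} (ea : α → List Bool) (eb : β → List Bool) (f : α → β) : Prop :=
  ∃ (c : Cmd ℕ Fl) (p : ℕ[X]), ∀ a, Does c (one1 0 (ea a)) (one1 1 (eb (f a)))
    (p.eval (ea a).length)

theorem PolyOn.tm {α β : Type} {ea : α → List Bool} {eb : β → List Bool} {f : α → β}
    (h : PolyOn ea eb f) : Nonempty (TM2ComputableInPolyTime ea eb f) := by
  obtain ⟨c, p, hc⟩ := h
  exact polyTime_nat c 0 1 ⟨false, false, false⟩ ea eb f p (fun a => hc a _)

theorem PolyOn.comp {α β γ : Type} {ea : α → List Bool} {eb : β → List Bool}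
    {ec : γ → List Bool} {f : α → β} {g : β → γ} (hf : PolyOn ea eb f) (hg : PolyOn eb ec g) :
    PolyOn ea ec (fun a => g (f a)) := by
  obtain ⟨c₁, p₁, h₁⟩ := hf
  obtain ⟨c₂, p₂, h₂⟩ := hg
  refine ⟨.seq c₁ (.seq (mv 1 2) (.seq (mv 2 0) c₂)), p₁ + ((4 * p₁ + 2) + ((4 * p₁ + 2) +
    p₂.comp p₁)), fun a => ?_⟩
  have d1 := h₁ a
  have hl : (eb (f a)).length ≤ p₁.eval (ea a).length := by
    have := does_len d1 1
    simpa [one1] using this
  have d2 := mv_does (a := 1) (k := 2) (by omega) (S := one1 1 (eb (f a)))
  have e2 : update (update (one1 1 (eb (f a))) 1 []) 2 ((one1 1 (eb (f a)) 1).reverse ++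
      one1 1 (eb (f a)) 2) = one1 2 (eb (f a)).reverse := by
    funext i
    simp only [one1, Function.update_apply]
    split_ifs <;> simp_all
  rw [e2] at d2
  have d3 := mv_does (a := 2) (k := 0) (by omega) (S := one1 2 (eb (f a)).reverse)
  have e3 : update (update (one1 2 (eb (f a)).reverse) 2 []) 0
      ((one1 2 (eb (f a)).reverse 2).reverse ++ one1 2 (eb (f a)).reverse 0) =
      one1 0 (eb (f a)) := by
    funext i
    simp only [one1, Function.update_apply]
    split_ifs <;> simp_all
  rw [e3] at d3
  have d4 := h₂ (f a)
  refine (d1.seq (d2.seq (d3.seq d4))).mono ?_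
  simp only [eval_add, eval_mul, eval_ofNat, eval_comp]
  have h5 := eval_mono_nat p₂ hl
  have h6 : (one1 1 (eb (f a)) 1).length = (eb (f a)).length := by simp [one1]
  have h7 : (one1 2 (eb (f a)).reverse 2).length = (eb (f a)).length := by simp [one1]
  rw [h6, h7]
  omega

theorem PolyOn.congr {α β γ δ : Type} {ea : α → List Bool} {eb : β → List Bool} {f : α → β}
    (h : PolyOn ea eb f) {ec : γ → List Bool} {ed : δ → List Bool} {g : γ → δ} (φ : γ → α)
    (h1 : ∀ c, ea (φ c) = ec c) (h2 : ∀ c, eb (f (φ c)) = ed (g c)) : PolyOn ec ed g := by
  obtain ⟨c, p, hc⟩ := h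
  refine ⟨c, p, fun a => ?_⟩
  rw [← h1, ← h2]
  exact hc (φ a)

/-- generators are polynomial -/
theorem polyOn_gen (g : Gn) : PolyOn unary (fun w => w) (fun l => g.out l []) := by
  obtain ⟨p, hp⟩ := cmp_does g [] 4
  obtain ⟨q, hq⟩ := out_bd g
  refine ⟨prg g, p + ((2 * .X + 2) + (4 * q + 2)), ?_⟩
  intro l
  have hX : Bd (unary l).length l [] := ⟨le_rfl, by simp⟩
  have hI : Inv l [] [] 4 (update (fun _ => []) 0 (unary l)) :=
    { inp := update_self _ _ _
      aux := by simp
      free := fun k hk => update_of_ne (by omega) _ _
      len := rfl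
      env := by intro i a h; simp at h
      four := le_rfl
      lt := by intro a ha; cases ha }
  have d1 := hp _ l [] _ hX hI
  rw [update_of_ne (by omega), List.append_nil] at d1
  have d2 := clr_does (k := 0) (S := update (update (fun _ => []) 0 (unary l)) 3
    (g.out l []).reverse)
  have d3 := mv_does (a := 3) (k := 1) (by omega) (S := update (update (update (fun _ => []) 0
    (unary l)) 3 (g.out l []).reverse) 0 [])
  have e : update (update (update (update (update (fun _ => []) 0
    (unary l)) 3 (g.out l []).reverse) 0 []) 3 []) 1 ((update (update (update (fun _ => []) 0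
    (unary l)) 3 (g.out l []).reverse) 0 [] 3).reverse ++ update (update (update (fun _ => []) 0
    (unary l)) 3 (g.out l []).reverse) 0 [] 1) = update (fun _ => []) 1 (g.out l []) := by
    funext i
    simp only [Function.update_apply]
    split_ifs <;> simp_all
  rw [e] at d3
  refine Does.mono (c := prg g) (d1.seq (d2.seq d3)) ?_
  have h1 := hq _ l [] hX
  simp only [eval_add, eval_mul, eval_ofNat, eval_X]
  have h2 : (update (update (fun _ => []) 0 (unary l)) 3 (g.out l []).reverse 0 :
      List Bool).length = (unary l).length := by simp
  have h3 : (update (update (update (fun _ => []) 0 (unary l)) 3 (g.out l []).reverse) 0 [] 3 :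
      List Bool).length = (g.out l []).length := by simp
  rw [h2, h3]
  omega

/-- generators of lists of numbers -/
inductive Lg : Type
  | nil : Lg
  | el (e : Ex) : Lg
  | seq (g h : Lg) : Lg
  | ifle (a b : Ex) (g h : Lg) : Lg
  | loop (e : Ex) (g : Lg) : Lg

/-- the list generated -/
def Lg.out (l : List ℕ) : List ℕ → Lg → List ℕ
  | _, .nil => []
  | env, .el e => [e.val l env]
  | env, .seq g h => g.out l env ++ h.out l env
  | env, .ifle a b g h => if a.val l env ≤ b.val l env then g.out l env else h.out l env
  | env, .loop e g => (List.range (e.val l env)).flatMap (fun i => g.out l (i :: env))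

/-- the generator of the unary code -/
def Lg.toGn : Lg → Gn
  | .nil => .nil
  | .el e => .seq (.un e) (.bit false)
  | .seq g h => .seq g.toGn h.toGn
  | .ifle a b g h => .ifle a b g.toGn h.toGn
  | .loop e g => .loop e g.toGn

theorem unary_append (a b : List ℕ) : unary (a ++ b) = unary a ++ unary b := by
  unfold unary
  rw [List.flatMap_append]

theorem Lg.toGn_out (l : List ℕ) (g : Lg) : ∀ env, g.toGn.out l env = unary (g.out l env) := by
  induction g with
  | nil => intro env; rfl
  | el e => intro env; simp [Lg.toGn, Gn.out, Lg.out, unary]
  | seq g h ihg ihh =>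
    intro env
    simp only [Lg.toGn, Gn.out, Lg.out, ihg, ihh, unary_append]
  | ifle a b g h ihg ihh =>
    intro env
    simp only [Lg.toGn, Gn.out, Lg.out, ihg, ihh]
    split_ifs <;> rfl
  | loop e g ih =>
    intro env
    simp only [Lg.toGn, Gn.out, Lg.out, ih]
    induction List.range (e.val l env) with
    | nil => rfl
    | cons i L ih2 =>
      simp only [List.flatMap_cons, unary_append, ih2]

theorem polyOn_lg (g : Lg) : PolyOn unary unary (fun l => g.out l []) :=
  (polyOn_gen g.toGn).congr (fun l => l) (fun _ => rfl) (fun l => Lg.toGn_out l g [])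

/-- run `B` for each entry of the stack `a` (its data bit is the entry) -/
def each (a : ℕ) (B : Cmd ℕ Fl) : Cmd ℕ Fl := .seq (pp a) (.wh cF (.seq B (pp a)))

theorem each_does {a : ℕ} {B : Cmd ℕ Fl} {t : ℕ} (T : List Bool → ℕ → List Bool)
    (l : List Bool)
    (hB : ∀ p x r, p ++ x :: r = l → ∀ v : Fl, v.d = x → ∃ v',
      RunB B v (update (T p) a r) v' (update (T (p ++ [x])) a r) t) :
    Does (each a B) (update (T []) a l) (update (T l) a []) (l.length * (t + 2) + 2) := by
  have hpp : ∀ (p r : List Bool) (v : Fl), ∃ v' : Fl, v'.c = decide (r ≠ []) ∧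
      (∀ x r', r = x :: r' → v'.d = x) ∧
      RunB (pp a) v (update (T p) a r) v' (update (T p) a r.tail) 1 := by
    intro p r v
    have h := pp_does (k := a) (v := v) (S := update (T p) a r)
    rw [update_self, update_idem] at h
    refine ⟨_, ?_, ?_, h⟩
    · cases r <;> simp
    · rintro x r' rfl
      rfl
  have hloop : ∀ (r p : List Bool), p ++ r = l → ∀ v : Fl, v.c = decide (r ≠ []) →
      (∀ x r', r = x :: r' → v.d = x) →
      ∃ v', RunB (.wh cF (.seq B (pp a))) v (update (T p) a r.tail) v'
        (update (T l) a []) (r.length * (t + 2) + 1) := by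
    intro r
    induction r with
    | nil =>
      intro p hp v hc _
      rw [List.append_nil] at hp
      subst hp
      exact ⟨v, (RunB.wh_f (by simpa [cF] using hc)).mono (by omega)⟩
    | cons x r ih =>
      intro p hp v hc hd
      obtain ⟨v₁, h1⟩ := hB p x r hp v (hd x r rfl)
      obtain ⟨v₂, hc2, hd2, h2⟩ := hpp (p ++ [x]) r v₁
      obtain ⟨v₃, h3⟩ := ih (p ++ [x]) (by rw [← hp]; simp) v₂ hc2 hd2
      refine ⟨v₃, (RunB.wh_t (by simpa [cF] using hc) (h1.seq h2) h3).mono ?_⟩
      simp only [List.length_cons]
      ring_nf
      omega
  intro v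
  obtain ⟨v₂, hc2, hd2, h2⟩ := hpp [] l v
  obtain ⟨v₃, h3⟩ := hloop l [] rfl v₂ hc2 hd2
  exact ⟨v₃, (h2.seq h3).mono (by omega)⟩

theorem unary_cons' (x : ℕ) (l : List ℕ) :
    unary (x :: l) = List.replicate x true ++ false :: unary l := by
  simp [unary]

/-- numbers of a raw bit string: length and bits -/
def bits (w : List Bool) : List ℕ := w.length :: w.map Bool.toNat

/-- the data bit -/
def dF (v : Fl) : Bool := v.d

/-- program writing the numbers of a bit string -/
def rawP : Cmd ℕ Fl :=
  .seq (each 0 (.seq (pu 2) (put 3 true)))
    (.seq (each 2 (.ite dF (.seq (put 1 false) (put 1 true)) (put 1 false)))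
      (.seq (put 1 false) (rep 3 (put 1 true))))

theorem polyOn_raw : PolyOn (fun w : List Bool => w) unary bits := by
  refine ⟨rawP, 20 * .X + 20, fun w => ?_⟩
  have d1 := each_does (a := 0) (B := .seq (pu 2) (put 3 true)) (t := 2)
    (fun p => update (one1 2 p.reverse) 3 (List.replicate p.length true)) w (by
      intro p x r hp v hv
      refine ⟨v, 2, le_rfl, ?_⟩
      have h1 := Run.push 2 (fun v : Fl => v.d) v
        (update (update (one1 2 p.reverse) 3 (List.replicate p.length true)) 0 r)
      have h2 := Run.push 3 (fun _ : Fl => true) v (update (update (update (one1 2 p.reverse) 3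
        (List.replicate p.length true)) 0 r) 2 (v.d :: update (update (one1 2 p.reverse) 3
        (List.replicate p.length true)) 0 r 2))
      have h3 := Run.seq h1 h2
      refine cast ?_ h3
      congr 1
      subst hv
      clear hp h3 h2 h1
      funext i
      simp only [one1, Function.update_apply]
      split_ifs <;> first | contradiction | omega | simp [List.replicate_succ])
  have e1 : update (update (one1 2 ([] : List Bool).reverse) 3
      (List.replicate ([] : List Bool).length true)) 0 w = one1 0 w := by
    funext i
    simp only [one1, Function.update_apply]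
    split_ifs <;> simp_all
  rw [e1] at d1
  have d2 := each_does (a := 2) (B := .ite dF (.seq (put 1 false) (put 1 true)) (put 1 false))
    (t := 3) (fun p => update (one1 3 (List.replicate w.length true)) 1
      (unary (p.reverse.map Bool.toNat))) w.reverse (by
      intro p x r hp v hv
      cases x with
      | false =>
        refine ⟨v, 2, by omega, ?_⟩
        have h1 := Run.push 1 (fun _ : Fl => false) v
          (update (update (one1 3 (List.replicate w.length true)) 1
            (unary (p.reverse.map Bool.toNat))) 2 r)
        have h2 := Run.ite_false (p := dF) (c₁ := .seq (put 1 false) (put 1 true)) hv h1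
        refine cast ?_ h2
        congr 1
        funext i
        simp only [one1, Function.update_apply]
        split_ifs <;> simp_all [unary]
      | true =>
        refine ⟨v, 3, by omega, ?_⟩
        have h1 := Run.push 1 (fun _ : Fl => false) v
          (update (update (one1 3 (List.replicate w.length true)) 1
            (unary (p.reverse.map Bool.toNat))) 2 r)
        have h1' := Run.push 1 (fun _ : Fl => true) v (update (update (update (one1 3
          (List.replicate w.length true)) 1 (unary (p.reverse.map Bool.toNat))) 2 r) 1
          (false :: update (update (one1 3 (List.replicate w.length true)) 1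
            (unary (p.reverse.map Bool.toNat))) 2 r 1))
        have h2 := Run.ite_true (p := dF) (c₂ := put 1 false) hv (Run.seq h1 h1')
        refine cast ?_ h2
        congr 1
        funext i
        simp only [one1, Function.update_apply]
        split_ifs <;> simp_all [unary])
  have e2 : update (update (one1 3 (List.replicate w.length true)) 1
      (unary (([] : List Bool).reverse.map Bool.toNat))) 2 w.reverse =
      update (update (one1 2 w.reverse) 3 (List.replicate w.length true)) 0 [] := by
    funext i
    simp only [one1, Function.update_apply]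
    split_ifs <;> simp_all [unary]
  rw [e2, List.reverse_reverse] at d2
  have d3 := put_does (k := 1) (b := false) (S := update (update (one1 3
    (List.replicate w.length true)) 1 (unary (w.map Bool.toNat))) 2 [])
  have d4 := rep_does (k := 3) (B := put 1 true) (t := 1) (n := w.length)
    (fun j => one1 1 (List.replicate j true ++ false :: unary (w.map Bool.toNat))) (by
      intro j hj
      have := put_does (k := 1) (b := true) (S := update (one1 1 (List.replicate j true ++
        false :: unary (w.map Bool.toNat))) 3 (List.replicate (w.length - 1 - j) true))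
      refine cast ?_ this
      congr 1
      funext i
      simp only [one1, Function.update_apply]
      split_ifs <;> simp_all [List.replicate_succ])
  have e3 : update (one1 1 (List.replicate 0 true ++ false :: unary (w.map Bool.toNat))) 3
      (List.replicate w.length true) = update (update (update (one1 3
      (List.replicate w.length true)) 1 (unary (w.map Bool.toNat))) 2 []) 1
      (false :: update (update (one1 3 (List.replicate w.length true)) 1
      (unary (w.map Bool.toNat))) 2 [] 1) := by
    funext i
    simp only [one1, Function.update_apply]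
    split_ifs <;> simp_all
  have e4 : update (one1 1 (List.replicate w.length true ++ false ::
      unary (w.map Bool.toNat))) 3 [] = one1 1 (unary (bits w)) := by
    funext i
    simp only [one1, Function.update_apply, bits, unary_cons']
    split_ifs <;> simp_all
  rw [e3, e4] at d4
  refine Does.mono (c := rawP) (d1.seq (d2.seq (d3.seq d4))) ?_
  simp only [eval_add, eval_mul, eval_ofNat, eval_X, List.length_reverse]
  omega

end Pool.Agent.H1.NP
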