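import Mathlib

/-!
Small-step semantics of stack machines and their rows of cells.
-/

namespace Pool.Agent.H1.NP

open Turing Function

section small

variable {K : Type} [DecidableEq K] {Γ : K → Type} {Λ σ : Type}

/-- small configurations: the rest of the current statement (`none`: halted), memory, stacks -/
abbrev SC {K : Type} (Γ : K → Type) (Λ σ : Type) : Type :=
  (Option (TM2.Stmt Γ Λ σ) × σ) × (∀ k, List (Γ k))

variable (M : Λ → TM2.Stmt Γ Λ σ)

/-- one small step -/
def sstep : SC Γ Λ σ → SC Γ Λ σ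
  | ((none, v), S) => ((none, v), S)
  | ((some (.push k f q), v), S) => ((some q, v), update S k (f v :: S k))
  | ((some (.peek k f q), v), S) => ((some q, f v (S k).head?), S)
  | ((some (.pop k f q), v), S) => ((some q, f v (S k).head?), update S k (S k).tail)
  | ((some (.load a q), v), S) => ((some q, a v), S)
  | ((some (.branch p q₁ q₂), v), S) => ((some (cond (p v) q₁ q₂), v), S)
  | ((some (.goto f), v), S) => ((some (M (f v)), v), S)
  | ((some .halt, v), S) => ((none, v), S)

/-- configurations as small configurations -/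
def emb (c : TM2.Cfg Γ Λ σ) : SC Γ Λ σ := ((c.l.map M, c.var), c.stk)

/-- number of small steps of a statement -/
def dep : TM2.Stmt Γ Λ σ → ℕ
  | .push _ _ q => dep q + 1
  | .peek _ _ q => dep q + 1
  | .pop _ _ q => dep q + 1
  | .load _ q => dep q + 1
  | .branch _ q₁ q₂ => max (dep q₁) (dep q₂) + 1
  | .goto _ => 1
  | .halt => 1

theorem sstep_aux (q : TM2.Stmt Γ Λ σ) : ∀ (v : σ) (S : ∀ k, List (Γ k)),
    ∃ n ≤ dep q, (sstep M)^[n] ((some q, v), S) = emb M (TM2.stepAux q v S) := by
  induction q with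
  | push k f q ih =>
    intro v S
    obtain ⟨n, hn, h⟩ := ih v (update S k (f v :: S k))
    exact ⟨n + 1, Nat.succ_le_succ hn, by rw [Function.iterate_succ_apply]; exact h⟩
  | peek k f q ih =>
    intro v S
    obtain ⟨n, hn, h⟩ := ih (f v (S k).head?) S
    exact ⟨n + 1, Nat.succ_le_succ hn, by rw [Function.iterate_succ_apply]; exact h⟩
  | pop k f q ih =>
    intro v S
    obtain ⟨n, hn, h⟩ := ih (f v (S k).head?) (update S k (S k).tail)
    exact ⟨n + 1, Nat.succ_le_succ hn, by rw [Function.iterate_succ_apply]; exact h⟩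
  | load a q ih =>
    intro v S
    obtain ⟨n, hn, h⟩ := ih (a v) S
    exact ⟨n + 1, Nat.succ_le_succ hn, by rw [Function.iterate_succ_apply]; exact h⟩
  | branch p q₁ q₂ ih₁ ih₂ =>
    intro v S
    cases hp : p v with
    | true =>
      obtain ⟨n, hn, h⟩ := ih₁ v S
      refine ⟨n + 1, Nat.succ_le_succ (hn.trans (le_max_left _ _)), ?_⟩
      rw [Function.iterate_succ_apply]
      simp only [sstep, TM2.stepAux, hp, cond_true]
      exact h
    | false =>
      obtain ⟨n, hn, h⟩ := ih₂ v S
      refine ⟨n + 1, Nat.succ_le_succ (hn.trans (le_max_right _ _)), ?_⟩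
      rw [Function.iterate_succ_apply]
      simp only [sstep, TM2.stepAux, hp, cond_false]
      exact h
  | goto f =>
    intro v S
    exact ⟨1, le_rfl, rfl⟩
  | halt =>
    intro v S
    exact ⟨1, le_rfl, rfl⟩

theorem iterate_none {α : Type} (f : α → Option α) (n : ℕ) :
    (flip bind f)^[n] (none : Option α) = none := by
  induction n with
  | zero => rfl
  | succ n ih => rw [Function.iterate_succ_apply]; exact ih

theorem sstep_run {D : ℕ} (hD : ∀ q, dep (M q) ≤ D) : ∀ (n : ℕ) (c c' : TM2.Cfg Γ Λ σ),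
    (flip bind (TM2.step M))^[n] (some c) = some c' →
      ∃ N ≤ n * D, (sstep M)^[N] (emb M c) = emb M c' := by
  intro n
  induction n with
  | zero =>
    intro c c' h
    have : c = c' := by simpa using h
    subst this
    exact ⟨0, by omega, rfl⟩
  | succ n ih =>
    intro c c' h
    rw [Function.iterate_succ_apply] at h
    obtain ⟨l, v, S⟩ := c
    cases l with
    | none =>
      have h' : (flip bind (TM2.step M))^[n] none = some c' := h
      rw [iterate_none] at h'
      cases h'
    | some q =>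
      have h' : (flip bind (TM2.step M))^[n] (some (TM2.stepAux (M q) v S)) = some c' := h
      obtain ⟨N, hN, hN'⟩ := ih _ _ h'
      obtain ⟨m, hm, hm'⟩ := sstep_aux M (M q) v S
      refine ⟨N + m, ?_, ?_⟩
      · have := hD q
        rw [Nat.succ_mul]
        omega
      · rw [Function.iterate_add_apply]
        have e : emb M ⟨some q, v, S⟩ = ((some (M q), v), S) := rfl
        rw [e, hm', hN']

theorem sstep_halt {c : TM2.Cfg Γ Λ σ} (hc : c.l = none) (n : ℕ) :
    (sstep M)^[n] (emb M c) = emb M c := by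
  obtain ⟨l, v, S⟩ := c
  simp only at hc
  subst hc
  induction n with
  | zero => rfl
  | succ n ih => rw [Function.iterate_succ_apply]; exact ih

theorem sstep_final {D : ℕ} (hD : ∀ q, dep (M q) ≤ D) {n : ℕ} {c c' : TM2.Cfg Γ Λ σ}
    (h : (flip bind (TM2.step M))^[n] (some c) = some c') (hc : c'.l = none) {N : ℕ}
    (hN : n * D ≤ N) : (sstep M)^[N] (emb M c) = emb M c' := by
  obtain ⟨m, hm, hm'⟩ := sstep_run M hD n c c' h
  obtain ⟨r, rfl⟩ : ∃ r, N = r + m := ⟨N - m, by omega⟩
  rw [Function.iterate_add_apply, hm', sstep_halt M hc]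

/-- cells: control and the contents at one height -/
abbrev RC {K : Type} (Γ : K → Type) (Λ σ : Type) : Type :=
  (Option (TM2.Stmt Γ Λ σ) × σ) × (∀ k, Option (Γ k))

/-- the cell at height `i` -/
def row (c : SC Γ Λ σ) (i : ℕ) : RC Γ Λ σ := (c.1, fun k => (c.2 k)[i]?)

/-- local rule: from cell `0`, the cell below (if any), the cell itself and the cell above -/
def rF (a0 : RC Γ Λ σ) (aL : Option (RC Γ Λ σ)) (a aR : RC Γ Λ σ) : RC Γ Λ σ :=
  match a0.1 with
  | (none, v) => ((none, v), a.2)
  | (some (.push k f q), v) =>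
    ((some q, v), update a.2 k (match aL with
      | none => some (f v)
      | some b => b.2 k))
  | (some (.peek k f q), v) => ((some q, f v (a0.2 k)), a.2)
  | (some (.pop k f q), v) => ((some q, f v (a0.2 k)), update a.2 k (aR.2 k))
  | (some (.load g q), v) => ((some q, g v), a.2)
  | (some (.branch p q₁ q₂), v) => ((some (cond (p v) q₁ q₂), v), a.2)
  | (some (.goto f), v) => ((some (M (f v)), v), a.2)
  | (some .halt, v) => ((none, v), a.2)

theorem row_zero (c : SC Γ Λ σ) :
    row (sstep M c) 0 = rF M (row c 0) none (row c 0) (row c 1) := by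
  obtain ⟨⟨q, v⟩, S⟩ := c
  cases q with
  | none => rfl
  | some q =>
    cases q with
    | push k f q =>
      refine Prod.ext rfl ?_
      funext k'
      by_cases hk : k' = k
      · subst hk; simp [row, sstep, rF]
      · simp [row, sstep, rF, update_of_ne hk]
    | peek k f q =>
      simp only [row, sstep, rF]
      rw [List.head?_eq_getElem?]
    | pop k f q =>
      refine Prod.ext ?_ ?_
      · simp only [row, sstep, rF]
        rw [List.head?_eq_getElem?]
      · funext k'
        by_cases hk : k' = k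
        · subst hk; simp [row, sstep, rF]
        · simp [row, sstep, rF, update_of_ne hk]
    | load a q => rfl
    | branch p q₁ q₂ => rfl
    | goto f => rfl
    | halt => rfl

theorem row_succ (c : SC Γ Λ σ) (i : ℕ) :
    row (sstep M c) (i + 1) = rF M (row c 0) (some (row c i)) (row c (i + 1)) (row c (i + 2)) := by
  obtain ⟨⟨q, v⟩, S⟩ := c
  cases q with
  | none => rfl
  | some q =>
    cases q with
    | push k f q =>
      refine Prod.ext rfl ?_
      funext k'
      by_cases hk : k' = k
      · subst hk; simp [row, sstep, rF]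
      · simp [row, sstep, rF, update_of_ne hk]
    | peek k f q =>
      simp only [row, sstep, rF]
      rw [List.head?_eq_getElem?]
    | pop k f q =>
      refine Prod.ext ?_ ?_
      · simp only [row, sstep, rF]
        rw [List.head?_eq_getElem?]
      · funext k'
        by_cases hk : k' = k
        · subst hk; simp [row, sstep, rF]
        · simp [row, sstep, rF, update_of_ne hk]
    | load a q => rfl
    | branch p q₁ q₂ => rfl
    | goto f => rfl
    | halt => rfl

/-- control states that can occur -/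
def ctl : Set (Option (TM2.Stmt Γ Λ σ)) :=
  {q | q = none ∨ ∃ l, ∃ q' ∈ TM2.stmts₁ (M l), q = some q'}

/-- symbols that can occur, on stacks other than `k₀` -/
def syms (k₀ : K) (k : K) : Set (Γ k) :=
  {s | k = k₀ ∨ ∃ (f : σ → Γ k) (q : TM2.Stmt Γ Λ σ) (v : σ),
    some (TM2.Stmt.push k f q) ∈ ctl M ∧ s = f v}

/-- cells that can occur -/
def cells (k₀ : K) : Set (RC Γ Λ σ) :=
  {a | a.1.1 ∈ ctl M ∧ ∀ k s, a.2 k = some s → s ∈ syms M k₀ k}

theorem ctl_finite [Finite Λ] : (ctl M).Finite := by
  have : ctl M ⊆ {none} ∪ ⋃ l : Λ, some '' (TM2.stmts₁ (M l) : Set (TM2.Stmt Γ Λ σ)) := by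
    rintro q (rfl | ⟨l, q', hq', rfl⟩)
    · exact Or.inl rfl
    · exact Or.inr (Set.mem_iUnion.2 ⟨l, Set.mem_image_of_mem _ hq'⟩)
  exact ((Set.finite_singleton _).union (Set.finite_iUnion
    (fun l => (Finset.finite_toSet _).image _))).subset this

theorem syms_finite [Finite Λ] [Finite σ] (k₀ : K) [Finite (Γ k₀)] (k : K) :
    (syms M k₀ k).Finite := by
  by_cases hk : k = k₀
  · subst hk
    exact Set.toFinite _
  · have : syms M k₀ k ⊆ ⋃ q ∈ ctl M, {s | ∃ (f : σ → Γ k) (q' : TM2.Stmt Γ Λ σ) (v : σ),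
        q = some (TM2.Stmt.push k f q') ∧ s = f v} := by
      rintro s (h | ⟨f, q, v, hq, rfl⟩)
      · exact absurd h hk
      · exact Set.mem_biUnion hq ⟨f, q, v, rfl, rfl⟩
    refine ((ctl_finite M).biUnion (fun q _ => ?_)).subset this
    by_cases hq : ∃ (f : σ → Γ k) (q' : TM2.Stmt Γ Λ σ), q = some (TM2.Stmt.push k f q')
    · obtain ⟨f, q', rfl⟩ := hq
      refine (Set.finite_range f).subset ?_
      rintro s ⟨f', q'', v, h1, rfl⟩
      injection h1 with h1
      injection h1 with _ h1 _
      rw [h1]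
      exact Set.mem_range_self v
    · refine Set.Finite.subset (Set.finite_empty) ?_
      rintro s ⟨f', q'', v, h1, rfl⟩
      exact hq ⟨f', q'', h1⟩

theorem cells_finite [Finite K] [Finite Λ] [Finite σ] (k₀ : K) [Finite (Γ k₀)] :
    (cells M k₀).Finite := by
  have : cells M k₀ ⊆ ((ctl M) ×ˢ (Set.univ : Set σ)) ×ˢ
      (Set.pi Set.univ (fun k => insert none (some '' syms M k₀ k))) := by
    rintro ⟨⟨q, v⟩, S⟩ ⟨h1, h2⟩
    refine ⟨⟨h1, trivial⟩, fun k _ => ?_⟩
    cases hS : S k with
    | none => exact Or.inl hS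
    | some s =>
      refine Or.inr ⟨s, h2 k s hS, hS.symm⟩
  refine Set.Finite.subset (Set.Finite.prod (Set.Finite.prod (ctl_finite M)
    Set.finite_univ) (Set.Finite.pi (fun k => ?_))) this
  exact ((syms_finite M k₀ k).image _).insert _

theorem ctl_sub {q q' : TM2.Stmt Γ Λ σ} (h : some q ∈ ctl M) (h' : q' ∈ TM2.stmts₁ q) :
    some q' ∈ ctl M := by
  rcases h with h | ⟨l, q'', hq'', h⟩
  · cases h
  · injection h with h
    subst h
    exact Or.inr ⟨l, q', TM2.stmts₁_trans hq'' h', rfl⟩

theorem ctl_main (l : Λ) : some (M l) ∈ ctl M := Or.inr ⟨l, M l, TM2.stmts₁_self, rfl⟩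

theorem rF_mem {k₀ : K} {a0 a aR : RC Γ Λ σ} {aL : Option (RC Γ Λ σ)} (h0 : a0 ∈ cells M k₀)
    (hL : ∀ b ∈ aL, b ∈ cells M k₀) (ha : a ∈ cells M k₀) (hR : aR ∈ cells M k₀) :
    rF M a0 aL a aR ∈ cells M k₀ := by
  obtain ⟨⟨q, v⟩, S0⟩ := a0
  have hq := h0.1
  cases q with
  | none => exact ⟨Or.inl rfl, ha.2⟩
  | some q =>
    cases q with
    | push k f q =>
      refine ⟨ctl_sub M hq (by simp [TM2.stmts₁, TM2.stmts₁_self]), ?_⟩
      intro k' s hs
      by_cases hk : k' = k
      · subst hk
        simp only [rF, update_self] at hs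
        cases aL with
        | none =>
          simp only [Option.some.injEq] at hs
          exact Or.inr ⟨f, q, v, hq, hs.symm⟩
        | some b => exact (hL b rfl).2 _ s hs
      · simp only [rF, update_of_ne hk] at hs
        exact ha.2 _ s hs
    | peek k f q =>
      exact ⟨ctl_sub M hq (by simp [TM2.stmts₁, TM2.stmts₁_self]), ha.2⟩
    | pop k f q =>
      refine ⟨ctl_sub M hq (by simp [TM2.stmts₁, TM2.stmts₁_self]), ?_⟩
      intro k' s hs
      by_cases hk : k' = k
      · subst hk
        simp only [rF, update_self] at hs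
        exact hR.2 _ s hs
      · simp only [rF, update_of_ne hk] at hs
        exact ha.2 _ s hs
    | load g q =>
      exact ⟨ctl_sub M hq (by simp [TM2.stmts₁, TM2.stmts₁_self]), ha.2⟩
    | branch p q₁ q₂ =>
      refine ⟨?_, ha.2⟩
      cases hp : p v
      · simp only [rF, hp]
        exact ctl_sub M hq (by simp [TM2.stmts₁, TM2.stmts₁_self])
      · simp only [rF, hp]
        exact ctl_sub M hq (by simp [TM2.stmts₁, TM2.stmts₁_self])
    | goto f => exact ⟨ctl_main M _, ha.2⟩
    | halt => exact ⟨Or.inl rfl, ha.2⟩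

/-- numbering of a finite set -/
theorem exists_numbering {α : Type} [Nonempty α] {A : Set α} (hA : A.Finite) :
    ∃ (s : ℕ) (e : α → ℕ) (d : ℕ → α), (∀ a ∈ A, e a < s ∧ d (e a) = a) ∧
      ∀ n < s, d n ∈ A ∧ e (d n) = n := by
  classical
  haveI := hA.fintype
  let φ := Fintype.equivFin A
  refine ⟨Fintype.card A, fun a => if h : a ∈ A then (φ ⟨a, h⟩ : ℕ) else 0,
    fun n => if h : n < Fintype.card A then (φ.symm ⟨n, h⟩ : α) else Classical.arbitrary α,
    ?_, ?_⟩
  · intro a ha
    simp only [dif_pos ha]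
    refine ⟨Fin.is_lt _, ?_⟩
    rw [dif_pos (Fin.is_lt _)]
    simp
  · intro n hn
    simp only [dif_pos hn]
    refine ⟨Subtype.coe_prop _, ?_⟩
    simp

end small

end Pool.Agent.H1.NP
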