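import Pool.Agent.H1.NP.Comp
import Pool.Agent.H1.NP.Poly
import Pool.Agent.H1.NP.Small

/-!
Polynomial-time functions of Mathlib's machine model are closed under composition.
-/

namespace Pool.Agent.H1.Comp

open Turing Function Polynomial Pool.Agent.H1.NP

theorem len_aux {K : Type} [DecidableEq K] {Γ : K → Type} {Λ σ : Type}
    (q : TM2.Stmt Γ Λ σ) : ∀ (v : σ) (S : ∀ k, List (Γ k)) (k : K),
    ((TM2.stepAux q v S).stk k).length ≤ (S k).length + dep q := by
  induction q with
  | push k f q ih =>
    intro v S k'
    have := ih v (update S k (f v :: S k)) k'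
    simp only [TM2.stepAux, dep]
    by_cases h : k' = k
    · subst h
      rw [update_self] at this
      simp only [List.length_cons] at this
      omega
    · rw [update_of_ne h] at this
      omega
  | peek k f q ih =>
    intro v S k'
    have := ih (f v (S k).head?) S k'
    simp only [TM2.stepAux, dep]
    omega
  | pop k f q ih =>
    intro v S k'
    have := ih (f v (S k).head?) (update S k (S k).tail) k'
    simp only [TM2.stepAux, dep]
    by_cases h : k' = k
    · subst h
      rw [update_self] at this
      simp only [List.length_tail] at this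
      omega
    · rw [update_of_ne h] at this
      omega
  | load a q ih =>
    intro v S k'
    have := ih (a v) S k'
    simp only [TM2.stepAux, dep]
    omega
  | branch p q₁ q₂ ih₁ ih₂ =>
    intro v S k'
    have h1 := ih₁ v S k'
    have h2 := ih₂ v S k'
    simp only [TM2.stepAux, dep]
    cases p v
    · simp only [cond_false]
      omega
    · simp only [cond_true]
      omega
  | goto f => intro v S k'; simp [TM2.stepAux]
  | halt => intro v S k'; simp [TM2.stepAux]

theorem len_run {K : Type} [DecidableEq K] {Γ : K → Type} {Λ σ : Type}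
    (M : Λ → TM2.Stmt Γ Λ σ) {D : ℕ} (hD : ∀ l, dep (M l) ≤ D) :
    ∀ (n : ℕ) (c c' : TM2.Cfg Γ Λ σ), its M n (some c) = some c' → ∀ k,
      (c'.stk k).length ≤ (c.stk k).length + n * D := by
  intro n
  induction n with
  | zero =>
    intro c c' h k
    have : c = c' := by simpa [its] using h
    subst this
    omega
  | succ n ih =>
    intro c c' h k
    rw [its_succ] at h
    obtain ⟨l, v, S⟩ := c
    cases l with
    | none =>
      have h' : its M n none = some c' := h
      rw [its_none] at h'
      cases h'
    | some l =>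
      have h' : its M n (some (TM2.stepAux (M l) v S)) = some c' := h
      have h1 := ih _ _ h' k
      have h2 := len_aux (M l) v S k
      have h3 := hD l
      rw [Nat.succ_mul]
      simp only
      omega

/-- the composed machine -/
def comp (M₁ M₂ : FinTM2) (conv : M₁.Γ M₁.k₁ → M₂.Γ M₂.k₀) (dflt : M₂.Γ M₂.k₀) : FinTM2 :=
  haveI := M₁.kFin
  haveI := M₂.kFin
  haveI := M₁.ΛFin
  haveI := M₂.ΛFin
  haveI := M₁.σFin
  haveI := M₂.σFin
  haveI := M₂.Γk₀Fin
  { K := CK M₁ M₂
    k₀ := some (.inl M₁.k₀)
    k₁ := some (.inr M₂.k₁)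
    Γ := CΓ M₁ M₂
    Λ := CΛ M₁ M₂
    main := .inr (.inl M₁.main)
    σ := Cσ M₁ M₂
    initialState := (M₁.initialState, M₂.initialState, none)
    Γk₀Fin := M₁.Γk₀Fin
    m := cm M₁ M₂ conv dflt }

theorem initList_eq (tm : FinTM2) (s : List (tm.Γ tm.k₀)) : initList tm s =
    ⟨some tm.main, tm.initialState, update (fun _ => []) tm.k₀ s⟩ := by
  unfold initList
  congr 1
  funext k
  by_cases hk : k = tm.k₀
  · subst hk
    simp
  · rw [update_of_ne hk]
    exact dif_neg hk

theorem haltList_eq (tm : FinTM2) (s : List (tm.Γ tm.k₁)) : haltList tm s =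
    ⟨none, tm.initialState, update (fun _ => []) tm.k₁ s⟩ := by
  unfold haltList
  congr 1
  funext k
  by_cases hk : k = tm.k₁
  · subst hk
    simp
  · rw [update_of_ne hk]
    exact dif_neg hk

/-- polynomial-time functions are closed under composition -/
theorem comp_polyTime {α β γ αΓ βΓ γΓ : Type} [Nonempty βΓ] {ea : α → List αΓ}
    {eb : β → List βΓ} {ec : γ → List γΓ} {f : α → β} {g : β → γ}
    (h1 : TM2ComputableInPolyTime ea eb f) (h2 : TM2ComputableInPolyTime eb ec g) :
    Nonempty (TM2ComputableInPolyTime ea ec (fun a => g (f a))) := by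
  obtain ⟨b0⟩ := ‹Nonempty βΓ›
  haveI := h1.tm.ΛFin
  let conv : h1.tm.Γ h1.tm.k₁ → h2.tm.Γ h2.tm.k₀ :=
    fun x => h2.inputAlphabet.invFun (h1.outputAlphabet x)
  let dflt : h2.tm.Γ h2.tm.k₀ := h2.inputAlphabet.invFun b0
  let M := comp h1.tm h2.tm conv dflt
  set D : ℕ := Finset.univ.sup (fun q : h1.tm.Λ => dep (h1.tm.m q)) with hD
  have hDb : ∀ q, dep (h1.tm.m q) ≤ D := fun q =>
    Finset.le_sup (f := fun q : h1.tm.Λ => dep (h1.tm.m q)) (Finset.mem_univ q)
  refine ⟨{
    tm := M
    inputAlphabet := h1.inputAlphabet
    outputAlphabet := h2.outputAlphabet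
    time := h1.time + (.X + h1.time * C D + 1) + (.X + h1.time * C D + 1) +
      h2.time.comp (.X + h1.time * C D)
    outputsFun := fun a => ?_ }⟩
  obtain ⟨⟨n1, e1'⟩, t1'⟩ := h1.outputsFun a
  obtain ⟨⟨n2, e2'⟩, t2'⟩ := h2.outputsFun (f a)
  have t1 : n1 ≤ h1.time.eval (ea a).length := t1'
  have t2 : n2 ≤ h2.time.eval (eb (f a)).length := t2'
  set s1 : List (h1.tm.Γ h1.tm.k₁) := (eb (f a)).map h1.outputAlphabet.invFun with hs1
  have e1 : its h1.tm.m n1 (some (initList h1.tm ((ea a).map h1.inputAlphabet.invFun))) =
      some (haltList h1.tm s1) := e1'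
  have e2 : its h2.tm.m n2
      (some (initList h2.tm ((eb (f a)).map h2.inputAlphabet.invFun))) =
      some (haltList h2.tm ((ec (g (f a))).map h2.outputAlphabet.invFun)) := e2'
  have hconv : s1.map conv = (eb (f a)).map h2.inputAlphabet.invFun := by
    rw [hs1, List.map_map]
    refine List.map_congr_left (fun x _ => ?_)
    simp only [Function.comp, conv]
    congr 1
    exact h1.outputAlphabet.apply_symm_apply x
  have hlen : s1.length ≤ (ea a).length + n1 * D := by
    have := len_run h1.tm.m hDb _ _ _ e1 h1.tm.k₁
    rw [initList_eq, haltList_eq] at this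
    simp only [update_self] at this
    refine this.trans (Nat.add_le_add_right ?_ _)
    by_cases hk : h1.tm.k₁ = h1.tm.k₀
    · generalize hS : (update (fun _ => []) h1.tm.k₀
        (List.map h1.inputAlphabet.invFun (ea a)) : ∀ k, List (h1.tm.Γ k)) = S
      have h3 : (S h1.tm.k₀).length = (ea a).length := by
        rw [← hS, update_self, List.length_map]
      rw [hk, h3]
    · rw [update_of_ne hk]
      simp
  -- the four phases
  have p1 := sim1 conv dflt (h2.tm.initialState, none) (fun _ => []) [] _ _ _ e1
  have p2 := copy1 conv dflt h1.tm.initialState h2.tm.initialState (fun _ => []) s1 none []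
  have p3 := copy2 conv dflt h1.tm.initialState h2.tm.initialState (fun _ => [])
    (s1.map conv).reverse none []
  have p4 := sim2 conv dflt h1.tm.initialState none (fun _ => []) [] _ _ _ e2
  have hupd : (update (fun _ => []) h2.tm.k₀ [] : ∀ k, List (h2.tm.Γ k)) = fun _ => [] := by
    funext k
    by_cases hk : k = h2.tm.k₀
    · subst hk; simp
    · rw [update_of_ne hk]
  rw [haltList_eq] at p1
  rw [hupd] at p3
  rw [initList_eq h2.tm] at p4
  rw [List.append_nil] at p2
  rw [List.reverse_reverse, List.append_nil, hconv] at p3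
  rw [hconv] at p2
  have hlr : ((eb (f a)).map h2.inputAlphabet.invFun).reverse.length = s1.length := by
    simp [hs1]
  rw [hlr] at p3
  have p5 := its_add (its_add (its_add p1 p2) p3) p4
  refine ⟨⟨n1 + (s1.length + 1) + (s1.length + 1) + n2, ?_⟩, ?_⟩
  · have hi : initList M ((ea a).map h1.inputAlphabet.invFun) =
        ⟨l1 (initList h1.tm ((ea a).map h1.inputAlphabet.invFun)).l,
          ((initList h1.tm ((ea a).map h1.inputAlphabet.invFun)).var,
            (h2.tm.initialState, none)),
          J (initList h1.tm ((ea a).map h1.inputAlphabet.invFun)).stk (fun _ => []) []⟩ := by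
      rw [initList_eq, initList_eq]
      have : (update (fun _ => []) M.k₀ ((ea a).map h1.inputAlphabet.invFun) :
          ∀ k : M.K, List (M.Γ k)) = J (update (fun _ => []) h1.tm.k₀
            ((ea a).map h1.inputAlphabet.invFun)) (fun _ => []) [] := by
        have h0 : (fun _ => [] : ∀ k : M.K, List (M.Γ k)) =
            J (fun _ => []) (fun _ => []) [] := by
          funext k
          rcases k with _ | (k | k) <;> rfl
        rw [h0]
        exact J_inl _ _ _ _ _
      rw [this]
      rfl
    have hh : haltList M ((ec (g (f a))).map h2.outputAlphabet.invFun) =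
        ⟨l2 (haltList h2.tm ((ec (g (f a))).map h2.outputAlphabet.invFun)).l,
          (h1.tm.initialState,
            (haltList h2.tm ((ec (g (f a))).map h2.outputAlphabet.invFun)).var, none),
          J (fun _ => []) (haltList h2.tm ((ec (g (f a))).map
            h2.outputAlphabet.invFun)).stk []⟩ := by
      rw [haltList_eq, haltList_eq]
      have : (update (fun _ => []) M.k₁ ((ec (g (f a))).map h2.outputAlphabet.invFun) :
          ∀ k : M.K, List (M.Γ k)) = J (fun _ => []) (update (fun _ => []) h2.tm.k₁
            ((ec (g (f a))).map h2.outputAlphabet.invFun)) [] := by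
        have h0 : (fun _ => [] : ∀ k : M.K, List (M.Γ k)) =
            J (fun _ => []) (fun _ => []) [] := by
          funext k
          rcases k with _ | (k | k) <;> rfl
        rw [h0]
        exact J_inr _ _ _ _ _
      rw [this]
      rfl
    have e5 : Option.map (haltList M)
        (some ((ec (g (f a))).map h2.outputAlphabet.invFun)) =
        some (haltList M ((ec (g (f a))).map h2.outputAlphabet.invFun)) := rfl
    exact (congrArg (fun c => its (cm h1.tm h2.tm conv dflt)
      (n1 + (s1.length + 1) + (s1.length + 1) + n2) (some c)) hi).trans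
        (p5.trans (congrArg some hh).symm)
  · have t3 : s1.length = (eb (f a)).length := by simp [hs1]
    have t4 : s1.length ≤ (ea a).length + h1.time.eval (ea a).length * D :=
      hlen.trans (Nat.add_le_add_left (Nat.mul_le_mul_right _ t1) _)
    have t5 : h2.time.eval (eb (f a)).length ≤
        h2.time.eval ((ea a).length + h1.time.eval (ea a).length * D) :=
      eval_mono_nat _ (by rw [← t3]; exact t4)
    simp only [eval_add, eval_mul, eval_X, eval_C, eval_one, eval_comp]
    omega

end Pool.Agent.H1.Comp
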