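import Pool.Agent.H1.NP.PCook
import Pool.Agent.H1.NP.Comp2
import Pool.Prelude.Def_F_458e953d

/-!
P is contained in NP, and an NP-hard problem in P gives P = NP (definitions of the Prelude).
-/

namespace Pool.Agent.H1.PNP

open Pool.Agent.H1.NP Pool.Agent.H68.OQP Polynomial Turing Function Pool.Agent.H1.Gen
  Pool.Agent.H70.TM N68a2faeb N793a5b8e

/-- body of the loop reading a delimited string -/
def fstB : Cmd ℕ Fl := .seq (pp 0) (.seq (pu 2) (pp 0))

/-- program extracting the first string of a pair -/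
def fstP : Cmd ℕ Fl := .seq (.seq (pp 0) (.wh cd fstB)) (.seq (clr 0) (mv 2 1))

theorem pp_upd0 (r A : List Bool) (v : Fl) : RunB (pp 0) v (update (one1 2 A) 0 r)
    ⟨v.b, r.head?.isSome, r.head?.getD v.d⟩ (update (one1 2 A) 0 r.tail) 1 := by
  have h := pp_does (k := 0) (v := v) (S := update (one1 2 A) 0 r)
  rw [update_self, update_idem] at h
  exact h

theorem fst_loop (R : List Bool) : ∀ (A acc : List Bool) (v : Fl), ∃ v₁ S₁ v',
    RunB (pp 0) v (update (one1 2 acc) 0 (N487b59b3.delimit A ++ R)) v₁ S₁ 1 ∧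
    RunB (.wh cd fstB) v₁ S₁ v' (update (one1 2 (A.reverse ++ acc)) 0 R)
      (A.length * 4 + 1) := by
  intro A
  induction A with
  | nil =>
    intro acc v
    have h := pp_upd0 (N487b59b3.delimit [] ++ R) acc v
    exact ⟨_, _, ⟨v.b, true, false⟩, h, RunB.wh_f rfl⟩
  | cons b A ih =>
    intro acc v
    have h := pp_upd0 (N487b59b3.delimit (b :: A) ++ R) acc v
    have h1 := pp_upd0 (b :: (N487b59b3.delimit A ++ R)) acc ⟨v.b, true, true⟩
    have h2 : RunB (pu 2) (⟨v.b, true, b⟩ : Fl)
        (update (one1 2 acc) 0 (N487b59b3.delimit A ++ R)) ⟨v.b, true, b⟩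
        (update (one1 2 (b :: acc)) 0 (N487b59b3.delimit A ++ R)) 1 := by
      refine ⟨1, le_rfl, ?_⟩
      have h := Run.push 2 (fun v : Fl => v.d) (⟨v.b, true, b⟩ : Fl)
        (update (one1 2 acc) 0 (N487b59b3.delimit A ++ R))
      refine cast ?_ h
      congr 1
      generalize N487b59b3.delimit A ++ R = Q
      funext i
      simp only [one1, Function.update_apply]
      split_ifs <;> simp_all
    obtain ⟨v₃, S₃, v₄, h3, h4⟩ := ih (b :: acc) ⟨v.b, true, b⟩
    refine ⟨_, _, v₄, h, ?_⟩
    have h5 := RunB.wh_t (p := cd) (c := fstB) (v := ⟨v.b, true, true⟩) rfl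
      (h1.seq (h2.seq h3)) h4
    rw [List.reverse_cons, List.append_assoc, List.singleton_append]
    exact h5.mono (by simp only [List.length_cons]; omega)

theorem polyOn_fst : PolyOn (N487b59b3.bitEncode : List Bool × List Bool → List Bool)
    (N487b59b3.bitEncode : List Bool → List Bool) Prod.fst := by
  refine ⟨fstP, 20 * .X + 20, fun q => ?_⟩
  obtain ⟨x, y⟩ := q
  have henc : N487b59b3.bitEncode (x, y) =
      N487b59b3.delimit (N487b59b3.bitEncode x) ++ N487b59b3.bitEncode y := rfl
  rw [henc]
  set A := N487b59b3.bitEncode x with hA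
  set R := N487b59b3.bitEncode y with hR
  have hlen : (N487b59b3.delimit A ++ R).length = 2 * A.length + 1 + R.length := by
    rw [List.length_append, N487b59b3.length_delimit]
  have d1 : Does (.seq (pp 0) (.wh cd fstB)) (one1 0 (N487b59b3.delimit A ++ R))
      (update (one1 2 A.reverse) 0 R) (A.length * 4 + 2) := by
    intro v
    obtain ⟨v₁, S₁, v', h1, h2⟩ := fst_loop R A [] v
    refine ⟨v', ?_⟩
    have e1 : update (one1 2 []) 0 (N487b59b3.delimit A ++ R) =
        one1 0 (N487b59b3.delimit A ++ R) := by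
      generalize N487b59b3.delimit A ++ R = Q
      funext i
      simp only [one1, Function.update_apply]
      split_ifs <;> simp_all
    rw [e1] at h1
    rw [List.append_nil] at h2
    exact (h1.seq h2).mono (by omega)
  have d2 := clr_does (k := 0) (S := update (one1 2 A.reverse) 0 R)
  rw [update_idem, update_self] at d2
  have d3 := mv_does (a := 2) (k := 1) (by omega) (S := update (one1 2 A.reverse) 0 [])
  have e : update (update (update (one1 2 A.reverse) 0 []) 2 [])
      1 ((update (one1 2 A.reverse) 0 [] 2).reverse ++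
      update (one1 2 A.reverse) 0 [] 1) = one1 1 A := by
    funext i
    simp only [one1, Function.update_apply]
    split_ifs <;> simp_all
  rw [e] at d3
  refine Does.mono (c := fstP) (d1.seq (d2.seq d3)) ?_
  have h1 : (update (one1 2 A.reverse) 0 [] 2).length = A.length := by simp [one1]
  rw [h1, hlen]
  simp only [eval_add, eval_mul, eval_ofNat, eval_X]
  omega

theorem isPolyTime_comp {f : List Bool → List Bool} {g : List Bool → Bool}
    (hf : IsPolyTime f) (hg : IsPolyTime g) : IsPolyTime (fun x => g (f x)) := by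
  obtain ⟨hf⟩ := hf
  obtain ⟨hg⟩ := hg
  exact Comp.comp_polyTime hf hg

theorem P_subset_NP : P ⊆ NP := by
  intro L hL
  obtain ⟨h⟩ := polyOn_fst.tm
  obtain ⟨hL⟩ := hL
  refine ⟨0, fun q => L q.1, Comp.comp_polyTime h hL, fun x => ?_⟩
  constructor
  · intro hx
    exact ⟨[], by simp, hx⟩
  · rintro ⟨w, _, hw⟩
    exact hw

/-- an NP-hard problem in P gives P = NP -/
theorem P_eq_NP_of_hard {Q : DecisionProblem} (hQ : ∀ L ∈ NP, ManyOneReducible L Q)
    (hP : Q ∈ P) : P = NP := by
  refine Set.Subset.antisymm P_subset_NP (fun L hL => ?_)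
  obtain ⟨f, hf, h⟩ := hQ L hL
  have : L = fun x => Q (f x) := funext h
  rw [this]
  exact isPolyTime_comp hf hP

/-- a decision problem about codes -/
noncomputable def prob {A : Type} (enc : A → List Bool) (Y : A → Prop) : DecisionProblem :=
  fun w => @decide (∃ a, enc a = w ∧ Y a) (Classical.propDecidable _)

/-- reductions to problems about objects with an injective code -/
theorem hard_of {A : Type} {enc : A → List Bool} (henc : Function.Injective enc) {Y : A → Prop}
    (h : ∀ L ∈ NP, ∃ f : List Bool → A, PolyOn (fun w => w) enc f ∧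
      ∀ x, L x = true ↔ Y (f x)) : ∀ L ∈ NP, ManyOneReducible L (prob enc Y) := by
  intro L hL
  obtain ⟨f, hf, hY⟩ := h L hL
  refine ⟨fun x => enc (f x), isPolyTime_of
    (hf.congr (fun x => x) (fun _ => rfl) (fun _ => rfl)), fun x => ?_⟩
  rw [Bool.eq_iff_iff, hY x]
  unfold prob
  rw [@decide_eq_true_iff _ (Classical.propDecidable _)]
  constructor
  · intro h
    exact ⟨f x, rfl, h⟩
  · rintro ⟨a, ha, h⟩
    rw [henc ha] at h
    exact h

end Pool.Agent.H1.PNP
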