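import Pool.Agent.H1.NP.Tab

/-!
Correctness of the tableau and its generator.
-/

namespace Pool.Agent.H1.NP

open Pool.Agent.H68.OQP Polynomial

section

variable (Z : RS) (x : List Bool) (P T' : ℕ)

theorem enc_x {x y : List Bool} {i : ℕ} (hi : i < x.length) :
    (encPair (x, y))[i]? = some (some (x.getD i false)) := by
  unfold encPair
  rw [List.getElem?_append_left (by simpa using hi), List.getElem?_map,
    List.getD_eq_getElem?_getD, List.getElem?_eq_getElem hi]
  rfl

theorem enc_sep {x y : List Bool} : (encPair (x, y))[x.length]? = some none := by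
  unfold encPair
  rw [List.getElem?_append_right (by simp)]
  simp

theorem enc_y {x y : List Bool} {j : ℕ} (hj : j < y.length) :
    (encPair (x, y))[x.length + 1 + j]? = some (some (y.getD j false)) := by
  unfold encPair
  rw [List.getElem?_append_right (by simp; omega)]
  simp only [List.length_map]
  rw [show x.length + 1 + j - x.length = j + 1 by omega, List.getElem?_cons_succ,
    List.getElem?_map, List.getD_eq_getElem?_getD, List.getElem?_eq_getElem hj]
  rfl

theorem enc_blank {x y : List Bool} {j : ℕ} (hj : y.length ≤ j) :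
    (encPair (x, y))[x.length + 1 + j]? = none := by
  unfold encPair
  rw [List.getElem?_append_right (by simp; omega)]
  simp only [List.length_map]
  rw [show x.length + 1 + j - x.length = j + 1 by omega, List.getElem?_cons_succ,
    List.getElem?_map, List.getElem?_eq_none hj]
  rfl

variable {Z x P T'}

/-- soundness -/
theorem cls_sound {τ : ℕ → Bool} (h : ∀ c ∈ cls Z x P T', ∃ a ∈ C5.l c, lit τ a = true) :
    ∃ y : List Bool, y.length ≤ P ∧ Z.acc (Z.R x y (tT x P T') 0) = true := by
  have hT : tT x P T' = x.length + 1 + P + T' := rfl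
  set T := tT x P T' with hTdef
  have hc := fun c hc => h c ((mem_cls Z x P T').2 hc)
  have huni : ∀ a, (∃ b ∈ C5.l (uni a), lit τ b = true) → lit τ a = true := by
    rintro a ⟨b, hb, h⟩
    simp only [C5.l, uni, List.mem_cons, List.not_mem_nil, or_false, or_self] at hb
    rw [← hb]; exact h
  -- facts about the first row
  have f1 : ∀ i < x.length, lit τ (pos T Z.s T i (Z.sy (some (some (x.getD i false))))) = true :=
    fun i hi => huni _ (hc _ (Or.inl ⟨i, hi, rfl⟩))
  have f2 : lit τ (pos T Z.s T x.length (Z.sy (some none))) = true :=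
    huni _ (hc _ (Or.inr (Or.inl rfl)))
  have f3 : ∀ j < P, lit τ (pos T Z.s T (x.length + 1 + j) (Z.sy (some (some false)))) = true ∨
      lit τ (pos T Z.s T (x.length + 1 + j) (Z.sy (some (some true)))) = true ∨
      lit τ (pos T Z.s T (x.length + 1 + j) (Z.sy none)) = true := by
    intro j hj
    obtain ⟨a, ha, h1⟩ := hc _ (Or.inr (Or.inr (Or.inl ⟨j, hj, rfl⟩)))
    simp only [C5.l, List.mem_cons, List.not_mem_nil, or_false] at ha
    rcases ha with rfl | rfl | rfl | rfl | rfl
    exacts [Or.inl h1, Or.inr (Or.inl h1), Or.inr (Or.inr h1), Or.inr (Or.inr h1),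
      Or.inr (Or.inr h1)]
  have f4 : ∀ j < P, lit τ (pos T Z.s T (x.length + 1 + j) (Z.sy none)) = true →
      lit τ (pos T Z.s T (x.length + 1 + (j + 1)) (Z.sy none)) = true := by
    intro j hj h0
    obtain ⟨a, ha, h1⟩ := hc _ (Or.inr (Or.inr (Or.inr (Or.inl ⟨j, hj, rfl⟩))))
    simp only [C5.l, List.mem_cons, List.not_mem_nil, or_false] at ha
    rw [← Nat.add_assoc]
    rcases ha with rfl | rfl | rfl | rfl | rfl
    · rw [lit_neg, h0] at h1
      cases h1
    all_goals exact h1
  have f5 : ∀ j < T' + 1, lit τ (pos T Z.s T (x.length + 1 + P + j) (Z.sy none)) = true :=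
    fun j hj => huni _ (hc _ (Or.inr (Or.inr (Or.inr (Or.inr (Or.inl ⟨j, hj, rfl⟩))))))
  -- the certificate
  classical
  have hex : ∃ J, J = P ∨ (J < P ∧
      ¬ lit τ (pos T Z.s T (x.length + 1 + J) (Z.sy (some (some false)))) = true ∧
      ¬ lit τ (pos T Z.s T (x.length + 1 + J) (Z.sy (some (some true)))) = true) :=
    ⟨P, Or.inl rfl⟩
  set J := Nat.find hex with hJ
  have hJP : J ≤ P := Nat.find_min' hex (Or.inl rfl)
  have hJs := Nat.find_spec hex
  have hJm : ∀ j < J, lit τ (pos T Z.s T (x.length + 1 + j) (Z.sy (some (some false)))) = true ∨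
      lit τ (pos T Z.s T (x.length + 1 + j) (Z.sy (some (some true)))) = true := by
    intro j hj
    have := Nat.find_min hex hj
    push Not at this
    by_contra hcon
    push Not at hcon
    exact hcon.2 (this.2 (by omega) hcon.1)
  have hbl : ∀ j, J ≤ j → x.length + 1 + j ≤ T →
      lit τ (pos T Z.s T (x.length + 1 + j) (Z.sy none)) = true := by
    have h1 : ∀ j, J ≤ j → j ≤ P →
        lit τ (pos T Z.s T (x.length + 1 + j) (Z.sy none)) = true := by
      intro j hj
      induction j, hj using Nat.le_induction with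
      | base =>
        intro _
        rcases hJs with h2 | ⟨h2, h3, h4⟩
        · rw [← hJ] at h2
          rw [h2]
          exact f5 0 (by omega)
        · rcases f3 J h2 with h5 | h5 | h5
          · exact absurd h5 h3
          · exact absurd h5 h4
          · exact h5
      | succ j hj ih =>
        intro hjP
        exact f4 j (by omega) (ih (by omega))
    intro j hj hjT
    by_cases hjP : j ≤ P
    · exact h1 j hj hjP
    · have := f5 (j - P) (by omega)
      rw [show x.length + 1 + P + (j - P) = x.length + 1 + j by omega] at this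
      exact this
  set y : List Bool := (List.range J).map
    (fun j => lit τ (pos T Z.s T (x.length + 1 + j) (Z.sy (some (some true))))) with hy
  have hyl : y.length = J := by simp [hy]
  have hyg : ∀ j < J, y.getD j false =
      lit τ (pos T Z.s T (x.length + 1 + j) (Z.sy (some (some true)))) := by
    intro j hj
    rw [hy, List.getD_eq_getElem?_getD, List.getElem?_map, List.getElem?_range hj]
    rfl
  refine ⟨y, by omega, ?_⟩
  have hrow0 : ∀ i ≤ T, lit τ (pos T Z.s T i (Z.R x y 0 i)) = true := by
    intro i hi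
    simp only [RS.R]
    rcases Nat.lt_trichotomy i x.length with h1 | h1 | h1
    · rw [enc_x h1]; exact f1 i h1
    · subst h1
      rw [enc_sep]; exact f2
    · obtain ⟨j, rfl⟩ : ∃ j, i = x.length + 1 + j := ⟨i - (x.length + 1), by omega⟩
      by_cases hj : j < J
      · rw [enc_y (by omega), hyg j hj]
        cases h2 : lit τ (pos T Z.s T (x.length + 1 + j) (Z.sy (some (some true)))) with
        | true => exact h2
        | false =>
          rcases hJm j hj with h3 | h3
          · exact h3
          · rw [h2] at h3; cases h3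
      · rw [enc_blank (by omega)]
        exact hbl j (by omega) hi
  have hrow : ∀ t ≤ T, ∀ i ≤ T - t, lit τ (pos T Z.s (T - t) i (Z.R x y t i)) = true := by
    intro t
    induction t with
    | zero =>
      intro _ i hi
      exact hrow0 i hi
    | succ t ih =>
      intro ht i hi
      have ih' := ih (by omega)
      have e : T - t = T - (t + 1) + 1 := by omega
      rw [e] at ih'
      cases i with
      | zero =>
        obtain ⟨a, ha, h1⟩ := hc _ (Or.inr (Or.inr (Or.inr (Or.inr (Or.inr (Or.inl
          ⟨T - (t + 1), by omega, Z.R x y t 0, Z.R_lt x y t 0, Z.R x y t 1, Z.R_lt x y t 1,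
            rfl⟩))))))
        simp only [C5.l, List.mem_cons, List.not_mem_nil, or_false] at ha
        rcases ha with rfl | rfl | rfl | rfl | rfl
        · rw [lit_neg, ih' 0 (by omega)] at h1
          cases h1
        · rw [lit_neg, ih' 1 (by omega)] at h1
          cases h1
        all_goals exact h1
      | succ i =>
        obtain ⟨a, ha, h1⟩ := hc _ (Or.inr (Or.inr (Or.inr (Or.inr (Or.inr (Or.inr (Or.inl
          ⟨T - (t + 1), by omega, i, by omega, Z.R x y t 0, Z.R_lt x y t 0, Z.R x y t i,
            Z.R_lt x y t i, Z.R x y t (i + 1), Z.R_lt x y t _, Z.R x y t (i + 2),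
            Z.R_lt x y t _, rfl⟩)))))))
        simp only [C5.l, List.mem_cons, List.not_mem_nil, or_false] at ha
        rcases ha with rfl | rfl | rfl | rfl | rfl
        · rw [lit_neg, ih' 0 (by omega)] at h1
          cases h1
        · rw [lit_neg, ih' i (by omega)] at h1
          cases h1
        · rw [lit_neg, ih' (i + 1) (by omega)] at h1
          cases h1
        · rw [lit_neg, ih' (i + 2) (by omega)] at h1
          cases h1
        · exact h1
  have hlast := hrow T le_rfl 0 (by omega)
  rw [Nat.sub_self] at hlast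
  by_contra hacc
  rw [Bool.not_eq_true] at hacc
  have := huni _ (hc _ (Or.inr (Or.inr (Or.inr (Or.inr (Or.inr (Or.inr (Or.inr
    ⟨_, Z.R_lt x y T 0, hacc, rfl⟩))))))))
  rw [lit_neg, hlast] at this
  cases this

/-- completeness -/
theorem cls_complete {y : List Bool} (hy : y.length ≤ P)
    (hacc : Z.acc (Z.R x y (tT x P T') 0) = true) :
    ∃ τ : ℕ → Bool, ∀ c ∈ cls Z x P T', ∃ a ∈ C5.l c, lit τ a = true := by
  have hT : tT x P T' = x.length + 1 + P + T' := rfl
  set T := tT x P T' with hTdef
  let τ : ℕ → Bool := fun v =>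
    (v % Z.s == Z.R x y (T - v / Z.s / (T + 2)) (v / Z.s % (T + 2)))
  have hs : 0 < Z.s := lt_of_le_of_lt (Nat.zero_le _) (Z.hsy none)
  have hτ : ∀ u i a, u ≤ T → i < T + 2 → a < Z.s →
      lit τ (pos T Z.s u i a) = (a == Z.R x y (T - u) i) := by
    intro u i a hu hi ha
    rw [lit_pos]
    simp only [τ]
    have e1 : ((u * (T + 2) + i) * Z.s + a) % Z.s = a := by
      rw [Nat.add_comm, Nat.add_mul_mod_self_right, Nat.mod_eq_of_lt ha]
    have e2 : ((u * (T + 2) + i) * Z.s + a) / Z.s = u * (T + 2) + i := by
      rw [Nat.add_comm, Nat.add_mul_div_right _ _ hs, Nat.div_eq_of_lt ha, Nat.zero_add]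
    have e3 : (u * (T + 2) + i) % (T + 2) = i := by
      rw [Nat.add_comm, Nat.add_mul_mod_self_right, Nat.mod_eq_of_lt hi]
    have e4 : (u * (T + 2) + i) / (T + 2) = u := by
      rw [Nat.add_comm, Nat.add_mul_div_right _ _ (by omega), Nat.div_eq_of_lt hi,
        Nat.zero_add]
    rw [e1, e2, e3, e4]
  have hpos : ∀ u i a, u ≤ T → i < T + 2 → a = Z.R x y (T - u) i →
      lit τ (pos T Z.s u i a) = true := by
    intro u i a hu hi ha
    rw [hτ u i a hu hi (by rw [ha]; exact Z.R_lt x y _ _), ha]
    simp
  have hneg : ∀ u i a, u ≤ T → i < T + 2 → a < Z.s → a ≠ Z.R x y (T - u) i →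
      lit τ (neg T Z.s u i a) = true := by
    intro u i a hu hi ha hne
    rw [lit_neg, hτ u i a hu hi ha]
    simpa using hne
  have hR0 : ∀ i, Z.R x y (T - T) i = Z.sy ((encPair (x, y))[i]?) := by
    intro i
    rw [Nat.sub_self]
    rfl
  refine ⟨τ, fun c hc => ?_⟩
  rcases (mem_cls Z x P T').1 hc with ⟨i, hi, rfl⟩ | rfl | ⟨j, hj, rfl⟩ | ⟨j, hj, rfl⟩ |
    ⟨j, hj, rfl⟩ | ⟨u, hu, p, hp, q, hq, rfl⟩ |
    ⟨u, hu, i, hi, p, hp, q, hq, r, hr, t, ht, rfl⟩ | ⟨p, hp, hpa, rfl⟩
  · refine ⟨_, List.mem_cons_self, ?_⟩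
    exact hpos _ _ _ le_rfl (by omega) (by rw [hR0, enc_x hi])
  · refine ⟨_, List.mem_cons_self, ?_⟩
    exact hpos _ _ _ le_rfl (by omega) (by rw [hR0, enc_sep])
  · by_cases h1 : j < y.length
    · have h2 := enc_y (x := x) h1
      cases h3 : y.getD j false with
      | false =>
        refine ⟨_, List.mem_cons_self, ?_⟩
        exact hpos _ _ _ le_rfl (by omega) (by rw [hR0, h2, h3])
      | true =>
        refine ⟨_, List.mem_cons_of_mem _ List.mem_cons_self, ?_⟩
        exact hpos _ _ _ le_rfl (by omega) (by rw [hR0, h2, h3])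
    · refine ⟨_, List.mem_cons_of_mem _ (List.mem_cons_of_mem _ List.mem_cons_self), ?_⟩
      exact hpos _ _ _ le_rfl (by omega) (by rw [hR0, enc_blank (by omega)])
  · by_cases h1 : j < y.length
    · refine ⟨_, List.mem_cons_self, ?_⟩
      refine hneg _ _ _ le_rfl (by omega) (Z.hsy _) ?_
      rw [hR0, enc_y h1]
      exact (Z.hne _).symm
    · refine ⟨_, List.mem_cons_of_mem _ List.mem_cons_self, ?_⟩
      refine hpos _ _ _ le_rfl (by omega) ?_
      rw [hR0, Nat.add_assoc, enc_blank (by omega)]
  · refine ⟨_, List.mem_cons_self, ?_⟩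
    refine hpos _ _ _ le_rfl (by omega) ?_
    rw [hR0, Nat.add_assoc, enc_blank (by omega)]
  · by_cases h1 : p = Z.R x y (T - (u + 1)) 0
    · by_cases h2 : q = Z.R x y (T - (u + 1)) 1
      · refine ⟨_, List.mem_cons_of_mem _ (List.mem_cons_of_mem _ List.mem_cons_self), ?_⟩
        refine hpos _ _ _ (by omega) (by omega) ?_
        rw [show T - u = T - (u + 1) + 1 by omega]
        simp only [RS.R]
        rw [h1, h2]
      · refine ⟨_, List.mem_cons_of_mem _ List.mem_cons_self, ?_⟩
        exact hneg _ _ _ (by omega) (by omega) hq h2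
    · refine ⟨_, List.mem_cons_self, ?_⟩
      exact hneg _ _ _ (by omega) (by omega) hp h1
  · by_cases h1 : p = Z.R x y (T - (u + 1)) 0
    · by_cases h2 : q = Z.R x y (T - (u + 1)) i
      · by_cases h3 : r = Z.R x y (T - (u + 1)) (i + 1)
        · by_cases h4 : t = Z.R x y (T - (u + 1)) (i + 2)
          · refine ⟨_, List.mem_cons_of_mem _ (List.mem_cons_of_mem _ (List.mem_cons_of_mem _
              (List.mem_cons_of_mem _ List.mem_cons_self))), ?_⟩
            refine hpos _ _ _ (by omega) (by omega) ?_
            rw [show T - u = T - (u + 1) + 1 by omega]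
            simp only [RS.R]
            rw [h1, h2, h3, h4]
          · refine ⟨_, List.mem_cons_of_mem _ (List.mem_cons_of_mem _ (List.mem_cons_of_mem _
              List.mem_cons_self)), ?_⟩
            exact hneg _ _ _ (by omega) (by omega) ht h4
        · refine ⟨_, List.mem_cons_of_mem _ (List.mem_cons_of_mem _ List.mem_cons_self), ?_⟩
          exact hneg _ _ _ (by omega) (by omega) hr h3
      · refine ⟨_, List.mem_cons_of_mem _ List.mem_cons_self, ?_⟩
        exact hneg _ _ _ (by omega) (by omega) hq h2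
    · refine ⟨_, List.mem_cons_self, ?_⟩
      exact hneg _ _ _ (by omega) (by omega) hp h1
  · refine ⟨_, List.mem_cons_self, ?_⟩
    refine hneg _ _ _ (by omega) (by omega) hp ?_
    rintro rfl
    rw [Nat.sub_zero, hacc] at hpa
    cases hpa

variable (Z x P T')

/-- the formula as a list of numbers -/
def frm : List ℕ := nV Z x P T' :: (cls Z x P T').length :: (cls Z x P T').flatMap C5.l

theorem frm_ok : Ok5 (frm Z x P T') := ok5_flat _ _ (cls_ok Z x P T')

theorem frm_sat : Sat5 (frm Z x P T') ↔
    ∃ y : List Bool, y.length ≤ P ∧ Z.acc (Z.R x y (tT x P T') 0) = true := by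
  unfold frm
  rw [sat5_flat]
  constructor
  · rintro ⟨τ, h⟩
    exact cls_sound h
  · rintro ⟨y, hy, h⟩
    exact cls_complete hy h

end

/-! ### The generator -/

/-- repeat over a fixed list -/
def many {α : Type} (L : List α) (g : α → Lg) : Lg := L.foldr (fun a h => .seq (g a) h) .nil

theorem many_out {α : Type} (L : List α) (g : α → Lg) (l env : List ℕ) :
    (many L g).out l env = L.flatMap (fun a => (g a).out l env) := by
  induction L with
  | nil => rfl
  | cons a L ih =>
    have : (many (a :: L) g).out l env = (g a).out l env ++ (many L g).out l env := rfl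
    rw [this, ih, List.flatMap_cons]

/-- length of the input -/
def xl : Ex := .inp (.con 0)

/-- a clause -/
def clL (a b c d e : Ex) : Lg := .seq (.el a) (.seq (.el b) (.seq (.el c) (.seq (.el d) (.el e))))

theorem clL_out (a b c d e : Ex) (l env : List ℕ) : (clL a b c d e).out l env =
    C5.l (a.val l env, b.val l env, c.val l env, d.val l env, e.val l env) := rfl

section

variable (s : ℕ) (xT : Ex)

/-- positive literal -/
def posE (u i : Ex) (a : ℕ) : Ex :=
  .add (.mul (.con 2) (.add (.mul (.add (.mul u (.add xT (.con 2))) i) (.con s)) (.con a)))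
    (.con 1)

/-- negative literal -/
def negE (u i : Ex) (a : ℕ) : Ex :=
  .mul (.con 2) (.add (.mul (.add (.mul u (.add xT (.con 2))) i) (.con s)) (.con a))

theorem posE_val {l env : List ℕ} {T : ℕ} (h : xT.val l env = T) (u i : Ex) (a : ℕ) :
    (posE s xT u i a).val l env = pos T s (u.val l env) (i.val l env) a := by
  simp [posE, pos, Ex.val, h]

theorem negE_val {l env : List ℕ} {T : ℕ} (h : xT.val l env = T) (u i : Ex) (a : ℕ) :
    (negE s xT u i a).val l env = neg T s (u.val l env) (i.val l env) a := by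
  simp [negE, neg, Ex.val, h]

/-- unit clause -/
def uniL (a : Ex) : Lg := clL a a a a a

end

/-- the generator of the tableau; `xP`, `xT'` are the bounds -/
def tabG (Z : RS) (xP xT' : Ex) : Lg :=
  let xT : Ex := .add (.add (.add xl (.con 1)) xP) xT'
  let p := posE Z.s xT
  let n := negE Z.s xT
  let y (j : Ex) : Ex := .add (.add xl (.con 1)) j
  .seq (.el (.mul (.mul (.add xT (.con 1)) (.add xT (.con 2))) (.con Z.s)))
  (.seq (.el (.add xl (.add (.con 1) (.add xP (.add xP (.add (.add xT' (.con 1))
    (.add (.mul xT (.mul (.con Z.s) (.con Z.s))) (.add (.mul xT (.mul xT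
      (.con (Z.s * Z.s * (Z.s * Z.s)))))
      (.con ((List.range Z.s).filter (fun a => !Z.acc a)).length)))))))))
  (.seq (.loop xl (.ifle (.inp (.add (.con 1) (.var 0))) (.con 0)
      (uniL (p xT (.var 0) (Z.sy (some (some false)))))
      (uniL (p xT (.var 0) (Z.sy (some (some true)))))))
  (.seq (uniL (p xT xl (Z.sy (some none))))
  (.seq (.loop xP (clL (p xT (y (.var 0)) (Z.sy (some (some false))))
      (p xT (y (.var 0)) (Z.sy (some (some true)))) (p xT (y (.var 0)) (Z.sy none))
      (p xT (y (.var 0)) (Z.sy none)) (p xT (y (.var 0)) (Z.sy none))))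
  (.seq (.loop xP (clL (n xT (y (.var 0)) (Z.sy none))
      (p xT (.add (y (.var 0)) (.con 1)) (Z.sy none))
      (p xT (.add (y (.var 0)) (.con 1)) (Z.sy none))
      (p xT (.add (y (.var 0)) (.con 1)) (Z.sy none))
      (p xT (.add (y (.var 0)) (.con 1)) (Z.sy none))))
  (.seq (.loop (.add xT' (.con 1)) (uniL (p xT (.add (y xP) (.var 0)) (Z.sy none))))
  (.seq (.loop xT (many (prs Z.s) (fun c => clL (n (.add (.var 0) (.con 1)) (.con 0) c.1)
      (n (.add (.var 0) (.con 1)) (.con 1) c.2) (p (.var 0) (.con 0) (Z.F0 c.1 c.2))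
      (p (.var 0) (.con 0) (Z.F0 c.1 c.2)) (p (.var 0) (.con 0) (Z.F0 c.1 c.2)))))
  (.seq (.loop xT (.loop xT (many (qds Z.s) (fun c =>
      clL (n (.add (.var 1) (.con 1)) (.con 0) c.1.1) (n (.add (.var 1) (.con 1)) (.var 0) c.1.2)
        (n (.add (.var 1) (.con 1)) (.add (.var 0) (.con 1)) c.2.1)
        (n (.add (.var 1) (.con 1)) (.add (.var 0) (.con 2)) c.2.2)
        (p (.var 1) (.add (.var 0) (.con 1)) (Z.F1 c.1.1 c.1.2 c.2.1 c.2.2))))))
  (many ((List.range Z.s).filter (fun a => !Z.acc a)) (fun a =>
      uniL (n (.con 0) (.con 0) a)))))))))))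

theorem tabG_out (Z : RS) (x : List Bool) (P T' : ℕ) (xP xT' : Ex)
    (hP : ∀ env, xP.val (bits x) env = P) (hT' : ∀ env, xT'.val (bits x) env = T') :
    (tabG Z xP xT').out (bits x) [] = frm Z x P T' := by
  have hl : ∀ env, xl.val (bits x) env = x.length := fun env => rfl
  have hT : ∀ env, (Ex.add (.add (.add xl (.con 1)) xP) xT').val (bits x) env = tT x P T' := by
    intro env
    simp only [Ex.val, hP, hT', hl, tT]
  have hf : ∀ {α β γ : Type} (L : List α) (f : α → List β) (g : β → List γ),
      (L.flatMap f).flatMap g = L.flatMap (fun a => (f a).flatMap g) := by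
    intro α β γ L f g
    induction L with
    | nil => rfl
    | cons a L ih => simp [ih]
  unfold frm
  rw [length_cls]
  unfold cls tabG
  simp only [Lg.out, List.flatMap_append, hf, many_out, uniL, clL_out,
    posE_val Z.s _ (hT _), negE_val Z.s _ (hT _), Ex.val, hl, hP, hT', List.getD_cons_zero,
    List.getD_cons_succ, List.flatMap_cons, List.flatMap_nil, List.append_nil,
    List.cons_append, List.nil_append, nV, tT, uni]
  congr 4
  · funext i
    split_ifs <;> simp

end Pool.Agent.H1.NP
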