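import Pool.Agent.H1.NP.Poly
import Pool.Agent.H68.OQP.Main

/-!
From formulas with clauses of five literals to instances of Betweenness.
-/

namespace Pool.Agent.H1.NP

open Pool.Agent.H68.OQP

/-- truth value of a coded literal: code `2v+1` is the variable `v`, code `2v` its negation -/
def lit (τ : ℕ → Bool) (c : ℕ) : Bool := τ (c / 2) == decide (c % 2 = 1)

/-- the `i`-th literal of the `j`-th clause -/
def cd5 (l : List ℕ) (j i : ℕ) : ℕ := l.getD (2 + i + 5 * j) 0

/-- satisfiability: the list is the number of variables, the number of clauses, the clauses -/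
def Sat5 (l : List ℕ) : Prop :=
  ∃ τ : ℕ → Bool, ∀ j < l.getD 1 0, ∃ i < 5, lit τ (cd5 l j i) = true

/-- all literals are in range -/
def Ok5 (l : List ℕ) : Prop := ∀ j < l.getD 1 0, ∀ i < 5, cd5 l j i < 2 * l.getD 0 0

/-- instances from lists of triples -/
def mkTs (n : ℕ) : (T : List (ℕ × ℕ × ℕ)) → (∀ t ∈ T, t.1 < n ∧ t.2.1 < n ∧ t.2.2 < n) →
    List (Fin n × Fin n × Fin n)
  | [], _ => []
  | t :: T, h => (⟨t.1, (h t List.mem_cons_self).1⟩, ⟨t.2.1, (h t List.mem_cons_self).2.1⟩,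
      ⟨t.2.2, (h t List.mem_cons_self).2.2⟩) ::
        mkTs n T (fun t ht => h t (List.mem_cons_of_mem _ ht))

theorem mem_mkTs {n : ℕ} {T : List (ℕ × ℕ × ℕ)} {h} {t : Fin n × Fin n × Fin n} :
    t ∈ mkTs n T h ↔ ((t.1 : ℕ), (t.2.1 : ℕ), (t.2.2 : ℕ)) ∈ T := by
  induction T with
  | nil => simp [mkTs]
  | cons a T ih =>
    rw [mkTs, List.mem_cons, List.mem_cons, ih]
    constructor
    · rintro (h | h)
      · left; rw [h]
      · exact Or.inr h
    · rintro (h | h)
      · left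
        refine Prod.ext (Fin.ext ?_) (Prod.ext (Fin.ext ?_) (Fin.ext ?_))
        · exact congrArg Prod.fst h
        · exact congrArg (fun x => x.2.1) h
        · exact congrArg (fun x => x.2.2) h
      · exact Or.inr h

theorem mkTs_length {n : ℕ} {T : List (ℕ × ℕ × ℕ)} {h} : (mkTs n T h).length = T.length := by
  induction T with
  | nil => rfl
  | cons a T ih => simp [mkTs, ih]

theorem mkTs_flat {n : ℕ} {T : List (ℕ × ℕ × ℕ)} {h} :
    (mkTs n T h).flatMap (fun t => [(t.1 : ℕ), (t.2.1 : ℕ), (t.2.2 : ℕ)]) =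
      T.flatMap (fun t => [t.1, t.2.1, t.2.2]) := by
  induction T with
  | nil => rfl
  | cons a T ih => simp [mkTs, ih]

/-- conditions on a list of triples -/
def Good (n : ℕ) (T : List (ℕ × ℕ × ℕ)) : Prop :=
  ∀ t ∈ T, (t.1 < n ∧ t.2.1 < n ∧ t.2.2 < n) ∧ t.1 ≠ t.2.1 ∧ t.2.1 ≠ t.2.2 ∧ t.1 ≠ t.2.2

/-- the instance with given triples -/
def mkB (n : ℕ) (T : List (ℕ × ℕ × ℕ)) (h : Good n T) : BInst where
  n := n
  ts := mkTs n T (fun t ht => (h t ht).1)
  distinct t ht := by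
    have := (h _ (mem_mkTs.1 ht)).2
    refine ⟨fun e => this.1 (congrArg Fin.val e), fun e => this.2.1 (congrArg Fin.val e),
      fun e => this.2.2 (congrArg Fin.val e)⟩

theorem mkB_nums {n : ℕ} {T : List (ℕ × ℕ × ℕ)} {h : Good n T} :
    (mkB n T h).nums = n :: T.length :: T.flatMap (fun t => [t.1, t.2.1, t.2.2]) := by
  unfold BInst.nums mkB
  simp only [mkTs_length, mkTs_flat]

/-- `b` is between `a` and `c` -/
def Bt (f : ℕ → ℤ) (a b c : ℕ) : Prop := (f a < f b ∧ f b < f c) ∨ (f c < f b ∧ f b < f a)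

theorem mkB_sat {n : ℕ} {T : List (ℕ × ℕ × ℕ)} {h : Good n T} :
    (mkB n T h).Sat ↔ ∃ f : ℕ → ℤ, (∀ a < n, ∀ b < n, f a = f b → a = b) ∧
      ∀ t ∈ T, Bt f t.1 t.2.1 t.2.2 := by
  constructor
  · rintro ⟨f, hf, hT⟩
    refine ⟨fun a => if ha : a < n then (f ⟨a, ha⟩ : ℤ) else 0, ?_, ?_⟩
    · intro a ha b hb hab
      simp only [dif_pos ha, dif_pos hb] at hab
      exact congrArg Fin.val (hf (by exact_mod_cast hab))
    · intro t ht
      obtain ⟨⟨h1, h2, h3⟩, _⟩ := h t ht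
      have := hT (⟨t.1, h1⟩, ⟨t.2.1, h2⟩, ⟨t.2.2, h3⟩) (mem_mkTs.2 ht)
      unfold Bt
      simp only [dif_pos h1, dif_pos h2, dif_pos h3]
      simp only at this
      exact_mod_cast this
  · rintro ⟨f, hf, hT⟩
    set K : ℤ := ∑ a ∈ Finset.range n, |f a| with hK
    have hle : ∀ a < n, 0 ≤ f a + K := by
      intro a ha
      have h1 : |f a| ≤ K := Finset.single_le_sum (f := fun a => |f a|)
        (fun i _ => abs_nonneg _) (Finset.mem_range.2 ha)
      have := neg_abs_le (f a)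
      linarith
    refine ⟨fun a => (f a + K).toNat, ?_, ?_⟩
    · intro a b hab
      have ha := hle a a.is_lt
      have hb := hle b b.is_lt
      simp only at hab
      exact Fin.ext (hf a a.is_lt b b.is_lt (by omega))
    · intro t ht
      have := hT _ (mem_mkTs.1 ht)
      have h1 := hle t.1 t.1.is_lt
      have h2 := hle t.2.1 t.2.1.is_lt
      have h3 := hle t.2.2 t.2.2.is_lt
      unfold Bt at this
      simp only at this ⊢
      omega

/-- not all equal -/
def nae (a b c : Bool) : Bool := !(a == b && b == c)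

theorem nae_chain : ∀ c0 c1 c2 c3 c4 : Bool, (c0 || c1 || c2 || c3 || c4) = true ↔
    ∃ w0 w1 w2 : Bool, nae false c0 w0 = true ∧ nae (!w0) c1 w1 = true ∧
      nae (!w1) c2 w2 = true ∧ nae (!w2) c3 c4 = true := by decide

section

variable (l : List ℕ)

/-- start of the auxiliary literals -/
def bA : ℕ := 2 + 2 * l.getD 0 0

/-- start of the inner elements -/
def bB : ℕ := bA l + 6 * l.getD 1 0

/-- number of elements -/
def bN : ℕ := bB l + 4 * l.getD 1 0

/-- first element of a gadget -/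
def gP (j i : ℕ) : ℕ := if i = 0 then 1 else bA l + 2 * (3 * j + (i - 1)) + 1

/-- second element of a gadget -/
def gQ (j i : ℕ) : ℕ := 2 + cd5 l j i

/-- third element of a gadget -/
def gR (j i : ℕ) : ℕ := if i < 3 then bA l + 2 * (3 * j + i) else 2 + cd5 l j 4

/-- inner element of a gadget -/
def gY (j i : ℕ) : ℕ := bB l + 4 * j + i

/-- the triples of a clause -/
def clT (j : ℕ) : List (ℕ × ℕ × ℕ) :=
  [(gP l j 0, gY l j 0, gQ l j 0), (gY l j 0, 0, gR l j 0),
   (gP l j 1, gY l j 1, gQ l j 1), (gY l j 1, 0, gR l j 1),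
   (gP l j 2, gY l j 2, gQ l j 2), (gY l j 2, 0, gR l j 2),
   (gP l j 3, gY l j 3, gQ l j 3), (gY l j 3, 0, gR l j 3)]

/-- all triples -/
def tri : List (ℕ × ℕ × ℕ) :=
  (List.range (l.getD 0 0)).flatMap (fun v => [(2 + 2 * v, 0, 2 + 2 * v + 1)]) ++
  ((List.range (3 * l.getD 1 0)).flatMap (fun u => [(bA l + 2 * u, 0, bA l + 2 * u + 1)]) ++
  (List.range (l.getD 1 0)).flatMap (clT l))

theorem tri_length : (tri l).length = l.getD 0 0 + 11 * l.getD 1 0 := by
  simp only [tri, List.length_append, List.length_flatMap]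
  simp [clT]
  ring

theorem mem_tri {t : ℕ × ℕ × ℕ} : t ∈ tri l ↔
    (∃ v < l.getD 0 0, t = (2 + 2 * v, 0, 2 + 2 * v + 1)) ∨
    (∃ u < 3 * l.getD 1 0, t = (bA l + 2 * u, 0, bA l + 2 * u + 1)) ∨
    (∃ j < l.getD 1 0, ∃ i < 4, t = (gP l j i, gY l j i, gQ l j i) ∨
      t = (gY l j i, 0, gR l j i)) := by
  simp only [tri, List.mem_append, List.mem_flatMap, List.mem_range, List.mem_singleton]
  refine or_congr Iff.rfl (or_congr Iff.rfl (exists_congr fun j => and_congr Iff.rfl ?_))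
  simp only [clT, List.mem_cons, List.not_mem_nil, or_false]
  constructor
  · rintro (h | h | h | h | h | h | h | h)
    exacts [⟨0, by omega, Or.inl h⟩, ⟨0, by omega, Or.inr h⟩, ⟨1, by omega, Or.inl h⟩,
      ⟨1, by omega, Or.inr h⟩, ⟨2, by omega, Or.inl h⟩, ⟨2, by omega, Or.inr h⟩,
      ⟨3, by omega, Or.inl h⟩, ⟨3, by omega, Or.inr h⟩]
  · rintro ⟨i, hi, h⟩
    interval_cases i <;> tauto

variable {l}

theorem tri_good (hl : Ok5 l) : Good (bN l) (tri l) := by
  intro t ht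
  rcases (mem_tri l).1 ht with ⟨v, hv, rfl⟩ | ⟨u, hu, rfl⟩ | ⟨j, hj, i, hi, rfl | rfl⟩
  · simp only [bN, bB, bA]
    omega
  · simp only [bN, bB, bA]
    omega
  · have h1 := hl j hj i (by omega)
    simp only [gP, gQ, gY, bN, bB, bA]
    split_ifs <;> omega
  · have h1 := hl j hj 4 (by omega)
    simp only [gR, gY, bN, bB, bA]
    split_ifs <;> omega

/-- side of the centre -/
def sd (f : ℕ → ℤ) (e : ℕ) : Bool := decide (f e < f 0)

theorem sd_opp {f : ℕ → ℤ} {a b : ℕ} (h : Bt f a 0 b) : sd f b = !sd f a := by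
  unfold Bt at h
  unfold sd
  rcases h with h | h
  · rw [decide_eq_true h.1, decide_eq_false (by omega)]
    rfl
  · rw [decide_eq_true h.1, decide_eq_false (by omega)]
    rfl

theorem nae_of_bt {f : ℕ → ℤ} {a b c y : ℕ} (h1 : Bt f a y b) (h2 : Bt f y 0 c) :
    nae (sd f a) (sd f b) (sd f c) = true := by
  have h3 := sd_opp h2
  rw [h3]
  unfold Bt at h1
  unfold sd nae
  by_cases ha : f a < f 0 <;> by_cases hb : f b < f 0 <;> by_cases hy : f y < f 0 <;>
    simp [ha, hb, hy] <;> omega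

theorem nae_xor (a b c s : Bool) : nae (a != s) (b != s) (c != s) = nae a b c := by
  revert a b c s; decide

theorem sat_of_bt {f : ℕ → ℤ} (hT : ∀ t ∈ tri l, Bt f t.1 t.2.1 t.2.2) (hl : Ok5 l) :
    Sat5 l := by
  have hmem := fun t ht => hT t ((mem_tri l).2 ht)
  set s := sd f 1 with hs
  let τ : ℕ → Bool := fun v => (sd f (2 + 2 * v + 1) != s)
  have hlit : ∀ c < 2 * l.getD 0 0, lit τ c = (sd f (2 + c) != s) := by
    intro c hc
    have h1 := sd_opp (hmem _ (Or.inl ⟨c / 2, by omega, rfl⟩))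
    simp only at h1
    unfold lit
    rcases Nat.even_or_odd' c with ⟨v, rfl | rfl⟩
    · have e : (2 * v) / 2 = v := by omega
      rw [e] at h1 ⊢
      simp only [τ, h1]
      have : ¬ (2 * v) % 2 = 1 := by omega
      simp only [this]
      cases sd f (2 + 2 * v) <;> cases s <;> rfl
    · have e : (2 * v + 1) / 2 = v := by omega
      rw [e]
      simp only [τ]
      have : (2 * v + 1) % 2 = 1 := by omega
      simp only [this, ← Nat.add_assoc]
      cases sd f (2 + 2 * v + 1) <;> cases s <;> rfl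
  refine ⟨τ, fun j hj => ?_⟩
  have hn : ∀ i < 4, nae (sd f (gP l j i) != s) (sd f (gQ l j i) != s)
      (sd f (gR l j i) != s) = true := by
    intro i hi
    rw [nae_xor]
    exact nae_of_bt (hmem _ (Or.inr (Or.inr ⟨j, hj, i, hi, Or.inl rfl⟩)))
      (hmem _ (Or.inr (Or.inr ⟨j, hj, i, hi, Or.inr rfl⟩)))
  have hw : ∀ u < 3 * l.getD 1 0, (sd f (bA l + 2 * u + 1) != s) =
      !(sd f (bA l + 2 * u) != s) := by
    intro u hu
    have := sd_opp (hmem _ (Or.inr (Or.inl ⟨u, hu, rfl⟩)))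
    simp only at this
    rw [this]
    cases sd f (bA l + 2 * u) <;> cases s <;> rfl
  have hQ : ∀ i < 5, (sd f (2 + cd5 l j i) != s) = lit τ (cd5 l j i) :=
    fun i hi => (hlit _ (hl j hj i hi)).symm
  have n0 := hn 0 (by omega)
  have n1 := hn 1 (by omega)
  have n2 := hn 2 (by omega)
  have n3 := hn 3 (by omega)
  simp only [gP, gQ, gR] at n0 n1 n2 n3
  norm_num at n0 n1 n2 n3
  rw [hQ 0 (by omega)] at n0
  rw [hQ 1 (by omega), hw (3 * j) (by omega)] at n1
  rw [hQ 2 (by omega), hw (3 * j + 1) (by omega)] at n2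
  rw [hQ 3 (by omega), hQ 4 (by omega), hw (3 * j + 2) (by omega)] at n3
  have hF : (sd f 1 != s) = false := by
    rw [hs]; cases sd f 1 <;> rfl
  rw [hF] at n0
  have := (nae_chain _ _ _ _ _).2 ⟨_, _, _, n0, n1, n2, n3⟩
  simp only [Bool.or_eq_true] at this
  rcases this with (((h | h) | h) | h) | h
  exacts [⟨0, by omega, h⟩, ⟨1, by omega, h⟩, ⟨2, by omega, h⟩, ⟨3, by omega, h⟩,
    ⟨4, by omega, h⟩]

end

end Pool.Agent.H1.NP
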