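import Pool.Agent.H1.NP.Btw

/-!
Satisfiable formulas give satisfiable instances of Betweenness; the generator.
-/

namespace Pool.Agent.H1.NP

open Pool.Agent.H68.OQP

section

variable (l : List ℕ) (τ : ℕ → Bool) (W : ℕ → ℕ → Bool)

/-- truth value of an outer element -/
def vl (e : ℕ) : Bool :=
  if e < 2 then false
  else if e < bA l then lit τ (e - 2)
  else if (e - bA l) % 2 = 0 then W ((e - bA l) / 2 / 3) ((e - bA l) / 2 % 3)
  else !W ((e - bA l) / 2 / 3) ((e - bA l) / 2 % 3)

/-- scale -/
def sc : ℕ := 4 * l.getD 1 0 + 2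

/-- do the two first elements of the gadget of an inner element agree? -/
def ag (y : ℕ) : Bool := vl l τ W (gP l (y / 4) (y % 4)) == vl l τ W (gQ l (y / 4) (y % 4))

/-- sign of an element -/
def sgn (e : ℕ) : Bool :=
  if e < bB l then vl l τ W e
  else if ag l τ W (e - bB l) then vl l τ W (gP l ((e - bB l) / 4) ((e - bB l) % 4))
  else !vl l τ W (gR l ((e - bB l) / 4) ((e - bB l) % 4))

/-- distance of an element to the centre -/
def mg (e : ℕ) : ℕ :=
  if e < bB l then e * sc l
  else (if ag l τ W (e - bB l) then min (gP l ((e - bB l) / 4) ((e - bB l) % 4))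
    (gQ l ((e - bB l) / 4) ((e - bB l) % 4)) else 0) * sc l + (e - bB l + 1)

/-- position -/
def ps (e : ℕ) : ℤ := if sgn l τ W e then (mg l τ W e : ℤ) else - (mg l τ W e : ℤ)

variable {l τ W}

theorem mg_inj {a b : ℕ} (ha : a < bN l) (hb : b < bN l) (h : mg l τ W a = mg l τ W b) :
    a = b := by
  have hs : 0 < sc l := by unfold sc; omega
  have hmod : ∀ e < bN l, (mg l τ W e) % sc l = if e < bB l then 0 else e - bB l + 1 := by
    intro e he
    unfold mg
    by_cases h1 : e < bB l
    · rw [if_pos h1, if_pos h1, Nat.mul_mod_left]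
    · rw [if_neg h1, if_neg h1, Nat.mul_comm, Nat.mul_add_mod, Nat.mod_eq_of_lt]
      unfold sc
      unfold bN at he
      omega
  have h1 := hmod a ha
  have h2 := hmod b hb
  rw [h, h2] at h1
  by_cases h3 : a < bB l <;> by_cases h4 : b < bB l
  · unfold mg at h
    rw [if_pos h3, if_pos h4] at h
    exact Nat.eq_of_mul_eq_mul_right hs h
  · rw [if_pos h3, if_neg h4] at h1; omega
  · rw [if_neg h3, if_pos h4] at h1; omega
  · rw [if_neg h3, if_neg h4] at h1; omega

theorem ps_inj {a b : ℕ} (ha : a < bN l) (hb : b < bN l) (h : ps l τ W a = ps l τ W b) :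
    a = b := by
  refine mg_inj (τ := τ) (W := W) ha hb ?_
  unfold ps at h
  split_ifs at h <;> omega

theorem bt_opp {a b : ℕ} (h : sgn l τ W b = !sgn l τ W a) (ha : 0 < mg l τ W a)
    (hb : 0 < mg l τ W b) : Bt (ps l τ W) a 0 b := by
  have h0 : ps l τ W 0 = 0 := by
    have hB : 0 < bB l := by unfold bB bA; omega
    have : mg l τ W 0 = 0 := by
      unfold mg
      rw [if_pos hB]
      simp
    unfold ps
    rw [this]
    simp
  unfold Bt
  rw [h0]
  unfold ps
  rw [h]
  cases sgn l τ W a
  · left
    simp only [Bool.not_false, Bool.false_eq_true, if_false, if_true]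
    omega
  · right
    simp only [Bool.not_true, Bool.false_eq_true, if_false, if_true]
    omega

theorem mg_base {e : ℕ} (h : e < bB l) : mg l τ W e = e * sc l := by
  unfold mg; rw [if_pos h]

theorem sgn_base {e : ℕ} (h : e < bB l) : sgn l τ W e = vl l τ W e := by
  unfold sgn; rw [if_pos h]

theorem gadget {j i : ℕ} (hj : j < l.getD 1 0) (hi : i < 4) (hl : Ok5 l)
    (hn : nae (vl l τ W (gP l j i)) (vl l τ W (gQ l j i)) (vl l τ W (gR l j i)) = true) :
    Bt (ps l τ W) (gP l j i) (gY l j i) (gQ l j i) ∧ Bt (ps l τ W) (gY l j i) 0 (gR l j i) := by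
  have hcq := hl j hj i (by omega)
  have hc4 := hl j hj 4 (by omega)
  have hP : gP l j i < bB l ∧ 0 < gP l j i := by
    simp only [gP, bB, bA]
    split_ifs <;> omega
  have hQ : gQ l j i < bB l ∧ 0 < gQ l j i := by
    simp only [gQ, bB, bA]
    omega
  have hR : gR l j i < bB l ∧ 0 < gR l j i := by
    simp only [gR, bB, bA]
    split_ifs <;> omega
  have hPQ : gP l j i ≠ gQ l j i := by
    simp only [gP, gQ, bA]
    split_ifs <;> omega
  have hY : ¬ gY l j i < bB l := by simp only [gY]; omega
  have hy : gY l j i - bB l = 4 * j + i := by simp only [gY]; omega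
  have e1 : (4 * j + i) / 4 = j := by omega
  have e2 : (4 * j + i) % 4 = i := by omega
  have hlt : 4 * j + i + 1 < sc l := by unfold sc; omega
  have mY : mg l τ W (gY l j i) = (if ag l τ W (4 * j + i) then min (gP l j i) (gQ l j i) * sc l
      else 0) + (4 * j + i + 1) := by
    unfold mg
    rw [if_neg hY, hy, e1, e2]
    split_ifs <;> simp
  have sY : sgn l τ W (gY l j i) = if ag l τ W (4 * j + i) then vl l τ W (gP l j i) else
      !vl l τ W (gR l j i) := by
    unfold sgn
    rw [if_neg hY, hy, e1, e2]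
  have hag : ag l τ W (4 * j + i) = (vl l τ W (gP l j i) == vl l τ W (gQ l j i)) := by
    unfold ag
    rw [e1, e2]
  have mP := mg_base (τ := τ) (W := W) hP.1
  have mQ := mg_base (τ := τ) (W := W) hQ.1
  have mR := mg_base (τ := τ) (W := W) hR.1
  have sP := sgn_base (τ := τ) (W := W) hP.1
  have sQ := sgn_base (τ := τ) (W := W) hQ.1
  have sR := sgn_base (τ := τ) (W := W) hR.1
  have hmul : ∀ a b : ℕ, a < b → a * sc l + sc l ≤ b * sc l := by
    intro a b hab
    rw [← Nat.succ_mul]
    exact Nat.mul_le_mul_right _ hab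
  have hRpos : 0 < mg l τ W (gR l j i) := by
    rw [mR]
    have := hmul 0 _ hR.2
    omega
  have hYpos : 0 < mg l τ W (gY l j i) := by
    rw [mY]; omega
  have hp1 := hmul 0 _ hP.2
  have hq1 := hmul 0 _ hQ.2
  have hpq := hmul (gP l j i) (gQ l j i)
  have hqp := hmul (gQ l j i) (gP l j i)
  refine ⟨?_, ?_⟩
  · unfold Bt ps
    rw [sP, sQ, sY, mP, mQ, mY, hag]
    rcases Nat.lt_or_gt_of_ne hPQ with hlt' | hlt'
    · have hpq := hpq hlt'
      rw [Nat.min_eq_left hlt'.le]
      generalize gP l j i * sc l = x at *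
      generalize gQ l j i * sc l = z at *
      cases vl l τ W (gP l j i) <;> cases vl l τ W (gQ l j i) <;>
        cases vl l τ W (gR l j i) <;> simp <;> omega
    · have hqp := hqp hlt'
      rw [Nat.min_eq_right hlt'.le]
      generalize gP l j i * sc l = x at *
      generalize gQ l j i * sc l = z at *
      cases vl l τ W (gP l j i) <;> cases vl l τ W (gQ l j i) <;>
        cases vl l τ W (gR l j i) <;> simp <;> omega
  · refine bt_opp ?_ hYpos hRpos
    rw [sY, sR, hag]
    revert hn
    cases vl l τ W (gP l j i) <;> cases vl l τ W (gQ l j i) <;>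
      cases vl l τ W (gR l j i) <;> simp [nae]

theorem bt_of_sat (hl : Ok5 l) (h : Sat5 l) : ∃ f : ℕ → ℤ,
    (∀ a < bN l, ∀ b < bN l, f a = f b → a = b) ∧ ∀ t ∈ tri l, Bt f t.1 t.2.1 t.2.2 := by
  obtain ⟨τ, hτ⟩ := h
  have hex : ∀ j, ∃ w : ℕ → Bool, j < l.getD 1 0 →
      nae false (lit τ (cd5 l j 0)) (w 0) = true ∧ nae (!w 0) (lit τ (cd5 l j 1)) (w 1) = true ∧
      nae (!w 1) (lit τ (cd5 l j 2)) (w 2) = true ∧
      nae (!w 2) (lit τ (cd5 l j 3)) (lit τ (cd5 l j 4)) = true := by
    intro j
    by_cases hj : j < l.getD 1 0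
    · obtain ⟨i, hi, h⟩ := hτ j hj
      have h1 : (lit τ (cd5 l j 0) || lit τ (cd5 l j 1) || lit τ (cd5 l j 2) ||
          lit τ (cd5 l j 3) || lit τ (cd5 l j 4)) = true := by
        interval_cases i <;> simp [h]
      obtain ⟨w0, w1, w2, hw⟩ := (nae_chain _ _ _ _ _).1 h1
      exact ⟨fun i => if i = 0 then w0 else if i = 1 then w1 else w2, fun _ => hw⟩
    · exact ⟨fun _ => false, fun h => absurd h hj⟩
  choose W hW using hex
  refine ⟨ps l τ W, fun a ha b hb => ps_inj ha hb, fun t ht => ?_⟩
  have hvA : ∀ j i, i < 3 → vl l τ W (bA l + 2 * (3 * j + i)) = W j i := by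
    intro j i hi
    unfold vl
    rw [if_neg (by unfold bA; omega), if_neg (by omega), if_pos (by omega)]
    congr 1 <;> omega
  have hvA' : ∀ j i, i < 3 → vl l τ W (bA l + 2 * (3 * j + i) + 1) = !W j i := by
    intro j i hi
    unfold vl
    rw [if_neg (by unfold bA; omega), if_neg (by omega), if_neg (by omega)]
    congr 2 <;> omega
  have hvl : ∀ c < 2 * l.getD 0 0, vl l τ W (2 + c) = lit τ c := by
    intro c hc
    unfold vl
    rw [if_neg (by omega), if_pos (by unfold bA; omega)]
    congr 1
    omega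
  rcases (mem_tri l).1 ht with ⟨v, hv, rfl⟩ | ⟨u, hu, rfl⟩ | ⟨j, hj, i, hi, h⟩
  · have hb1 : 2 + 2 * v < bB l := by simp only [bB, bA]; omega
    have hb2 : 2 + 2 * v + 1 < bB l := by simp only [bB, bA]; omega
    have hs : 0 < sc l := by unfold sc; omega
    refine bt_opp ?_ ?_ ?_
    · simp only
      rw [sgn_base hb1, sgn_base hb2, Nat.add_assoc, hvl _ (by omega), hvl _ (by omega)]
      unfold lit
      have e1 : (2 * v + 1) / 2 = v := by omega
      have e2 : (2 * v) / 2 = v := by omega
      have e3 : (2 * v + 1) % 2 = 1 := by omega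
      have e4 : ¬ (2 * v) % 2 = 1 := by omega
      simp only [e1, e2, e3, e4]
      cases τ v <;> rfl
    · simp only
      rw [mg_base hb1]
      exact Nat.mul_pos (by omega) hs
    · simp only
      rw [mg_base hb2]
      exact Nat.mul_pos (by omega) hs
  · have hb1 : bA l + 2 * u < bB l := by simp only [bB]; omega
    have hb2 : bA l + 2 * u + 1 < bB l := by simp only [bB]; omega
    have hs : 0 < sc l := by unfold sc; omega
    have hA : 0 < bA l := by unfold bA; omega
    refine bt_opp ?_ ?_ ?_
    · simp only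
      rw [sgn_base hb1, sgn_base hb2]
      have h1 := hvA (u / 3) (u % 3) (by omega)
      have h2 := hvA' (u / 3) (u % 3) (by omega)
      have e : 3 * (u / 3) + u % 3 = u := by omega
      rw [e] at h1 h2
      rw [h1, h2]
    · simp only
      rw [mg_base hb1]
      exact Nat.mul_pos (by omega) hs
    · simp only
      rw [mg_base hb2]
      exact Nat.mul_pos (by omega) hs
  · have hw := hW j hj
    have hc := fun i hi => hvl _ (hl j hj i hi)
    have hg : nae (vl l τ W (gP l j i)) (vl l τ W (gQ l j i)) (vl l τ W (gR l j i)) = true := by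
      have hF : vl l τ W 1 = false := by unfold vl; rw [if_pos (by omega)]
      have hq0 := hc 0 (by omega)
      have hq1 := hc 1 (by omega)
      have hq2 := hc 2 (by omega)
      have hq3 := hc 3 (by omega)
      have hq4 := hc 4 (by omega)
      have ha0 := hvA j 0 (by omega)
      have ha1 := hvA j 1 (by omega)
      have ha2 := hvA j 2 (by omega)
      have hb0 := hvA' j 0 (by omega)
      have hb1 := hvA' j 1 (by omega)
      have hb2 := hvA' j 2 (by omega)
      interval_cases i
      · simp only [gP, gQ, gR, if_true, if_pos (show (0:ℕ) < 3 by omega)]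
        rw [hF, hq0, ha0]
        exact hw.1
      · simp only [gP, gQ, gR, if_neg (show ¬ (1:ℕ) = 0 by omega),
          if_pos (show (1:ℕ) < 3 by omega), Nat.sub_self]
        rw [hb0, hq1, ha1]
        exact hw.2.1
      · simp only [gP, gQ, gR, if_neg (show ¬ (2:ℕ) = 0 by omega),
          if_pos (show (2:ℕ) < 3 by omega), show 2 - 1 = 1 by omega]
        rw [hb1, hq2, ha2]
        exact hw.2.2.1
      · simp only [gP, gQ, gR, if_neg (show ¬ (3:ℕ) = 0 by omega),
          if_neg (show ¬ (3:ℕ) < 3 by omega), show 3 - 1 = 2 by omega]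
        rw [hb2, hq3, hq4]
        exact hw.2.2.2
    have := gadget hj hi hl hg
    rcases h with rfl | rfl
    · exact this.1
    · exact this.2

/-- the instance of a formula -/
def btI (l : List ℕ) (hl : Ok5 l) : BInst := mkB (bN l) (tri l) (tri_good hl)

theorem btI_sat (hl : Ok5 l) : (btI l hl).Sat ↔ Sat5 l := by
  unfold btI
  rw [mkB_sat]
  constructor
  · rintro ⟨f, _, hT⟩
    exact sat_of_bt hT hl
  · exact bt_of_sat hl

end

/-- number of variables -/
def xn : Ex := .inp (.con 0)

/-- number of clauses -/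
def xm : Ex := .inp (.con 1)

/-- start of the auxiliary literals -/
def xA : Ex := .add (.con 2) (.mul (.con 2) xn)

/-- start of the inner elements -/
def xB : Ex := .add xA (.mul (.con 6) xm)

/-- a literal of the clause given by the innermost loop -/
def xc (i : ℕ) : Ex := .inp (.add (.add (.con 2) (.con i)) (.mul (.con 5) (.var 0)))

/-- first element -/
def xP (i : ℕ) : Ex :=
  if i = 0 then .con 1
  else .add (.add xA (.mul (.con 2) (.add (.mul (.con 3) (.var 0)) (.con (i - 1))))) (.con 1)

/-- second element -/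
def xQ (i : ℕ) : Ex := .add (.con 2) (xc i)

/-- third element -/
def xR (i : ℕ) : Ex :=
  if i < 3 then .add xA (.mul (.con 2) (.add (.mul (.con 3) (.var 0)) (.con i)))
  else .add (.con 2) (xc 4)

/-- inner element -/
def xY (i : ℕ) : Ex := .add (.add xB (.mul (.con 4) (.var 0))) (.con i)

/-- a triple -/
def tr (a b c : Ex) : Lg := .seq (.el a) (.seq (.el b) (.el c))

/-- the generator of the instance -/
def btG : Lg :=
  .seq (.el (.add xB (.mul (.con 4) xm))) (.seq (.el (.add xn (.mul (.con 11) xm)))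
    (.seq (.loop xn (tr (.add (.con 2) (.mul (.con 2) (.var 0))) (.con 0)
        (.add (.add (.con 2) (.mul (.con 2) (.var 0))) (.con 1))))
      (.seq (.loop (.mul (.con 3) xm) (tr (.add xA (.mul (.con 2) (.var 0))) (.con 0)
          (.add (.add xA (.mul (.con 2) (.var 0))) (.con 1))))
        (.loop xm (.seq (tr (xP 0) (xY 0) (xQ 0)) (.seq (tr (xY 0) (.con 0) (xR 0))
          (.seq (tr (xP 1) (xY 1) (xQ 1)) (.seq (tr (xY 1) (.con 0) (xR 1))
            (.seq (tr (xP 2) (xY 2) (xQ 2)) (.seq (tr (xY 2) (.con 0) (xR 2))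
              (.seq (tr (xP 3) (xY 3) (xQ 3)) (tr (xY 3) (.con 0) (xR 3)))))))))))))

theorem flatMap_flatMap' {α β γ : Type} (L : List α) (f : α → List β) (g : β → List γ) :
    (L.flatMap f).flatMap g = L.flatMap (fun a => (f a).flatMap g) := by
  induction L with
  | nil => rfl
  | cons a L ih => simp [ih]

theorem btG_out (l : List ℕ) : btG.out l [] =
    bN l :: (tri l).length :: (tri l).flatMap (fun t => [t.1, t.2.1, t.2.2]) := by
  rw [tri_length]
  simp only [tri, List.flatMap_append, flatMap_flatMap', btG, Lg.out, tr, Ex.val,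
    List.cons_append, List.nil_append, clT, List.flatMap_cons, List.flatMap_nil,
    List.append_nil]
  rfl

theorem btG_nums {l : List ℕ} (hl : Ok5 l) : btG.out l [] = (btI l hl).nums := by
  unfold btI
  rw [mkB_nums, btG_out]

end Pool.Agent.H1.NP
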