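import Mathlib

/-!
Composition of polynomial-time machines of Mathlib's model.
-/

namespace Pool.Agent.H1.Comp

open Turing Function Polynomial

section

variable (M₁ M₂ : FinTM2) (conv : M₁.Γ M₁.k₁ → M₂.Γ M₂.k₀) (dflt : M₂.Γ M₂.k₀)

/-- stacks of the composed machine: those of both machines and an auxiliary one -/
abbrev CK : Type := Option (M₁.K ⊕ M₂.K)

/-- their alphabets -/
def CΓ : CK M₁ M₂ → Type
  | none => M₂.Γ M₂.k₀
  | some (.inl k) => M₁.Γ k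
  | some (.inr k) => M₂.Γ k

/-- labels: `false`, `true` for the two copying phases -/
abbrev CΛ : Type := Bool ⊕ (M₁.Λ ⊕ M₂.Λ)

/-- memory -/
abbrev Cσ : Type := M₁.σ × M₂.σ × Option (M₂.Γ M₂.k₀)

/-- statements of the first machine -/
def lift1 : TM2.Stmt M₁.Γ M₁.Λ M₁.σ → TM2.Stmt (CΓ M₁ M₂) (CΛ M₁ M₂) (Cσ M₁ M₂)
  | .push k f q => .push (some (.inl k)) (fun s => f s.1) (lift1 q)
  | .peek k f q => .peek (some (.inl k)) (fun s x => (f s.1 x, s.2)) (lift1 q)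
  | .pop k f q => .pop (some (.inl k)) (fun s x => (f s.1 x, s.2)) (lift1 q)
  | .load a q => .load (fun s => (a s.1, s.2)) (lift1 q)
  | .branch p q₁ q₂ => .branch (fun s => p s.1) (lift1 q₁) (lift1 q₂)
  | .goto f => .goto (fun s => .inr (.inl (f s.1)))
  | .halt => .goto (fun _ => .inl false)

/-- statements of the second machine -/
def lift2 : TM2.Stmt M₂.Γ M₂.Λ M₂.σ → TM2.Stmt (CΓ M₁ M₂) (CΛ M₁ M₂) (Cσ M₁ M₂)
  | .push k f q => .push (some (.inr k)) (fun s => f s.2.1) (lift2 q)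
  | .peek k f q => .peek (some (.inr k)) (fun s x => (s.1, f s.2.1 x, s.2.2)) (lift2 q)
  | .pop k f q => .pop (some (.inr k)) (fun s x => (s.1, f s.2.1 x, s.2.2)) (lift2 q)
  | .load a q => .load (fun s => (s.1, a s.2.1, s.2.2)) (lift2 q)
  | .branch p q₁ q₂ => .branch (fun s => p s.2.1) (lift2 q₁) (lift2 q₂)
  | .goto f => .goto (fun s => .inr (.inr (f s.2.1)))
  | .halt => .halt

/-- the program -/
def cm : CΛ M₁ M₂ → TM2.Stmt (CΓ M₁ M₂) (CΛ M₁ M₂) (Cσ M₁ M₂)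
  | .inl false => .pop (some (.inl M₁.k₁)) (fun s x => (s.1, s.2.1, x.map conv))
      (.branch (fun s => s.2.2.isSome)
        (.push none (fun s => s.2.2.getD dflt) (.goto fun _ => .inl false))
        (.goto fun _ => .inl true))
  | .inl true => .pop none (fun s x => (s.1, s.2.1, x))
      (.branch (fun s => s.2.2.isSome)
        (.push (some (.inr M₂.k₀)) (fun s => s.2.2.getD dflt) (.goto fun _ => .inl true))
        (.goto fun _ => .inr (.inr M₂.main)))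
  | .inr (.inl l) => lift1 M₁ M₂ (M₁.m l)
  | .inr (.inr l) => lift2 M₁ M₂ (M₂.m l)

variable {M₁ M₂}

/-- joint stacks -/
def J (S₁ : ∀ k, List (M₁.Γ k)) (S₂ : ∀ k, List (M₂.Γ k)) (T : List (M₂.Γ M₂.k₀)) :
    ∀ k : CK M₁ M₂, List (CΓ M₁ M₂ k)
  | none => T
  | some (.inl k) => S₁ k
  | some (.inr k) => S₂ k

theorem J_inl (S₁ : ∀ k, List (M₁.Γ k)) (S₂ : ∀ k, List (M₂.Γ k)) (T : List (M₂.Γ M₂.k₀))
    (k : M₁.K) (x : List (M₁.Γ k)) :
    update (J S₁ S₂ T) (some (.inl k)) x = J (update S₁ k x) S₂ T := by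
  funext k'
  rcases k' with _ | (k' | k')
  · rfl
  · by_cases h : k' = k
    · subst h
      simp [J]
    · rw [update_of_ne (by simpa using h)]
      simp [J, update_of_ne h]
  · rfl

theorem J_inr (S₁ : ∀ k, List (M₁.Γ k)) (S₂ : ∀ k, List (M₂.Γ k)) (T : List (M₂.Γ M₂.k₀))
    (k : M₂.K) (x : List (M₂.Γ k)) :
    update (J S₁ S₂ T) (some (.inr k)) x = J S₁ (update S₂ k x) T := by
  funext k'
  rcases k' with _ | (k' | k')
  · rfl
  · rfl
  · by_cases h : k' = k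
    · subst h
      simp [J]
    · rw [update_of_ne (by simpa using h)]
      simp [J, update_of_ne h]

theorem J_none (S₁ : ∀ k, List (M₁.Γ k)) (S₂ : ∀ k, List (M₂.Γ k)) (T : List (M₂.Γ M₂.k₀))
    (x : List (M₂.Γ M₂.k₀)) :
    update (J S₁ S₂ T) none x = J S₁ S₂ x := by
  funext k'
  rcases k' with _ | (k' | k')
  · exact update_self _ _ _
  · exact update_of_ne (by simp) _ _
  · exact update_of_ne (by simp) _ _

/-- label map of the first machine -/
def l1 : Option M₁.Λ → Option (CΛ M₁ M₂)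
  | some l => some (.inr (.inl l))
  | none => some (.inl false)

/-- label map of the second machine -/
def l2 : Option M₂.Λ → Option (CΛ M₁ M₂)
  | some l => some (.inr (.inr l))
  | none => none

theorem aux1 (q : TM2.Stmt M₁.Γ M₁.Λ M₁.σ) : ∀ (v : M₁.σ) (r : M₂.σ × Option (M₂.Γ M₂.k₀))
    (S₁ : ∀ k, List (M₁.Γ k)) (S₂ : ∀ k, List (M₂.Γ k)) (T : List (M₂.Γ M₂.k₀)),
    TM2.stepAux (lift1 M₁ M₂ q) (v, r) (J S₁ S₂ T) =
      ⟨l1 (TM2.stepAux q v S₁).l, ((TM2.stepAux q v S₁).var, r),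
        J (TM2.stepAux q v S₁).stk S₂ T⟩ := by
  induction q with
  | push k f q ih =>
    intro v r S₁ S₂ T
    simp only [lift1, TM2.stepAux, J_inl]
    exact ih _ _ _ _ _
  | peek k f q ih =>
    intro v r S₁ S₂ T
    simp only [lift1, TM2.stepAux]
    exact ih _ _ _ _ _
  | pop k f q ih =>
    intro v r S₁ S₂ T
    simp only [lift1, TM2.stepAux, J_inl]
    exact ih _ _ _ _ _
  | load a q ih =>
    intro v r S₁ S₂ T
    simp only [lift1, TM2.stepAux]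
    exact ih _ _ _ _ _
  | branch p q₁ q₂ ih₁ ih₂ =>
    intro v r S₁ S₂ T
    simp only [lift1, TM2.stepAux]
    cases p v
    · exact ih₂ _ _ _ _ _
    · exact ih₁ _ _ _ _ _
  | goto f => intro v r S₁ S₂ T; rfl
  | halt => intro v r S₁ S₂ T; rfl

theorem aux2 (q : TM2.Stmt M₂.Γ M₂.Λ M₂.σ) : ∀ (u : M₁.σ) (v : M₂.σ)
    (r : Option (M₂.Γ M₂.k₀))
    (S₁ : ∀ k, List (M₁.Γ k)) (S₂ : ∀ k, List (M₂.Γ k)) (T : List (M₂.Γ M₂.k₀)),
    TM2.stepAux (lift2 M₁ M₂ q) (u, v, r) (J S₁ S₂ T) =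
      ⟨l2 (TM2.stepAux q v S₂).l, (u, (TM2.stepAux q v S₂).var, r),
        J S₁ (TM2.stepAux q v S₂).stk T⟩ := by
  induction q with
  | push k f q ih =>
    intro u v r S₁ S₂ T
    simp only [lift2, TM2.stepAux, J_inr]
    exact ih _ _ _ _ _ _
  | peek k f q ih =>
    intro u v r S₁ S₂ T
    simp only [lift2, TM2.stepAux]
    exact ih _ _ _ _ _ _
  | pop k f q ih =>
    intro u v r S₁ S₂ T
    simp only [lift2, TM2.stepAux, J_inr]
    exact ih _ _ _ _ _ _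
  | load a q ih =>
    intro u v r S₁ S₂ T
    simp only [lift2, TM2.stepAux]
    exact ih _ _ _ _ _ _
  | branch p q₁ q₂ ih₁ ih₂ =>
    intro u v r S₁ S₂ T
    simp only [lift2, TM2.stepAux]
    cases p v
    · exact ih₂ _ _ _ _ _ _
    · exact ih₁ _ _ _ _ _ _
  | goto f => intro u v r S₁ S₂ T; rfl
  | halt => intro u v r S₁ S₂ T; rfl

/-- iterated steps -/
abbrev its {K : Type} [DecidableEq K] {Γ : K → Type} {Λ σ : Type}
    (M : Λ → TM2.Stmt Γ Λ σ) (n : ℕ) (a : Option (TM2.Cfg Γ Λ σ)) :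
    Option (TM2.Cfg Γ Λ σ) := (flip bind (TM2.step M))^[n] a

theorem its_add {K : Type} [DecidableEq K] {Γ : K → Type} {Λ σ : Type}
    {M : Λ → TM2.Stmt Γ Λ σ} {n m : ℕ} {a b c : Option (TM2.Cfg Γ Λ σ)}
    (h1 : its M n a = b) (h2 : its M m b = c) : its M (n + m) a = c := by
  unfold its at *
  rw [Nat.add_comm, Function.iterate_add_apply, h1, h2]

theorem its_none {K : Type} [DecidableEq K] {Γ : K → Type} {Λ σ : Type}
    (M : Λ → TM2.Stmt Γ Λ σ) (n : ℕ) : its M n none = none := by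
  induction n with
  | zero => rfl
  | succ n ih =>
    unfold its at *
    rw [Function.iterate_succ_apply]; exact ih

theorem its_succ {K : Type} [DecidableEq K] {Γ : K → Type} {Λ σ : Type}
    (M : Λ → TM2.Stmt Γ Λ σ) (n : ℕ) (a : TM2.Cfg Γ Λ σ) :
    its M (n + 1) (some a) = its M n (TM2.step M a) := by
  unfold its
  rw [Function.iterate_succ_apply]
  rfl

theorem sim1 (r : M₂.σ × Option (M₂.Γ M₂.k₀)) (S₂ : ∀ k, List (M₂.Γ k))
    (T : List (M₂.Γ M₂.k₀)) : ∀ (n : ℕ) (c c' : TM2.Cfg M₁.Γ M₁.Λ M₁.σ),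
    its M₁.m n (some c) = some c' →
    its (cm M₁ M₂ conv dflt) n (some ⟨l1 c.l, (c.var, r), J c.stk S₂ T⟩) =
      some ⟨l1 c'.l, (c'.var, r), J c'.stk S₂ T⟩ := by
  intro n
  induction n with
  | zero =>
    intro c c' h
    have : c = c' := by simpa [its] using h
    subst this
    rfl
  | succ n ih =>
    intro c c' h
    rw [its_succ] at h ⊢
    obtain ⟨l, v, S⟩ := c
    cases l with
    | none =>
      have h' : its M₁.m n none = some c' := h
      rw [its_none] at h'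
      cases h'
    | some l =>
      have h' : its M₁.m n (some (TM2.stepAux (M₁.m l) v S)) = some c' := h
      have h2 := ih _ _ h'
      have e : TM2.step (cm M₁ M₂ conv dflt) ⟨l1 (some l), (v, r), J S S₂ T⟩ =
          some (TM2.stepAux (lift1 M₁ M₂ (M₁.m l)) (v, r) (J S S₂ T)) := rfl
      simp only
      rw [e, aux1]
      exact h2

theorem sim2 (u : M₁.σ) (r : Option (M₂.Γ M₂.k₀)) (S₁ : ∀ k, List (M₁.Γ k))
    (T : List (M₂.Γ M₂.k₀)) : ∀ (n : ℕ) (c c' : TM2.Cfg M₂.Γ M₂.Λ M₂.σ),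
    its M₂.m n (some c) = some c' →
    its (cm M₁ M₂ conv dflt) n (some ⟨l2 c.l, (u, c.var, r), J S₁ c.stk T⟩) =
      some ⟨l2 c'.l, (u, c'.var, r), J S₁ c'.stk T⟩ := by
  intro n
  induction n with
  | zero =>
    intro c c' h
    have : c = c' := by simpa [its] using h
    subst this
    rfl
  | succ n ih =>
    intro c c' h
    rw [its_succ] at h ⊢
    obtain ⟨l, v, S⟩ := c
    cases l with
    | none =>
      have h' : its M₂.m n none = some c' := h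
      rw [its_none] at h'
      cases h'
    | some l =>
      have h' : its M₂.m n (some (TM2.stepAux (M₂.m l) v S)) = some c' := h
      have h2 := ih _ _ h'
      have e : TM2.step (cm M₁ M₂ conv dflt) ⟨l2 (some l), (u, v, r), J S₁ S T⟩ =
          some (TM2.stepAux (lift2 M₁ M₂ (M₂.m l)) (u, v, r) (J S₁ S T)) := rfl
      simp only
      rw [e, aux2]
      exact h2

/-- result of one step of the first copying phase -/
def res1 (u : M₁.σ) (v : M₂.σ) (S₁ : ∀ k, List (M₁.Γ k)) (S₂ : ∀ k, List (M₂.Γ k))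
    (T : List (M₂.Γ M₂.k₀)) (o : Option (M₁.Γ M₁.k₁)) (tl : List (M₁.Γ M₁.k₁)) :
    TM2.Cfg (CΓ M₁ M₂) (CΛ M₁ M₂) (Cσ M₁ M₂) :=
  cond (o.map conv).isSome
    ⟨some (.inl false), (u, v, o.map conv), update (update (J S₁ S₂ T) (some (.inl M₁.k₁)) tl)
      none ((o.map conv).getD dflt :: (update (J S₁ S₂ T) (some (.inl M₁.k₁)) tl) none)⟩
    ⟨some (.inl true), (u, v, o.map conv), update (J S₁ S₂ T) (some (.inl M₁.k₁)) tl⟩

theorem res1_some (u : M₁.σ) (v : M₂.σ) (S₁ : ∀ k, List (M₁.Γ k)) (S₂ : ∀ k, List (M₂.Γ k))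
    (T : List (M₂.Γ M₂.k₀)) (x : M₁.Γ M₁.k₁) (tl : List (M₁.Γ M₁.k₁)) :
    res1 conv dflt u v S₁ S₂ T (some x) tl =
      ⟨some (.inl false), (u, v, some (conv x)), J (update S₁ M₁.k₁ tl) S₂ (conv x :: T)⟩ := by
  have h1 : update (J S₁ S₂ T) (some (.inl M₁.k₁)) tl = J (update S₁ M₁.k₁ tl) S₂ T :=
    J_inl _ _ _ _ _
  change (⟨_, _, update (update (J S₁ S₂ T) (some (.inl M₁.k₁)) tl) none (conv x ::
    (update (J S₁ S₂ T) (some (.inl M₁.k₁)) tl) none)⟩ :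
      TM2.Cfg (CΓ M₁ M₂) (CΛ M₁ M₂) (Cσ M₁ M₂)) = _
  rw [h1]
  congr 1
  exact J_none _ _ _ _

theorem res1_none (u : M₁.σ) (v : M₂.σ) (S₁ : ∀ k, List (M₁.Γ k)) (S₂ : ∀ k, List (M₂.Γ k))
    (T : List (M₂.Γ M₂.k₀)) (tl : List (M₁.Γ M₁.k₁)) :
    res1 conv dflt u v S₁ S₂ T none tl =
      ⟨some (.inl true), (u, v, none), J (update S₁ M₁.k₁ tl) S₂ T⟩ := by
  have h1 : update (J S₁ S₂ T) (some (.inl M₁.k₁)) tl = J (update S₁ M₁.k₁ tl) S₂ T :=
    J_inl _ _ _ _ _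
  rw [← h1]
  rfl

theorem step1 (u : M₁.σ) (v : M₂.σ) (r : Option (M₂.Γ M₂.k₀)) (S₁ : ∀ k, List (M₁.Γ k))
    (S₂ : ∀ k, List (M₂.Γ k)) (T : List (M₂.Γ M₂.k₀)) :
    TM2.step (cm M₁ M₂ conv dflt) ⟨some (.inl false), (u, v, r), J S₁ S₂ T⟩ =
      some (res1 conv dflt u v S₁ S₂ T (S₁ M₁.k₁).head? (S₁ M₁.k₁).tail) := rfl

/-- first copying phase -/
theorem copy1 (u : M₁.σ) (v : M₂.σ) (S₂ : ∀ k, List (M₂.Γ k)) : ∀ (s : List (M₁.Γ M₁.k₁))
    (r : Option (M₂.Γ M₂.k₀)) (T : List (M₂.Γ M₂.k₀)),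
    its (cm M₁ M₂ conv dflt) (s.length + 1)
      (some ⟨some (.inl false), (u, v, r), J (update (fun _ => []) M₁.k₁ s) S₂ T⟩) =
      some ⟨some (.inl true), (u, v, none), J (fun _ => []) S₂ ((s.map conv).reverse ++ T)⟩ := by
  intro s
  induction s with
  | nil =>
    intro r T
    have e0 : update (fun _ => []) M₁.k₁ ([] : List (M₁.Γ M₁.k₁)) =
        (fun k => ([] : List (M₁.Γ k))) := by
      funext k
      by_cases h : k = M₁.k₁
      · subst h; simp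
      · simp [update_of_ne h]
    rw [e0]
    change its (cm M₁ M₂ conv dflt) 1 _ = _
    rw [its_succ, step1]
    change some (res1 conv dflt u v (fun _ => []) S₂ T none []) = _
    rw [res1_none, e0]
    rfl
  | cons x s ih =>
    intro r T
    rw [List.length_cons, its_succ, step1, update_self]
    change its (cm M₁ M₂ conv dflt) (s.length + 1)
      (some (res1 conv dflt u v (update (fun _ => []) M₁.k₁ (x :: s)) S₂ T (some x) s)) = _
    rw [res1_some, update_idem, ih]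
    simp

/-- result of one step of the second copying phase -/
def res2 (u : M₁.σ) (v : M₂.σ) (S₁ : ∀ k, List (M₁.Γ k)) (S₂ : ∀ k, List (M₂.Γ k))
    (T : List (M₂.Γ M₂.k₀)) (o : Option (M₂.Γ M₂.k₀)) (tl : List (M₂.Γ M₂.k₀)) :
    TM2.Cfg (CΓ M₁ M₂) (CΛ M₁ M₂) (Cσ M₁ M₂) :=
  cond o.isSome
    ⟨some (.inl true), (u, v, o), update (update (J S₁ S₂ T) none tl)
      (some (.inr M₂.k₀)) (o.getD dflt :: (update (J S₁ S₂ T) none tl) (some (.inr M₂.k₀)))⟩
    ⟨some (.inr (.inr M₂.main)), (u, v, o), update (J S₁ S₂ T) none tl⟩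

theorem res2_some (u : M₁.σ) (v : M₂.σ) (S₁ : ∀ k, List (M₁.Γ k)) (S₂ : ∀ k, List (M₂.Γ k))
    (T : List (M₂.Γ M₂.k₀)) (x : M₂.Γ M₂.k₀) (tl : List (M₂.Γ M₂.k₀)) :
    res2 dflt u v S₁ S₂ T (some x) tl =
      ⟨some (.inl true), (u, v, some x), J S₁ (update S₂ M₂.k₀ (x :: S₂ M₂.k₀)) tl⟩ := by
  have h1 : update (J S₁ S₂ T) none tl = J S₁ S₂ tl := J_none _ _ _ _
  change (⟨_, _, update (update (J S₁ S₂ T) none tl) (some (.inr M₂.k₀)) (x ::
    (update (J S₁ S₂ T) none tl) (some (.inr M₂.k₀)))⟩ :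
      TM2.Cfg (CΓ M₁ M₂) (CΛ M₁ M₂) (Cσ M₁ M₂)) = _
  rw [h1]
  congr 1
  exact J_inr _ _ _ _ _

theorem res2_none (u : M₁.σ) (v : M₂.σ) (S₁ : ∀ k, List (M₁.Γ k)) (S₂ : ∀ k, List (M₂.Γ k))
    (T : List (M₂.Γ M₂.k₀)) (tl : List (M₂.Γ M₂.k₀)) :
    res2 dflt u v S₁ S₂ T none tl =
      ⟨some (.inr (.inr M₂.main)), (u, v, none), J S₁ S₂ tl⟩ := by
  have h1 : update (J S₁ S₂ T) none tl = J S₁ S₂ tl := J_none _ _ _ _
  rw [← h1]
  rfl

theorem step2 (u : M₁.σ) (v : M₂.σ) (r : Option (M₂.Γ M₂.k₀)) (S₁ : ∀ k, List (M₁.Γ k))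
    (S₂ : ∀ k, List (M₂.Γ k)) (T : List (M₂.Γ M₂.k₀)) :
    TM2.step (cm M₁ M₂ conv dflt) ⟨some (.inl true), (u, v, r), J S₁ S₂ T⟩ =
      some (res2 dflt u v S₁ S₂ T T.head? T.tail) := rfl

/-- second copying phase -/
theorem copy2 (u : M₁.σ) (v : M₂.σ) (S₁ : ∀ k, List (M₁.Γ k)) : ∀ (T : List (M₂.Γ M₂.k₀))
    (r : Option (M₂.Γ M₂.k₀)) (s : List (M₂.Γ M₂.k₀)),
    its (cm M₁ M₂ conv dflt) (T.length + 1)
      (some ⟨some (.inl true), (u, v, r), J S₁ (update (fun _ => []) M₂.k₀ s) T⟩) =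
      some ⟨some (.inr (.inr M₂.main)), (u, v, none),
        J S₁ (update (fun _ => []) M₂.k₀ (T.reverse ++ s)) []⟩ := by
  intro T
  induction T with
  | nil =>
    intro r s
    change its (cm M₁ M₂ conv dflt) 1 _ = _
    rw [its_succ, step2]
    change some (res2 dflt u v S₁ (update (fun _ => []) M₂.k₀ s) [] none []) = _
    rw [res2_none]
    rfl
  | cons x T ih =>
    intro r s
    rw [List.length_cons, its_succ, step2]
    change its (cm M₁ M₂ conv dflt) (T.length + 1)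
      (some (res2 dflt u v S₁ (update (fun _ => []) M₂.k₀ s) (x :: T) (some x) T)) = _
    rw [res2_some, update_self, update_idem, ih]
    simp

end

end Pool.Agent.H1.Comp
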