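import Pool.Agent.H1.NP.Tab2
import Pool.Agent.H1.NP.Small
import Pool.Agent.H1.NP.Btw2

/-!
Every language in NP reduces in polynomial time to satisfiability of formulas with clauses of five
literals, to Betweenness and to outer quasi-planarity.
-/

namespace Pool.Agent.H1.NP

open Pool.Agent.H68.OQP Polynomial Turing Function

/-- `L` is in NP: there are a polynomial `p` and a polynomial-time verifier `V` such that `x` is in
`L` exactly when `V` accepts `(x, y)` for some `y` of length at most `p (|x|)` -/
def InNP (L : Set (List Bool)) : Prop :=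
  ∃ (p : ℕ[X]) (V : List Bool × List Bool → Bool),
    Nonempty (TM2ComputableInPolyTime encPair (fun b : Bool => [b]) V) ∧
    ∀ x, x ∈ L ↔ ∃ y : List Bool, y.length ≤ p.eval x.length ∧ V (x, y) = true

/-- powers of the input length -/
def powE : ℕ → Ex
  | 0 => .con 1
  | n + 1 => .mul (powE n) xl

theorem powE_val (n : ℕ) (l env : List ℕ) : (powE n).val l env = (l.getD 0 0) ^ n := by
  induction n with
  | zero => rfl
  | succ n ih =>
    rw [pow_succ, ← ih]
    rfl

theorem exPoly (p : ℕ[X]) : ∃ e : Ex, ∀ l env : List ℕ, e.val l env = p.eval (l.getD 0 0) := by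
  induction p using Polynomial.induction_on' with
  | add p q hp hq =>
    obtain ⟨a, ha⟩ := hp
    obtain ⟨b, hb⟩ := hq
    refine ⟨.add a b, fun l env => ?_⟩
    rw [eval_add, ← ha l env, ← hb l env]
    rfl
  | monomial n c =>
    refine ⟨.mul (.con c) (powE n), fun l env => ?_⟩
    rw [eval_monomial, ← powE_val n l env]
    rfl

section machine

variable (tm : FinTM2)

/-- cell of the first row with input symbol `o` -/
def cell0 (o : Option (tm.Γ tm.k₀)) : RC tm.Γ tm.Λ tm.σ :=
  ((some (tm.m tm.main), tm.initialState), update (fun _ => none) tm.k₀ o)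

theorem initList_eq (s : List (tm.Γ tm.k₀)) : initList tm s =
    ⟨some tm.main, tm.initialState, update (fun _ => []) tm.k₀ s⟩ := by
  unfold initList
  congr 1
  funext k
  by_cases hk : k = tm.k₀
  · subst hk
    simp
  · rw [update_of_ne hk]
    exact dif_neg hk

theorem haltList_k₁ (s : List (tm.Γ tm.k₁)) : (haltList tm s).stk tm.k₁ = s := by
  unfold haltList
  simp

theorem cell0_mem (o : Option (tm.Γ tm.k₀)) : cell0 tm o ∈ cells tm.m tm.k₀ := by
  refine ⟨ctl_main _ _, fun k s hs => ?_⟩
  by_cases hk : k = tm.k₀
  · exact Or.inl hk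
  · simp only [cell0, update_of_ne hk] at hs
    cases hs

theorem row_init (s : List (tm.Γ tm.k₀)) (i : ℕ) :
    row (emb tm.m (initList tm s)) i = cell0 tm (s[i]?) := by
  rw [initList_eq]
  refine Prod.ext rfl ?_
  funext k
  simp only [row, emb, cell0]
  by_cases hk : k = tm.k₀
  · subst hk
    simp
  · rw [update_of_ne hk, update_of_ne hk]
    rfl

end machine

theorem cookLevin {L : Set (List Bool)} (hL : InNP L) : ∃ F : List Bool → List ℕ,
    PolyOn (fun w => w) unary F ∧ (∀ x, Ok5 (F x)) ∧ ∀ x, x ∈ L ↔ Sat5 (F x) := by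
  classical
  obtain ⟨p, V, ⟨h⟩, hV⟩ := hL
  set tm := h.tm with htm
  haveI : Fintype tm.Λ := tm.ΛFin
  haveI : Fintype tm.σ := tm.σFin
  haveI : Fintype (tm.Γ tm.k₀) := tm.Γk₀Fin
  haveI : Fintype tm.K := tm.kFin
  haveI : Nonempty (RC tm.Γ tm.Λ tm.σ) := ⟨cell0 tm none⟩
  obtain ⟨s, e, d, hed, hde⟩ := exists_numbering (cells_finite tm.m tm.k₀)
  let cellOf : Option (Option Bool) → RC tm.Γ tm.Λ tm.σ :=
    fun o => cell0 tm (o.map h.inputAlphabet.invFun)
  let Z : RS :=
    { s := s
      F0 := fun a b => e (rF tm.m (d a) none (d a) (d b))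
      F1 := fun a b c f => e (rF tm.m (d a) (some (d b)) (d c) (d f))
      sy := fun o => e (cellOf o)
      acc := fun a => decide ((d a).2 tm.k₁ = some (h.outputAlphabet.invFun true))
      hF0 := fun a b ha hb => (hed _ (rF_mem _ (hde a ha).1 (by intro b hb; cases hb)
        (hde a ha).1 (hde b hb).1)).1
      hF1 := fun a b c f ha hb hc hf => (hed _ (rF_mem _ (hde a ha).1 (by
        intro b' hb'
        obtain rfl : d b = b' := by simpa using hb'
        exact (hde b hb).1) (hde c hc).1 (hde f hf).1)).1
      hsy := fun o => (hed _ (cell0_mem tm _)).1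
      hne := fun b hcon => by
        have h1 := (hed _ (cell0_mem tm ((some (some b)).map h.inputAlphabet.invFun))).2
        have h2 := (hed _ (cell0_mem tm
          ((none : Option (Option Bool)).map h.inputAlphabet.invFun))).2
        have h3 : e (cell0 tm ((some (some b)).map h.inputAlphabet.invFun)) =
          e (cell0 tm ((none : Option (Option Bool)).map h.inputAlphabet.invFun)) := hcon
        rw [h3] at h1
        have h4 := congrArg (fun c : RC tm.Γ tm.Λ tm.σ => c.2 tm.k₀) (h1.symm.trans h2)
        simp [cell0] at h4 }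
  let c0 : List Bool → List Bool → SC tm.Γ tm.Λ tm.σ := fun x y =>
    emb tm.m (initList tm ((encPair (x, y)).map h.inputAlphabet.invFun))
  have hc0 : ∀ x y i, row (c0 x y) i = cellOf ((encPair (x, y))[i]?) := by
    intro x y i
    simp only [c0, cellOf]
    rw [row_init, List.getElem?_map]
  have hmem : ∀ x y t i, row ((sstep tm.m)^[t] (c0 x y)) i ∈ cells tm.m tm.k₀ := by
    intro x y t
    induction t with
    | zero =>
      intro i
      rw [Function.iterate_zero, id, hc0]
      exact cell0_mem tm _
    | succ t ih =>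
      intro i
      rw [Function.iterate_succ_apply']
      cases i with
      | zero =>
        rw [row_zero]
        exact rF_mem _ (ih 0) (by intro b hb; cases hb) (ih 0) (ih 1)
      | succ i =>
        rw [row_succ]
        exact rF_mem _ (ih 0) (by
          intro b hb
          obtain rfl : row ((sstep tm.m)^[t] (c0 x y)) i = b := by simpa using hb
          exact ih i) (ih (i + 1)) (ih (i + 2))
  have hR : ∀ x y t i, Z.R x y t i = e (row ((sstep tm.m)^[t] (c0 x y)) i) := by
    intro x y t
    induction t with
    | zero =>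
      intro i
      rw [Function.iterate_zero, id, hc0]
      rfl
    | succ t ih =>
      intro i
      rw [Function.iterate_succ_apply']
      have hd := fun i => (hed _ (hmem x y t i)).2
      cases i with
      | zero =>
        rw [row_zero]
        change e (rF tm.m (d (Z.R x y t 0)) none (d (Z.R x y t 0)) (d (Z.R x y t 1))) = _
        rw [ih 0, ih 1, hd, hd]
      | succ i =>
        rw [row_succ]
        change e (rF tm.m (d (Z.R x y t 0)) (some (d (Z.R x y t i))) (d (Z.R x y t (i + 1)))
          (d (Z.R x y t (i + 2)))) = _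
        rw [ih 0, ih i, ih (i + 1), ih (i + 2), hd, hd, hd, hd]
  -- bounds
  set D : ℕ := Finset.univ.sup (fun q : tm.Λ => dep (tm.m q)) with hD
  have hDb : ∀ q, dep (tm.m q) ≤ D := fun q =>
    Finset.le_sup (f := fun q : tm.Λ => dep (tm.m q)) (Finset.mem_univ q)
  obtain ⟨xP, hxP⟩ := exPoly p
  obtain ⟨xT', hxT'⟩ := exPoly ((h.time.comp (.X + 1 + p)) * C D)
  let P : List Bool → ℕ := fun x => p.eval x.length
  let T' : List Bool → ℕ := fun x => h.time.eval (x.length + 1 + P x) * D
  have hP : ∀ x env, xP.val (bits x) env = P x := fun x env => hxP _ _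
  have hT' : ∀ x env, xT'.val (bits x) env = T' x := by
    intro x env
    rw [hxT']
    simp only [eval_mul, eval_comp, eval_add, eval_X, eval_one, eval_C]
    rfl
  refine ⟨fun x => (tabG Z xP xT').out (bits x) [],
    polyOn_raw.comp (polyOn_lg (tabG Z xP xT')), ?_, ?_⟩
  · intro x
    simp only
    rw [tabG_out Z x (P x) (T' x) xP xT' (hP x) (hT' x)]
    exact frm_ok _ _ _ _
  · intro x
    simp only
    rw [tabG_out Z x (P x) (T' x) xP xT' (hP x) (hT' x), frm_sat, hV]
    refine exists_congr fun y => and_congr_right fun hy => ?_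
    rw [hR]
    have hrun := h.outputsFun (x, y)
    have h1 : (flip bind (TM2.step tm.m))^[hrun.steps]
        (some (initList tm ((encPair (x, y)).map h.inputAlphabet.invFun))) =
        some (haltList tm ([V (x, y)].map h.outputAlphabet.invFun)) := hrun.evals_in_steps
    have h2 : hrun.steps ≤ h.time.eval (encPair (x, y)).length := hrun.steps_le_m
    have hlen : (encPair (x, y)).length = x.length + 1 + y.length := by
      simp only [encPair, List.length_append, List.length_cons, List.length_map]
      omega
    have h3 : hrun.steps * D ≤ tT x (P x) (T' x) := by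
      have h4 : h.time.eval (encPair (x, y)).length ≤ h.time.eval (x.length + 1 + P x) := by
        refine eval_mono_nat _ ?_
        rw [hlen]
        have : y.length ≤ P x := hy
        omega
      have h5 : hrun.steps * D ≤ h.time.eval (x.length + 1 + P x) * D :=
        Nat.mul_le_mul_right _ (h2.trans h4)
      have h6 : tT x (P x) (T' x) = x.length + 1 + P x +
        h.time.eval (x.length + 1 + P x) * D := rfl
      omega
    have h7 := sstep_final tm.m hDb h1 rfl h3
    have h8 : (sstep tm.m)^[tT x (P x) (T' x)] (c0 x y) =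
      emb tm.m (haltList tm ([V (x, y)].map h.outputAlphabet.invFun)) := h7
    rw [h8]
    change (V (x, y) = true) ↔ decide ((d (e (row (emb tm.m (haltList tm
      ([V (x, y)].map h.outputAlphabet.invFun))) 0))).2 tm.k₁ =
        some (h.outputAlphabet.invFun true)) = true
    have h9 := (hed _ (hmem x y (tT x (P x) (T' x)) 0)).2
    rw [h8] at h9
    rw [h9, decide_eq_true_iff]
    have h10 : (row (emb tm.m (haltList tm ([V (x, y)].map h.outputAlphabet.invFun))) 0).2
        tm.k₁ = some (h.outputAlphabet.invFun (V (x, y))) := by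
      simp only [row, emb]
      rw [haltList_k₁]
      rfl
    rw [h10]
    constructor
    · intro hv
      rw [hv]
    · intro hv
      injection hv with hv
      exact h.outputAlphabet.symm.injective hv

/-- every language in NP reduces to Betweenness -/
theorem np_betweenness {L : Set (List Bool)} (hL : InNP L) : ∃ B : List Bool → BInst,
    PolyOn (fun w => w) encB B ∧ ∀ x, x ∈ L ↔ (B x).Sat := by
  obtain ⟨F, hF, hok, hsat⟩ := cookLevin hL
  refine ⟨fun x => btI (F x) (hok x), ?_, ?_⟩
  · refine (hF.comp (polyOn_lg btG)).congr (fun x => x) (fun _ => rfl) (fun x => ?_)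
    rw [btG_nums (hok x)]
    rfl
  · intro x
    rw [btI_sat]
    exact hsat x

theorem polyOn_red (w : ℕ) : PolyOn encB encG (red w) :=
  (polyOn_gen _).congr BInst.nums (fun _ => rfl) (fun I => (red_enc w I).symm)

/-- every language in NP reduces to the recognition of outer `(w+4)`-quasi-planar graphs -/
theorem np_outerQP (w : ℕ) {L : Set (List Bool)} (hL : InNP L) :
    ∃ f : List Bool → ℕ × List (ℕ × ℕ),
      Nonempty (TM2ComputableInPolyTime (fun w : List Bool => w) encG f) ∧
      ∀ x, x ∈ L ↔ OuterQP (w + 4) (graphOf (f x)) := by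
  obtain ⟨B, hB, hsat⟩ := np_betweenness hL
  refine ⟨fun x => red w (B x), (hB.comp (polyOn_red w)).tm, fun x => ?_⟩
  rw [hsat, red_correct w]

end Pool.Agent.H1.NP
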