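import Pool.Agent.H1.NP.PTab2
import Pool.Agent.H1.NP.CookLevin

/-!
Cook-Levin for the class NP of the Prelude; many-one reductions in the sense of the Prelude.
-/

namespace Pool.Agent.H1.PNP

open Pool.Agent.H1.NP Pool.Agent.H68.OQP Polynomial Turing Function Pool.Agent.H1.Gen
  Pool.Agent.H70.TM

/-- every language in NP reduces to satisfiability of formulas with clauses of five literals -/
theorem cookLevin {L : N68a2faeb.DecisionProblem} (hL : L ∈ N68a2faeb.NP) :
    ∃ F : List Bool → List ℕ, PolyOn (fun w => w) unary F ∧ (∀ x, Ok5 (F x)) ∧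
      ∀ x, L x = true ↔ Sat5 (F x) := by
  classical
  obtain ⟨p, V, ⟨h⟩, hV⟩ := hL
  set tm := h.tm with htm
  haveI : Fintype tm.Λ := tm.ΛFin
  haveI : Fintype tm.σ := tm.σFin
  haveI : Fintype (tm.Γ tm.k₀) := tm.Γk₀Fin
  haveI : Fintype tm.K := tm.kFin
  haveI : Nonempty (RC tm.Γ tm.Λ tm.σ) := ⟨cell0 tm none⟩
  obtain ⟨s, e, d, hed, hde⟩ := exists_numbering (cells_finite tm.m tm.k₀)
  let cellOf : Option Bool → RC tm.Γ tm.Λ tm.σ :=
    fun o => cell0 tm (o.map h.inputAlphabet.invFun)
  let Z : RS :=
    { s := s
      F0 := fun a b => e (rF tm.m (d a) none (d a) (d b))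
      F1 := fun a b c f => e (rF tm.m (d a) (some (d b)) (d c) (d f))
      sy := fun o => e (cellOf o)
      acc := fun a => decide ((d a).2 tm.k₁ = some (h.outputAlphabet.invFun true))
      hF0 := fun a b ha hb => (hed _ (rF_mem _ (hde a ha).1 (by intro b hb; cases hb)
        (hde a ha).1 (hde b hb).1)).1
      hF1 := fun a b c f ha hb hc hf => (hed _ (rF_mem _ (hde a ha).1 (by
        intro b' hb'
        obtain rfl : d b = b' := by simpa using hb'
        exact (hde b hb).1) (hde c hc).1 (hde f hf).1)).1
      hsy := fun o => (hed _ (cell0_mem tm _)).1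
      hne := fun b hcon => by
        have h1 := (hed _ (cell0_mem tm ((some b).map h.inputAlphabet.invFun))).2
        have h2 := (hed _ (cell0_mem tm
          ((none : Option Bool).map h.inputAlphabet.invFun))).2
        have h3 : e (cell0 tm ((some b).map h.inputAlphabet.invFun)) =
          e (cell0 tm ((none : Option Bool).map h.inputAlphabet.invFun)) := hcon
        rw [h3] at h1
        have h4 := congrArg (fun c : RC tm.Γ tm.Λ tm.σ => c.2 tm.k₀) (h1.symm.trans h2)
        simp [cell0] at h4 }
  let c0 : List Bool → List Bool → SC tm.Γ tm.Λ tm.σ := fun x y =>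
    emb tm.m (initList tm ((enc2 x y).map h.inputAlphabet.invFun))
  have hc0 : ∀ x y i, row (c0 x y) i = cellOf ((enc2 x y)[i]?) := by
    intro x y i
    simp only [c0, cellOf]
    rw [row_init, List.getElem?_map]
  have hmem : ∀ x y t i, row ((sstep tm.m)^[t] (c0 x y)) i ∈ cells tm.m tm.k₀ := by
    intro x y t
    induction t with
    | zero =>
      intro i
      rw [Function.iterate_zero, id, hc0]
      exact cell0_mem tm _
    | succ t ih =>
      intro i
      rw [Function.iterate_succ_apply']
      cases i with
      | zero =>
        rw [row_zero]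
        exact rF_mem _ (ih 0) (by intro b hb; cases hb) (ih 0) (ih 1)
      | succ i =>
        rw [row_succ]
        exact rF_mem _ (ih 0) (by
          intro b hb
          obtain rfl : row ((sstep tm.m)^[t] (c0 x y)) i = b := by simpa using hb
          exact ih i) (ih (i + 1)) (ih (i + 2))
  have hR : ∀ x y t i, Z.R x y t i = e (row ((sstep tm.m)^[t] (c0 x y)) i) := by
    intro x y t
    induction t with
    | zero =>
      intro i
      rw [Function.iterate_zero, id, hc0]
      rfl
    | succ t ih =>
      intro i
      rw [Function.iterate_succ_apply']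
      have hd := fun i => (hed _ (hmem x y t i)).2
      cases i with
      | zero =>
        rw [row_zero]
        change e (rF tm.m (d (Z.R x y t 0)) none (d (Z.R x y t 0)) (d (Z.R x y t 1))) = _
        rw [ih 0, ih 1, hd, hd]
      | succ i =>
        rw [row_succ]
        change e (rF tm.m (d (Z.R x y t 0)) (some (d (Z.R x y t i))) (d (Z.R x y t (i + 1)))
          (d (Z.R x y t (i + 2)))) = _
        rw [ih 0, ih i, ih (i + 1), ih (i + 2), hd, hd, hd, hd]
  -- bounds
  set D : ℕ := Finset.univ.sup (fun q : tm.Λ => dep (tm.m q)) with hD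
  have hDb : ∀ q, dep (tm.m q) ≤ D := fun q =>
    Finset.le_sup (f := fun q : tm.Λ => dep (tm.m q)) (Finset.mem_univ q)
  obtain ⟨xP, hxP⟩ := exPoly p
  obtain ⟨xT', hxT'⟩ := exPoly ((h.time.comp (6 * .X + 1 + 3 * p)) * C D)
  let P : List Bool → ℕ := fun x => p.eval x.length
  let T' : List Bool → ℕ := fun x => h.time.eval (6 * x.length + 1 + 3 * P x) * D
  have hP : ∀ x env, xP.val (bits x) env = P x := fun x env => hxP _ _
  have hT' : ∀ x env, xT'.val (bits x) env = T' x := by
    intro x env
    rw [hxT']
    simp only [eval_mul, eval_comp, eval_add, eval_X, eval_one, eval_C, eval_ofNat]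
    rfl
  refine ⟨fun x => (tabG Z xP xT').out (bits x) [],
    polyOn_raw.comp (polyOn_lg (tabG Z xP xT')), ?_, ?_⟩
  · intro x
    simp only
    rw [tabG_out Z x (P x) (T' x) xP xT' (hP x) (hT' x)]
    exact frm_ok _ _ _ _
  · intro x
    simp only
    rw [tabG_out Z x (P x) (T' x) xP xT' (hP x) (hT' x), frm_sat, hV]
    refine exists_congr fun y => and_congr_right fun hy => ?_
    rw [hR]
    have hrun := h.outputsFun (x, y)
    have henc : (N487b59b3.toEncoding (α := List Bool × List Bool)).encode (x, y) = enc2 x y :=
      bitEncode_pair x y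
    have h1 : (flip bind (TM2.step tm.m))^[hrun.steps]
        (some (initList tm ((enc2 x y).map h.inputAlphabet.invFun))) =
        some (haltList tm ([V (x, y)].map h.outputAlphabet.invFun)) := by
      rw [← henc]
      exact hrun.evals_in_steps
    have h2 : hrun.steps ≤ h.time.eval (enc2 x y).length := by
      rw [← henc]
      exact hrun.steps_le_m
    have h3 : hrun.steps * D ≤ tT x (P x) (T' x) := by
      have h4 : h.time.eval (enc2 x y).length ≤
          h.time.eval (6 * x.length + 1 + 3 * P x) := by
        refine eval_mono_nat _ ?_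
        rw [enc2_length]
        have : y.length ≤ P x := hy
        omega
      have h5 : hrun.steps * D ≤ h.time.eval (6 * x.length + 1 + 3 * P x) * D :=
        Nat.mul_le_mul_right _ (h2.trans h4)
      have h6 : tT x (P x) (T' x) = 6 * x.length + 1 + 3 * P x +
        h.time.eval (6 * x.length + 1 + 3 * P x) * D := rfl
      omega
    have h7 := sstep_final tm.m hDb h1 rfl h3
    have h8 : (sstep tm.m)^[tT x (P x) (T' x)] (c0 x y) =
      emb tm.m (haltList tm ([V (x, y)].map h.outputAlphabet.invFun)) := h7
    rw [h8]
    change (V (x, y) = true) ↔ decide ((d (e (row (emb tm.m (haltList tm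
      ([V (x, y)].map h.outputAlphabet.invFun))) 0))).2 tm.k₁ =
        some (h.outputAlphabet.invFun true)) = true
    have h9 := (hed _ (hmem x y (tT x (P x) (T' x)) 0)).2
    rw [h8] at h9
    rw [h9, decide_eq_true_iff]
    have h10 : (row (emb tm.m (haltList tm ([V (x, y)].map h.outputAlphabet.invFun))) 0).2
        tm.k₁ = some (h.outputAlphabet.invFun (V (x, y))) := by
      simp only [row, emb]
      rw [haltList_k₁]
      rfl
    rw [h10]
    constructor
    · intro hv
      rw [hv]
    · intro hv
      injection hv with hv
      exact h.outputAlphabet.symm.injective hv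

/-- every language in NP reduces to Betweenness -/
theorem np_betweenness {L : N68a2faeb.DecisionProblem} (hL : L ∈ N68a2faeb.NP) :
    ∃ B : List Bool → BInst, PolyOn (fun w => w) encB B ∧ ∀ x, L x = true ↔ (B x).Sat := by
  obtain ⟨F, hF, hok, hsat⟩ := cookLevin hL
  refine ⟨fun x => btI (F x) (hok x), ?_, ?_⟩
  · refine (hF.comp (polyOn_lg btG)).congr (fun x => x) (fun _ => rfl) (fun x => ?_)
    rw [btG_nums (hok x)]
    rfl
  · intro x
    rw [btI_sat]
    exact hsat x

/-- every language in NP reduces to the recognition of outer `(w+4)`-quasi-planar graphs -/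
theorem np_outerQP (w : ℕ) {L : N68a2faeb.DecisionProblem} (hL : L ∈ N68a2faeb.NP) :
    ∃ f : List Bool → ℕ × List (ℕ × ℕ), PolyOn (fun w => w) encG f ∧
      ∀ x, L x = true ↔ OuterQP (w + 4) (graphOf (f x)) := by
  obtain ⟨B, hB, hsat⟩ := np_betweenness hL
  refine ⟨fun x => red w (B x), hB.comp (polyOn_red w), fun x => ?_⟩
  rw [hsat, red_correct w]

/-! ### Encodings of strings -/

/-- program reading blocks of three bits -/
def decP : Cmd ℕ Fl :=
  .seq (.seq (pp 0) (.wh cF (.seq (pp 0) (.seq (pu 2) (.seq (pp 0) (pp 0)))))) (mv 2 1)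

theorem polyOn_dec : PolyOn (N487b59b3.bitEncode : List Bool → List Bool) (fun w => w)
    (fun x => x) := by
  refine ⟨decP, 20 * .X + 20, fun x => ?_⟩
  rw [bitEncode_list]
  have hpp : ∀ (r A : List Bool) (v : Fl), ∃ v' : Fl, v'.c = decide (r ≠ []) ∧
      (∀ b r', r = b :: r' → v'.d = b) ∧
      RunB (pp 0) v (update (one1 2 A) 0 r) v' (update (one1 2 A) 0 r.tail) 1 := by
    intro r A v
    have h := pp_does (k := 0) (v := v) (S := update (one1 2 A) 0 r)
    rw [update_self, update_idem] at h
    refine ⟨_, ?_, ?_, h⟩
    · cases r <;> simp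
    · rintro b r' rfl
      rfl
  have hloop : ∀ (x A : List Bool) (v : Fl), v.c = decide (x ≠ []) → ∃ v',
      RunB (.wh cF (.seq (pp 0) (.seq (pu 2) (.seq (pp 0) (pp 0))))) v
        (update (one1 2 A) 0 (x.flatMap blk3).tail) v'
        (update (one1 2 (x.reverse ++ A)) 0 []) (x.length * 5 + 1) := by
    intro x
    induction x with
    | nil =>
      intro A v hc
      exact ⟨v, (RunB.wh_f (by simpa [cF] using hc)).mono (by omega)⟩
    | cons b x ih =>
      intro A v hc
      have e : ((b :: x).flatMap blk3).tail = b :: false :: x.flatMap blk3 := rfl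
      rw [e]
      obtain ⟨v₁, hc1, hd1, h1⟩ := hpp (b :: false :: x.flatMap blk3) A v
      have h2 : RunB (pu 2) v₁ (update (one1 2 A) 0 (false :: x.flatMap blk3)) v₁
          (update (one1 2 (b :: A)) 0 (false :: x.flatMap blk3)) 1 := by
        refine ⟨1, le_rfl, ?_⟩
        have h := Run.push 2 (fun v : Fl => v.d) v₁
          (update (one1 2 A) 0 (false :: x.flatMap blk3))
        refine cast ?_ h
        congr 1
        funext i
        simp only [one1, Function.update_apply, hd1 b _ rfl]
        split_ifs <;> simp_all
      obtain ⟨v₂, _, _, h3⟩ := hpp (false :: x.flatMap blk3) (b :: A) v₁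
      obtain ⟨v₃, hc3, _, h4⟩ := hpp (x.flatMap blk3) (b :: A) v₂
      have hc3' : v₃.c = decide (x ≠ []) := by
        rw [hc3]
        cases x <;> simp [blk3]
      obtain ⟨v₄, h5⟩ := ih (b :: A) v₃ hc3'
      refine ⟨v₄, ?_⟩
      have := RunB.wh_t (p := cF) (by simpa [cF] using hc) (h1.seq (h2.seq (h3.seq h4))) h5
      rw [List.reverse_cons, List.append_assoc, List.singleton_append]
      refine this.mono ?_
      simp only [List.length_cons]
      omega
  have d1 : Does (.seq (pp 0) (.wh cF (.seq (pp 0) (.seq (pu 2) (.seq (pp 0) (pp 0))))))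
      (one1 0 (x.flatMap blk3)) (one1 2 x.reverse) (x.length * 5 + 2) := by
    intro v
    obtain ⟨v₁, hc1, _, h1⟩ := hpp (x.flatMap blk3) [] v
    have hc1' : v₁.c = decide (x ≠ []) := by
      rw [hc1]
      cases x <;> simp [blk3]
    obtain ⟨v₂, h2⟩ := hloop x [] v₁ hc1'
    refine ⟨v₂, ?_⟩
    have e1 : update (one1 2 []) 0 (x.flatMap blk3) = one1 0 (x.flatMap blk3) := by
      funext i
      simp only [one1, Function.update_apply]
      split_ifs <;> simp_all
    have e2 : update (one1 2 (x.reverse ++ [])) 0 [] = one1 2 x.reverse := by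
      funext i
      simp only [one1, Function.update_apply]
      split_ifs <;> simp_all
    rw [e1] at h1
    rw [e2] at h2
    exact (h1.seq h2).mono (by omega)
  have d2 := mv_does (a := 2) (k := 1) (by omega) (S := one1 2 x.reverse)
  have e : update (update (one1 2 x.reverse) 2 []) 1 ((one1 2 x.reverse 2).reverse ++
      one1 2 x.reverse 1) = one1 1 x := by
    funext i
    simp only [one1, Function.update_apply]
    split_ifs <;> simp_all
  rw [e] at d2
  refine Does.mono (c := decP) (d1.seq d2) ?_
  have h1 : (one1 2 x.reverse 2).length = x.length := by simp [one1]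
  rw [h1, length_ys]
  simp only [eval_add, eval_mul, eval_ofNat, eval_X]
  omega

/-- program writing blocks of three bits -/
def encPr : Cmd ℕ Fl :=
  .seq (mv 0 2) (each 2 (.seq (put 1 false) (.seq (pu 1) (put 1 true))))

theorem polyOn_enc : PolyOn (fun w => w) (N487b59b3.bitEncode : List Bool → List Bool)
    (fun x => x) := by
  refine ⟨encPr, 20 * .X + 20, fun x => ?_⟩
  rw [bitEncode_list]
  have d1 := mv_does (a := 0) (k := 2) (by omega) (S := one1 0 x)
  have e1 : update (update (one1 0 x) 0 []) 2 ((one1 0 x 0).reverse ++ one1 0 x 2) =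
      one1 2 x.reverse := by
    funext i
    simp only [one1, Function.update_apply]
    split_ifs <;> simp_all
  rw [e1] at d1
  have d2 := each_does (a := 2) (B := .seq (put 1 false) (.seq (pu 1) (put 1 true))) (t := 3)
    (fun p => one1 1 (p.reverse.flatMap blk3)) x.reverse (by
      intro p b r hp v hv
      refine ⟨v, 3, le_rfl, ?_⟩
      have h1 := Run.push 1 (fun _ : Fl => false) v
        (update (one1 1 (p.reverse.flatMap blk3)) 2 r)
      have h2 := Run.push 1 (fun v : Fl => v.d) v (update (update (one1 1
        (p.reverse.flatMap blk3)) 2 r) 1 (false :: update (one1 1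
        (p.reverse.flatMap blk3)) 2 r 1))
      have h3 := Run.push 1 (fun _ : Fl => true) v (update (update (update (one1 1
        (p.reverse.flatMap blk3)) 2 r) 1 (false :: update (one1 1
        (p.reverse.flatMap blk3)) 2 r 1)) 1 (v.d :: update (update (one1 1
        (p.reverse.flatMap blk3)) 2 r) 1 (false :: update (one1 1
        (p.reverse.flatMap blk3)) 2 r 1) 1))
      have h4 := Run.seq h1 (Run.seq h2 h3)
      refine cast ?_ h4
      congr 1
      subst hv
      clear hp h4 h3 h2 h1
      have e : (p ++ [v.d]).reverse.flatMap blk3 = true :: v.d :: false ::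
        p.reverse.flatMap blk3 := by
        rw [List.reverse_append]
        rfl
      rw [e]
      generalize p.reverse.flatMap blk3 = A
      funext i
      simp only [one1, Function.update_apply]
      split_ifs <;> first | contradiction | omega | simp)
  have e2 : update (one1 1 (([] : List Bool).reverse.flatMap blk3)) 2 x.reverse =
      one1 2 x.reverse := by
    funext i
    simp only [one1, Function.update_apply]
    split_ifs <;> simp_all
  have e3 : update (one1 1 (x.reverse.reverse.flatMap blk3)) 2 [] =
      one1 1 (x.flatMap blk3) := by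
    rw [List.reverse_reverse]
    funext i
    simp only [one1, Function.update_apply]
    split_ifs <;> simp_all
  rw [e2, e3] at d2
  refine Does.mono (c := encPr) (d1.seq d2) ?_
  have h1 : (one1 0 x 0).length = x.length := by simp [one1]
  rw [h1, List.length_reverse]
  simp only [eval_add, eval_mul, eval_ofNat, eval_X]
  omega

theorem isPolyTime_of {f : List Bool → List Bool}
    (h : PolyOn (fun w => w) (fun w => w) f) : N68a2faeb.IsPolyTime f :=
  ((polyOn_dec.comp h).comp polyOn_enc).tm

theorem unary_inj : ∀ {a b : List ℕ}, unary a = unary b → a = b := by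
  intro a
  induction a with
  | nil =>
    intro b h
    cases b with
    | nil => rfl
    | cons y b =>
      have := congrArg List.length h
      simp [unary] at this
  | cons x a ih =>
    intro b h
    cases b with
    | nil =>
      have := congrArg List.length h
      simp [unary] at this
    | cons y b =>
      rw [unary_cons', unary_cons'] at h
      have key : ∀ (x y : ℕ) (u v : List Bool), List.replicate x true ++ false :: u =
          List.replicate y true ++ false :: v → x = y ∧ u = v := by
        intro x
        induction x with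
        | zero =>
          intro y u v h
          cases y with
          | zero => exact ⟨rfl, by simpa using h⟩
          | succ y => simp [List.replicate_succ] at h
        | succ x ih =>
          intro y u v h
          cases y with
          | zero => simp [List.replicate_succ] at h
          | succ y =>
            simp only [List.replicate_succ, List.cons_append, List.cons.injEq, true_and] at h
            obtain ⟨h1, h2⟩ := ih y u v h
            exact ⟨by rw [h1], h2⟩
      obtain ⟨h1, h2⟩ := key _ _ _ _ h
      rw [h1, ih h2]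

theorem pairs_inj : ∀ {a b : List (ℕ × ℕ)},
    a.flatMap (fun e => [e.1, e.2]) = b.flatMap (fun e => [e.1, e.2]) → a = b := by
  intro a
  induction a with
  | nil =>
    intro b h
    cases b with
    | nil => rfl
    | cons y b => simp at h
  | cons x a ih =>
    intro b h
    cases b with
    | nil => simp at h
    | cons y b =>
      simp only [List.flatMap_cons, List.cons_append, List.nil_append, List.cons.injEq] at h
      obtain ⟨h1, h2, h3⟩ := h
      rw [ih h3, Prod.ext h1 h2]

theorem encG_inj {g g' : ℕ × List (ℕ × ℕ)} (h : encG g = encG g') : g = g' := by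
  unfold encG at h
  have := unary_inj h
  injection this with h1 h2
  exact Prod.ext h1 (pairs_inj h2)

end Pool.Agent.H1.PNP
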