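import Pool.Agent.H1.NP.Tab2
import Pool.Prelude.Def_H_3587d628

/-!
The tableau of a row system as a formula with clauses of five literals; the inputs are pairs of
strings in the encoding of the Prelude.
-/

namespace Pool.Agent.H1.PNP

open Pool.Agent.H1.NP Pool.Agent.H68.OQP Polynomial

/-- block of a bit of the first string -/
def blk (b : Bool) : List Bool := [true, true, true, b, true, false]

/-- block of a bit of the second string -/
def blk3 (b : Bool) : List Bool := [true, b, false]

/-- code of a pair of strings -/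
def enc2 (x y : List Bool) : List Bool := x.flatMap blk ++ false :: y.flatMap blk3

theorem bitEncode_list (x : List Bool) : N487b59b3.bitEncode x = x.flatMap blk3 := by
  have h : N487b59b3.bitEncode x = ((x.map N487b59b3.bitEncode).map N487b59b3.delimit).flatten :=
    rfl
  rw [h]
  clear h
  induction x with
  | nil => rfl
  | cons b x ih =>
    simp only [List.map_cons, List.flatten_cons, List.flatMap_cons] at ih ⊢
    rw [ih]
    rfl

theorem delimit_eq (l : List Bool) :
    N487b59b3.delimit l = l.flatMap (fun b => [true, b]) ++ [false] := by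
  induction l with
  | nil => rfl
  | cons b l ih =>
    rw [N487b59b3.delimit, ih]
    rfl

theorem bitEncode_pair (x y : List Bool) : N487b59b3.bitEncode (x, y) = enc2 x y := by
  have h : N487b59b3.bitEncode (x, y) = N487b59b3.delimit (N487b59b3.bitEncode x) ++
    N487b59b3.bitEncode y := rfl
  rw [h, bitEncode_list, bitEncode_list, delimit_eq, enc2]
  clear h
  have h2 : (x.flatMap blk3).flatMap (fun b => [true, b]) = x.flatMap blk := by
    induction x with
    | nil => rfl
    | cons b x ih =>
      simp only [List.flatMap_cons, List.flatMap_append] at ih ⊢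
      rw [ih]
      rfl
  rw [h2, List.append_assoc]
  rfl

theorem flatMap_getElem? {α β : Type} (f : α → List β) (n : ℕ) (hf : ∀ a, (f a).length = n) :
    ∀ (L : List α) (i : ℕ) (hi : i < L.length) (c : ℕ) (r : List β), c < n →
      (L.flatMap f ++ r)[n * i + c]? = (f L[i])[c]? := by
  intro L
  induction L with
  | nil => intro i hi; simp at hi
  | cons a L ih =>
    intro i hi c r hc
    rw [List.flatMap_cons, List.append_assoc]
    cases i with
    | zero =>
      rw [List.getElem?_append_left (by rw [hf]; omega)]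
      simp
    | succ i =>
      rw [List.getElem?_append_right (by rw [hf, Nat.mul_succ]; omega)]
      rw [hf, show n * (i + 1) + c - n = n * i + c by rw [Nat.mul_succ]; omega]
      rw [ih i (by simpa using hi) c r hc]
      rfl

theorem length_flatMap_const {α β : Type} (f : α → List β) (n : ℕ)
    (hf : ∀ a, (f a).length = n) (L : List α) : (L.flatMap f).length = n * L.length := by
  induction L with
  | nil => simp
  | cons a L ih =>
    rw [List.flatMap_cons, List.length_append, ih, hf, List.length_cons, Nat.mul_succ]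
    omega

theorem enc_x {x y : List Bool} {i : ℕ} (hi : i < x.length) {c : ℕ} (hc : c < 6) :
    (enc2 x y)[6 * i + c]? = some ((blk (x.getD i false)).getD c false) := by
  unfold enc2
  rw [flatMap_getElem? blk 6 (fun _ => rfl) x i hi c _ hc, List.getD_eq_getElem?_getD (l := x),
    List.getElem?_eq_getElem hi, List.getD_eq_getElem?_getD]
  have : c < (blk x[i]).length := hc
  rw [List.getElem?_eq_getElem this]
  simp [List.getElem?_eq_getElem this]

theorem length_xs (x : List Bool) : (x.flatMap blk).length = 6 * x.length :=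
  length_flatMap_const blk 6 (fun _ => rfl) x

theorem length_ys (x : List Bool) : (x.flatMap blk3).length = 3 * x.length :=
  length_flatMap_const blk3 3 (fun _ => rfl) x

theorem enc_sep {x y : List Bool} : (enc2 x y)[6 * x.length]? = some false := by
  unfold enc2
  rw [List.getElem?_append_right (by rw [length_xs]), length_xs]
  simp

theorem enc_y {x y : List Bool} {j : ℕ} (hj : j < y.length) {c : ℕ} (hc : c < 3) :
    (enc2 x y)[6 * x.length + 1 + 3 * j + c]? = some ((blk3 (y.getD j false)).getD c false) := by
  unfold enc2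
  rw [List.getElem?_append_right (by rw [length_xs]; omega), length_xs,
    show 6 * x.length + 1 + 3 * j + c - 6 * x.length = (3 * j + c) + 1 by omega,
    List.getElem?_cons_succ]
  have h := flatMap_getElem? blk3 3 (fun _ => rfl) y j hj c [] hc
  rw [List.append_nil] at h
  rw [h, List.getD_eq_getElem?_getD (l := y), List.getElem?_eq_getElem hj,
    List.getD_eq_getElem?_getD]
  have : c < (blk3 y[j]).length := hc
  rw [List.getElem?_eq_getElem this]
  simp [List.getElem?_eq_getElem this]

theorem enc_blank {x y : List Bool} {i : ℕ} (hi : 6 * x.length + 1 + 3 * y.length ≤ i) :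
    (enc2 x y)[i]? = none := by
  refine List.getElem?_eq_none ?_
  unfold enc2
  rw [List.length_append, length_xs, List.length_cons, length_ys]
  omega

theorem enc2_length (x y : List Bool) :
    (enc2 x y).length = 6 * x.length + 1 + 3 * y.length := by
  unfold enc2
  rw [List.length_append, length_xs, List.length_cons, length_ys]
  omega

/-- a finite row system -/
structure RS where
  s : ℕ
  F0 : ℕ → ℕ → ℕ
  F1 : ℕ → ℕ → ℕ → ℕ → ℕ
  sy : Option Bool → ℕ
  acc : ℕ → Bool
  hF0 : ∀ a b, a < s → b < s → F0 a b < s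
  hF1 : ∀ a b c d, a < s → b < s → c < s → d < s → F1 a b c d < s
  hsy : ∀ o, sy o < s
  hne : ∀ b, sy (some b) ≠ sy none

/-- the rows -/
def RS.R (Z : RS) (x y : List Bool) : ℕ → ℕ → ℕ
  | 0, i => Z.sy ((enc2 x y)[i]?)
  | t + 1, 0 => Z.F0 (RS.R Z x y t 0) (RS.R Z x y t 1)
  | t + 1, i + 1 => Z.F1 (RS.R Z x y t 0) (RS.R Z x y t i) (RS.R Z x y t (i + 1))
      (RS.R Z x y t (i + 2))

theorem RS.R_lt (Z : RS) (x y : List Bool) : ∀ t i, Z.R x y t i < Z.s := by
  intro t
  induction t with
  | zero => intro i; exact Z.hsy _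
  | succ t ih =>
    intro i
    cases i with
    | zero => exact Z.hF0 _ _ (ih 0) (ih 1)
    | succ i => exact Z.hF1 _ _ _ _ (ih 0) (ih i) (ih _) (ih _)

section

variable (Z : RS) (x : List Bool) (P T' : ℕ)

/-- number of steps -/
def tT : ℕ := 6 * x.length + 1 + 3 * P + T'

/-- positive literal about the first row -/
def fp (i : ℕ) (o : Option Bool) : ℕ := pos (tT x P T') Z.s (tT x P T') i (Z.sy o)

/-- negative literal about the first row -/
def fn (i : ℕ) (o : Option Bool) : ℕ := neg (tT x P T') Z.s (tT x P T') i (Z.sy o)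

/-- clauses for one guessed bit -/
def gue (c : ℕ) : List C5 :=
  [(fp Z x P T' c (some true), fp Z x P T' c none, fp Z x P T' c none, fp Z x P T' c none,
      fp Z x P T' c none),
   (fp Z x P T' (c + 1) (some false), fp Z x P T' (c + 1) (some true), fp Z x P T' c none,
      fp Z x P T' c none, fp Z x P T' c none),
   (fp Z x P T' (c + 2) (some false), fp Z x P T' c none, fp Z x P T' c none,
      fp Z x P T' c none, fp Z x P T' c none),
   (fn Z x P T' c none, fp Z x P T' (c + 1) none, fp Z x P T' (c + 1) none,
      fp Z x P T' (c + 1) none, fp Z x P T' (c + 1) none),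
   (fn Z x P T' c none, fp Z x P T' (c + 2) none, fp Z x P T' (c + 2) none,
      fp Z x P T' (c + 2) none, fp Z x P T' (c + 2) none),
   (fn Z x P T' c none, fp Z x P T' (c + 3) none, fp Z x P T' (c + 3) none,
      fp Z x P T' (c + 3) none, fp Z x P T' (c + 3) none)]

/-- the clauses -/
def cls : List C5 :=
  (List.range x.length).flatMap (fun i => if (bits x).getD (1 + i) 0 ≤ 0 then
    [uni (fp Z x P T' (6 * i + 3) (some false))] else
    [uni (fp Z x P T' (6 * i + 3) (some true))]) ++
  ((List.range x.length).flatMap (fun i => [uni (fp Z x P T' (6 * i) (some true)),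
    uni (fp Z x P T' (6 * i + 1) (some true)), uni (fp Z x P T' (6 * i + 2) (some true)),
    uni (fp Z x P T' (6 * i + 4) (some true)), uni (fp Z x P T' (6 * i + 5) (some false))]) ++
  ([uni (fp Z x P T' (6 * x.length) (some false))] ++
  ((List.range P).flatMap (fun j => gue Z x P T' (6 * x.length + 1 + 3 * j)) ++
  ((List.range (T' + 1)).flatMap (fun j =>
    [uni (fp Z x P T' (6 * x.length + 1 + 3 * P + j) none)]) ++
  ((List.range (tT x P T')).flatMap (fun u => (prs Z.s).flatMap (fun c =>
    [(neg (tT x P T') Z.s (u + 1) 0 c.1, neg (tT x P T') Z.s (u + 1) 1 c.2,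
      pos (tT x P T') Z.s u 0 (Z.F0 c.1 c.2), pos (tT x P T') Z.s u 0 (Z.F0 c.1 c.2),
      pos (tT x P T') Z.s u 0 (Z.F0 c.1 c.2))])) ++
  ((List.range (tT x P T')).flatMap (fun u => (List.range (tT x P T')).flatMap (fun i =>
    (qds Z.s).flatMap (fun c =>
    [(neg (tT x P T') Z.s (u + 1) 0 c.1.1, neg (tT x P T') Z.s (u + 1) i c.1.2,
      neg (tT x P T') Z.s (u + 1) (i + 1) c.2.1, neg (tT x P T') Z.s (u + 1) (i + 2) c.2.2,
      pos (tT x P T') Z.s u (i + 1) (Z.F1 c.1.1 c.1.2 c.2.1 c.2.2))]))) ++
  ((List.range Z.s).filter (fun a => !Z.acc a)).flatMap (fun a =>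
    [uni (neg (tT x P T') Z.s 0 0 a)])))))))

theorem mem_cls {c : C5} : c ∈ cls Z x P T' ↔
    (∃ i < x.length, c = uni (fp Z x P T' (6 * i + 3) (some (x.getD i false)))) ∨
    (∃ i < x.length, c ∈ [uni (fp Z x P T' (6 * i) (some true)),
      uni (fp Z x P T' (6 * i + 1) (some true)), uni (fp Z x P T' (6 * i + 2) (some true)),
      uni (fp Z x P T' (6 * i + 4) (some true)), uni (fp Z x P T' (6 * i + 5) (some false))]) ∨
    (c = uni (fp Z x P T' (6 * x.length) (some false))) ∨
    (∃ j < P, c ∈ gue Z x P T' (6 * x.length + 1 + 3 * j)) ∨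
    (∃ j < T' + 1, c = uni (fp Z x P T' (6 * x.length + 1 + 3 * P + j) none)) ∨
    (∃ u < tT x P T', ∃ a < Z.s, ∃ b < Z.s,
      c = (neg (tT x P T') Z.s (u + 1) 0 a, neg (tT x P T') Z.s (u + 1) 1 b,
      pos (tT x P T') Z.s u 0 (Z.F0 a b), pos (tT x P T') Z.s u 0 (Z.F0 a b),
      pos (tT x P T') Z.s u 0 (Z.F0 a b))) ∨
    (∃ u < tT x P T', ∃ i < tT x P T', ∃ a < Z.s, ∃ b < Z.s, ∃ d < Z.s, ∃ e < Z.s,
      c = (neg (tT x P T') Z.s (u + 1) 0 a, neg (tT x P T') Z.s (u + 1) i b,
      neg (tT x P T') Z.s (u + 1) (i + 1) d, neg (tT x P T') Z.s (u + 1) (i + 2) e,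
      pos (tT x P T') Z.s u (i + 1) (Z.F1 a b d e))) ∨
    (∃ a < Z.s, Z.acc a = false ∧ c = uni (neg (tT x P T') Z.s 0 0 a)) := by
  simp only [cls, List.mem_append, List.mem_flatMap, List.mem_range, List.mem_singleton]
  refine or_congr (exists_congr fun i => and_congr_right fun hi => ?_) (or_congr Iff.rfl
    (or_congr Iff.rfl (or_congr Iff.rfl (or_congr Iff.rfl (or_congr ?_ (or_congr ?_ ?_))))))
  · have h1 : (bits x).getD (1 + i) 0 = (x.getD i false).toNat := by
      rw [Nat.add_comm, bits, List.getD_cons_succ, List.getD_eq_getElem?_getD,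
        List.getD_eq_getElem?_getD, List.getElem?_map, List.getElem?_eq_getElem hi]
      rfl
    rw [h1]
    cases x.getD i false <;> simp
  · refine exists_congr fun u => and_congr_right fun _ => ?_
    simp only [prs, List.pair_mem_product, List.mem_range, Prod.exists]
    constructor
    · rintro ⟨a, b, ⟨ha, hb⟩, h⟩
      exact ⟨a, ha, b, hb, h⟩
    · rintro ⟨a, ha, b, hb, h⟩
      exact ⟨a, b, ⟨ha, hb⟩, h⟩
  · refine exists_congr fun u => and_congr_right fun _ => exists_congr fun i =>
      and_congr_right fun _ => ?_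
    simp only [qds, prs, List.pair_mem_product, List.mem_range, Prod.exists]
    constructor
    · rintro ⟨a, b, d, e, ⟨⟨ha, hb⟩, hd, he⟩, h⟩
      exact ⟨a, ha, b, hb, d, hd, e, he, h⟩
    · rintro ⟨a, ha, b, hb, d, hd, e, he, h⟩
      exact ⟨a, b, d, e, ⟨⟨ha, hb⟩, hd, he⟩, h⟩
  · simp only [List.mem_filter, List.mem_range, Bool.not_eq_true']
    refine exists_congr fun a => ?_
    tauto

theorem length_cls : (cls Z x P T').length = x.length + (x.length * 5 + (1 + (P * 6 +
    ((T' + 1) + (tT x P T' * (Z.s * Z.s) + (tT x P T' * (tT x P T' * (Z.s * Z.s * (Z.s * Z.s))) +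
      ((List.range Z.s).filter (fun a => !Z.acc a)).length)))))) := by
  have h1 : ∀ (L : List ℕ) (p : ℕ → Prop) [DecidablePred p] (f g : ℕ → C5),
      (L.flatMap (fun i => if p i then [f i] else [g i])).length = L.length := by
    intro L p _ f g
    induction L with
    | nil => rfl
    | cons a L ih =>
      rw [List.flatMap_cons, List.length_append, ih]
      split_ifs <;> simp [Nat.add_comm]
  have h2 : ∀ {α : Type} (L : List α) (f : α → C5),
      (L.flatMap (fun i => [f i])).length = L.length := by
    intro α L f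
    induction L with
    | nil => rfl
    | cons a L ih =>
      rw [List.flatMap_cons, List.length_append, ih]
      simp [Nat.add_comm]
  have h3 : ∀ {α β : Type} (L : List α) (f : α → List β) (n : ℕ),
      (∀ a, (f a).length = n) → (L.flatMap f).length = L.length * n := by
    intro α β L f n h
    rw [length_flatMap_const f n h, Nat.mul_comm]
  unfold cls
  rw [List.length_append, List.length_append, List.length_append, List.length_append,
    List.length_append, List.length_append, List.length_append, h1, h2, h2,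
    h3 (List.range x.length) _ 5 (fun _ => rfl), h3 (List.range P) _ 6 (fun _ => rfl),
    h3 (List.range (tT x P T')) _ (Z.s * Z.s) (fun u => by rw [h2, length_prs]),
    h3 (List.range (tT x P T')) _ (tT x P T' * (Z.s * Z.s * (Z.s * Z.s))) (fun u => by
      rw [h3 (List.range (tT x P T')) _ (Z.s * Z.s * (Z.s * Z.s)) (fun u => by
        rw [h2, length_qds]), List.length_range])]
  simp only [List.length_range, List.length_singleton]

/-- number of variables -/
def nV : ℕ := (tT x P T' + 1) * (tT x P T' + 2) * Z.s

theorem fp_lt {i : ℕ} (hi : i < tT x P T' + 2) (o : Option Bool) :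
    fp Z x P T' i o < 2 * nV Z x P T' := pos_lt le_rfl hi (Z.hsy _)

theorem fn_lt {i : ℕ} (hi : i < tT x P T' + 2) (o : Option Bool) :
    fn Z x P T' i o < 2 * nV Z x P T' := neg_lt le_rfl hi (Z.hsy _)

theorem cls_ok : ∀ c ∈ cls Z x P T', ∀ a ∈ C5.l c, a < 2 * nV Z x P T' := by
  intro c hc a ha
  have hT : tT x P T' = 6 * x.length + 1 + 3 * P + T' := rfl
  rcases (mem_cls Z x P T').1 hc with ⟨i, hi, rfl⟩ | ⟨i, hi, hc⟩ | rfl | ⟨j, hj, hc⟩ |
    ⟨j, hj, rfl⟩ | ⟨u, hu, p, hp, q, hq, rfl⟩ |
    ⟨u, hu, i, hi, p, hp, q, hq, r, hr, t, ht, rfl⟩ | ⟨p, hp, _, rfl⟩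
  · simp only [C5.l, uni, List.mem_cons, List.not_mem_nil, or_false, or_self] at ha
    subst ha
    exact fp_lt _ _ _ _ (by omega) _
  · simp only [List.mem_cons, List.not_mem_nil, or_false] at hc
    rcases hc with rfl | rfl | rfl | rfl | rfl <;>
      simp only [C5.l, uni, List.mem_cons, List.not_mem_nil, or_false, or_self] at ha <;>
      subst ha <;> exact fp_lt _ _ _ _ (by omega) _
  · simp only [C5.l, uni, List.mem_cons, List.not_mem_nil, or_false, or_self] at ha
    subst ha
    exact fp_lt _ _ _ _ (by omega) _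
  · simp only [gue, List.mem_cons, List.not_mem_nil, or_false] at hc
    rcases hc with rfl | rfl | rfl | rfl | rfl | rfl <;>
      simp only [C5.l, List.mem_cons, List.not_mem_nil, or_false] at ha <;>
      rcases ha with rfl | rfl | rfl | rfl | rfl <;>
      first
        | exact fp_lt _ _ _ _ (by omega) _
        | exact fn_lt _ _ _ _ (by omega) _
  · simp only [C5.l, uni, List.mem_cons, List.not_mem_nil, or_false, or_self] at ha
    subst ha
    exact fp_lt _ _ _ _ (by omega) _
  · simp only [C5.l, List.mem_cons, List.not_mem_nil, or_false] at ha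
    unfold nV
    rcases ha with rfl | rfl | rfl | rfl | rfl
    · exact neg_lt (by omega) (by omega) hp
    · exact neg_lt (by omega) (by omega) hq
    all_goals exact pos_lt (by omega) (by omega) (Z.hF0 _ _ hp hq)
  · simp only [C5.l, List.mem_cons, List.not_mem_nil, or_false] at ha
    unfold nV
    rcases ha with rfl | rfl | rfl | rfl | rfl
    · exact neg_lt (by omega) (by omega) hp
    · exact neg_lt (by omega) (by omega) hq
    · exact neg_lt (by omega) (by omega) hr
    · exact neg_lt (by omega) (by omega) ht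
    · exact pos_lt (by omega) (by omega) (Z.hF1 _ _ _ _ hp hq hr ht)
  · simp only [C5.l, uni, List.mem_cons, List.not_mem_nil, or_false, or_self] at ha
    subst ha
    unfold nV
    exact neg_lt (by omega) (by omega) hp

end

end Pool.Agent.H1.PNP
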