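import Pool.Agent.H1.NP.PTab

/-!
Correctness of the tableau and its generator (encoding of the Prelude).
-/

namespace Pool.Agent.H1.PNP

open Pool.Agent.H1.NP Pool.Agent.H68.OQP Polynomial

section

variable {Z : RS} {x : List Bool} {P T' : ℕ}

theorem lit_fn (τ : ℕ → Bool) (i : ℕ) (o : Option Bool) :
    lit τ (fn Z x P T' i o) = !lit τ (fp Z x P T' i o) := lit_neg _ _ _ _ _ _

/-- soundness -/
theorem cls_sound {τ : ℕ → Bool} (h : ∀ c ∈ cls Z x P T', ∃ a ∈ C5.l c, lit τ a = true) :
    ∃ y : List Bool, y.length ≤ P ∧ Z.acc (Z.R x y (tT x P T') 0) = true := by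
  have hT : tT x P T' = 6 * x.length + 1 + 3 * P + T' := rfl
  have hc := fun c hc => h c ((mem_cls Z x P T').2 hc)
  have huni : ∀ a, (∃ b ∈ C5.l (uni a), lit τ b = true) → lit τ a = true := by
    rintro a ⟨b, hb, h⟩
    simp only [C5.l, uni, List.mem_cons, List.not_mem_nil, or_false, or_self] at hb
    rw [← hb]; exact h
  set g : ℕ → Option Bool → Bool := fun i o => lit τ (fp Z x P T' i o) with hg
  -- facts about the first row
  have f1 : ∀ i < x.length, ∀ c < 6,
      g (6 * i + c) (some ((blk (x.getD i false)).getD c false)) = true := by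
    intro i hi c hc'
    have h3 := huni _ (hc _ (Or.inl ⟨i, hi, rfl⟩))
    have h5 := fun c h => huni c (hc _ (Or.inr (Or.inl ⟨i, hi, h⟩)))
    interval_cases c
    · exact h5 _ List.mem_cons_self
    · exact h5 _ (List.mem_cons_of_mem _ List.mem_cons_self)
    · exact h5 _ (List.mem_cons_of_mem _ (List.mem_cons_of_mem _ List.mem_cons_self))
    · exact h3
    · exact h5 _ (List.mem_cons_of_mem _ (List.mem_cons_of_mem _ (List.mem_cons_of_mem _
        List.mem_cons_self)))
    · exact h5 _ (List.mem_cons_of_mem _ (List.mem_cons_of_mem _ (List.mem_cons_of_mem _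
        (List.mem_cons_of_mem _ List.mem_cons_self))))
  have f2 : g (6 * x.length) (some false) = true :=
    huni _ (hc _ (Or.inr (Or.inr (Or.inl rfl))))
  have f5 : ∀ j < T' + 1, g (6 * x.length + 1 + 3 * P + j) none = true :=
    fun j hj => huni _ (hc _ (Or.inr (Or.inr (Or.inr (Or.inr (Or.inl ⟨j, hj, rfl⟩))))))
  have fg : ∀ j < P, ∀ c ∈ gue Z x P T' (6 * x.length + 1 + 3 * j),
      ∃ a ∈ C5.l c, lit τ a = true :=
    fun j hj c h => hc _ (Or.inr (Or.inr (Or.inr (Or.inl ⟨j, hj, h⟩))))
  -- three guess facts and three propagation facts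
  have fA : ∀ j < P, g (6 * x.length + 1 + 3 * j) (some true) = true ∨
      g (6 * x.length + 1 + 3 * j) none = true := by
    intro j hj
    obtain ⟨a, ha, h1⟩ := fg j hj _ (List.mem_cons_self)
    simp only [C5.l, List.mem_cons, List.not_mem_nil, or_false] at ha
    rcases ha with rfl | rfl | rfl | rfl | rfl
    exacts [Or.inl h1, Or.inr h1, Or.inr h1, Or.inr h1, Or.inr h1]
  have fB : ∀ j < P, g (6 * x.length + 1 + 3 * j + 1) (some false) = true ∨
      g (6 * x.length + 1 + 3 * j + 1) (some true) = true ∨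
      g (6 * x.length + 1 + 3 * j) none = true := by
    intro j hj
    obtain ⟨a, ha, h1⟩ := fg j hj _ (List.mem_cons_of_mem _ List.mem_cons_self)
    simp only [C5.l, List.mem_cons, List.not_mem_nil, or_false] at ha
    rcases ha with rfl | rfl | rfl | rfl | rfl
    exacts [Or.inl h1, Or.inr (Or.inl h1), Or.inr (Or.inr h1), Or.inr (Or.inr h1),
      Or.inr (Or.inr h1)]
  have fC : ∀ j < P, g (6 * x.length + 1 + 3 * j + 2) (some false) = true ∨
      g (6 * x.length + 1 + 3 * j) none = true := by
    intro j hj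
    obtain ⟨a, ha, h1⟩ := fg j hj _ (List.mem_cons_of_mem _ (List.mem_cons_of_mem _
      List.mem_cons_self))
    simp only [C5.l, List.mem_cons, List.not_mem_nil, or_false] at ha
    rcases ha with rfl | rfl | rfl | rfl | rfl
    exacts [Or.inl h1, Or.inr h1, Or.inr h1, Or.inr h1, Or.inr h1]
  have fD : ∀ j < P, g (6 * x.length + 1 + 3 * j) none = true →
      g (6 * x.length + 1 + 3 * j + 1) none = true := by
    intro j hj h0
    obtain ⟨a, ha, h1⟩ := fg j hj _ (List.mem_cons_of_mem _ (List.mem_cons_of_mem _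
      (List.mem_cons_of_mem _ List.mem_cons_self)))
    simp only [C5.l, List.mem_cons, List.not_mem_nil, or_false] at ha
    rcases ha with rfl | rfl | rfl | rfl | rfl
    · rw [lit_fn] at h1
      simp only [hg] at h0
      rw [h0] at h1
      cases h1
    all_goals exact h1
  have fE : ∀ j < P, g (6 * x.length + 1 + 3 * j) none = true →
      g (6 * x.length + 1 + 3 * j + 2) none = true := by
    intro j hj h0
    obtain ⟨a, ha, h1⟩ := fg j hj _ (List.mem_cons_of_mem _ (List.mem_cons_of_mem _
      (List.mem_cons_of_mem _ (List.mem_cons_of_mem _ List.mem_cons_self))))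
    simp only [C5.l, List.mem_cons, List.not_mem_nil, or_false] at ha
    rcases ha with rfl | rfl | rfl | rfl | rfl
    · rw [lit_fn] at h1
      simp only [hg] at h0
      rw [h0] at h1
      cases h1
    all_goals exact h1
  have fF : ∀ j < P, g (6 * x.length + 1 + 3 * j) none = true →
      g (6 * x.length + 1 + 3 * (j + 1)) none = true := by
    intro j hj h0
    obtain ⟨a, ha, h1⟩ := fg j hj _ (List.mem_cons_of_mem _ (List.mem_cons_of_mem _
      (List.mem_cons_of_mem _ (List.mem_cons_of_mem _ (List.mem_cons_of_mem _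
        List.mem_cons_self)))))
    simp only [C5.l, List.mem_cons, List.not_mem_nil, or_false] at ha
    rcases ha with rfl | rfl | rfl | rfl | rfl
    · rw [lit_fn] at h1
      simp only [hg] at h0
      rw [h0] at h1
      cases h1
    all_goals exact h1
  -- the certificate
  classical
  have hex : ∃ J, J = P ∨ (J < P ∧ g (6 * x.length + 1 + 3 * J) none = true) := ⟨P, Or.inl rfl⟩
  set J := Nat.find hex with hJ
  have hJP : J ≤ P := Nat.find_min' hex (Or.inl rfl)
  have hJs := Nat.find_spec hex
  have hJm : ∀ j < J, ¬ g (6 * x.length + 1 + 3 * j) none = true := by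
    intro j hj
    have := Nat.find_min hex hj
    push Not at this
    exact fun h => this.2 (by omega) h
  have hbl0 : ∀ j, J ≤ j → j ≤ P → g (6 * x.length + 1 + 3 * j) none = true := by
    intro j hj
    induction j, hj using Nat.le_induction with
    | base =>
      intro _
      rcases hJs with h2 | ⟨_, h2⟩
      · rw [← hJ] at h2
        rw [h2]
        exact f5 0 (by omega)
      · exact h2
    | succ j hj ih =>
      intro hjP
      exact fF j (by omega) (ih (by omega))
  have hbl : ∀ i, 6 * x.length + 1 + 3 * J ≤ i → i ≤ tT x P T' → g i none = true := by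
    intro i hi hiT
    by_cases h1 : i < 6 * x.length + 1 + 3 * P
    · obtain ⟨j, c, hc3, rfl⟩ : ∃ j c, c < 3 ∧ i = 6 * x.length + 1 + 3 * j + c :=
        ⟨(i - (6 * x.length + 1)) / 3, (i - (6 * x.length + 1)) % 3, Nat.mod_lt _ (by omega),
          by omega⟩
      have h2 := hbl0 j (by omega) (by omega)
      interval_cases c
      · exact h2
      · exact fD j (by omega) h2
      · exact fE j (by omega) h2
    · have := f5 (i - (6 * x.length + 1 + 3 * P)) (by omega)
      rw [show 6 * x.length + 1 + 3 * P + (i - (6 * x.length + 1 + 3 * P)) = i by omega] at this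
      exact this
  set y : List Bool := (List.range J).map
    (fun j => g (6 * x.length + 1 + 3 * j + 1) (some true)) with hy
  have hyl : y.length = J := by simp [hy]
  have hyg : ∀ j < J, y.getD j false = g (6 * x.length + 1 + 3 * j + 1) (some true) := by
    intro j hj
    rw [hy, List.getD_eq_getElem?_getD, List.getElem?_map, List.getElem?_range hj]
    rfl
  refine ⟨y, by omega, ?_⟩
  have hrow0 : ∀ i ≤ tT x P T',
      lit τ (pos (tT x P T') Z.s (tT x P T') i (Z.R x y 0 i)) = true := by
    intro i hi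
    have hfp : ∀ o, lit τ (pos (tT x P T') Z.s (tT x P T') i (Z.sy o)) = g i o := fun _ => rfl
    simp only [RS.R]
    rcases Nat.lt_trichotomy i (6 * x.length) with h1 | h1 | h1
    · obtain ⟨k, c, hc6, rfl⟩ : ∃ k c, c < 6 ∧ i = 6 * k + c :=
        ⟨i / 6, i % 6, Nat.mod_lt _ (by omega), by omega⟩
      rw [enc_x (by omega) hc6, hfp]
      exact f1 k (by omega) c hc6
    · subst h1
      rw [enc_sep, hfp]
      exact f2
    · by_cases h2 : i < 6 * x.length + 1 + 3 * J
      · obtain ⟨j, c, hc3, rfl⟩ : ∃ j c, c < 3 ∧ i = 6 * x.length + 1 + 3 * j + c :=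
          ⟨(i - (6 * x.length + 1)) / 3, (i - (6 * x.length + 1)) % 3, Nat.mod_lt _ (by omega),
            by omega⟩
        have hjJ : j < J := by omega
        have hj0 := hJm j hjJ
        rw [enc_y (by omega) hc3, hfp]
        interval_cases c
        · rcases fA j (by omega) with h3 | h3
          · exact h3
          · exact absurd h3 hj0
        · have e : (blk3 (y.getD j false)).getD 1 false = y.getD j false := rfl
          rw [e, hyg j hjJ]
          cases h3 : g (6 * x.length + 1 + 3 * j + 1) (some true) with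
          | true => exact h3
          | false =>
            rcases fB j (by omega) with h4 | h4 | h4
            · exact h4
            · rw [h3] at h4; cases h4
            · exact absurd h4 hj0
        · rcases fC j (by omega) with h3 | h3
          · exact h3
          · exact absurd h3 hj0
      · rw [enc_blank (by rw [hyl]; omega), hfp]
        exact hbl i (by omega) hi
  have hrow : ∀ t ≤ tT x P T', ∀ i ≤ tT x P T' - t,
      lit τ (pos (tT x P T') Z.s (tT x P T' - t) i (Z.R x y t i)) = true := by
    intro t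
    induction t with
    | zero =>
      intro _ i hi
      exact hrow0 i hi
    | succ t ih =>
      intro ht i hi
      have ih' := ih (by omega)
      have e : tT x P T' - t = tT x P T' - (t + 1) + 1 := by omega
      rw [e] at ih'
      cases i with
      | zero =>
        obtain ⟨a, ha, h1⟩ := hc _ (Or.inr (Or.inr (Or.inr (Or.inr (Or.inr (Or.inl
          ⟨tT x P T' - (t + 1), by omega, Z.R x y t 0, Z.R_lt x y t 0, Z.R x y t 1,
            Z.R_lt x y t 1, rfl⟩))))))
        simp only [C5.l, List.mem_cons, List.not_mem_nil, or_false] at ha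
        rcases ha with rfl | rfl | rfl | rfl | rfl
        · rw [lit_neg, ih' 0 (by omega)] at h1
          cases h1
        · rw [lit_neg, ih' 1 (by omega)] at h1
          cases h1
        all_goals exact h1
      | succ i =>
        obtain ⟨a, ha, h1⟩ := hc _ (Or.inr (Or.inr (Or.inr (Or.inr (Or.inr (Or.inr (Or.inl
          ⟨tT x P T' - (t + 1), by omega, i, by omega, Z.R x y t 0, Z.R_lt x y t 0, Z.R x y t i,
            Z.R_lt x y t i, Z.R x y t (i + 1), Z.R_lt x y t _, Z.R x y t (i + 2),
            Z.R_lt x y t _, rfl⟩)))))))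
        simp only [C5.l, List.mem_cons, List.not_mem_nil, or_false] at ha
        rcases ha with rfl | rfl | rfl | rfl | rfl
        · rw [lit_neg, ih' 0 (by omega)] at h1
          cases h1
        · rw [lit_neg, ih' i (by omega)] at h1
          cases h1
        · rw [lit_neg, ih' (i + 1) (by omega)] at h1
          cases h1
        · rw [lit_neg, ih' (i + 2) (by omega)] at h1
          cases h1
        · exact h1
  have hlast := hrow (tT x P T') le_rfl 0 (by omega)
  rw [Nat.sub_self] at hlast
  by_contra hacc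
  rw [Bool.not_eq_true] at hacc
  have := huni _ (hc _ (Or.inr (Or.inr (Or.inr (Or.inr (Or.inr (Or.inr (Or.inr
    ⟨_, Z.R_lt x y (tT x P T') 0, hacc, rfl⟩))))))))
  rw [lit_neg, hlast] at this
  cases this

/-- completeness -/
theorem cls_complete {y : List Bool} (hy : y.length ≤ P)
    (hacc : Z.acc (Z.R x y (tT x P T') 0) = true) :
    ∃ τ : ℕ → Bool, ∀ c ∈ cls Z x P T', ∃ a ∈ C5.l c, lit τ a = true := by
  have hT : tT x P T' = 6 * x.length + 1 + 3 * P + T' := rfl
  let τ : ℕ → Bool := fun v => (v % Z.s == Z.R x y (tT x P T' - v / Z.s / (tT x P T' + 2))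
    (v / Z.s % (tT x P T' + 2)))
  have hs : 0 < Z.s := lt_of_le_of_lt (Nat.zero_le _) (Z.hsy none)
  have hτ : ∀ u i a, u ≤ tT x P T' → i < tT x P T' + 2 → a < Z.s →
      lit τ (pos (tT x P T') Z.s u i a) = (a == Z.R x y (tT x P T' - u) i) := by
    intro u i a hu hi ha
    rw [lit_pos]
    simp only [τ]
    have e1 : ((u * (tT x P T' + 2) + i) * Z.s + a) % Z.s = a := by
      rw [Nat.add_comm, Nat.add_mul_mod_self_right, Nat.mod_eq_of_lt ha]
    have e2 : ((u * (tT x P T' + 2) + i) * Z.s + a) / Z.s = u * (tT x P T' + 2) + i := by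
      rw [Nat.add_comm, Nat.add_mul_div_right _ _ hs, Nat.div_eq_of_lt ha, Nat.zero_add]
    have e3 : (u * (tT x P T' + 2) + i) % (tT x P T' + 2) = i := by
      rw [Nat.add_comm, Nat.add_mul_mod_self_right, Nat.mod_eq_of_lt hi]
    have e4 : (u * (tT x P T' + 2) + i) / (tT x P T' + 2) = u := by
      rw [Nat.add_comm, Nat.add_mul_div_right _ _ (by omega), Nat.div_eq_of_lt hi,
        Nat.zero_add]
    rw [e1, e2, e3, e4]
  have hpos : ∀ u i a, u ≤ tT x P T' → i < tT x P T' + 2 → a = Z.R x y (tT x P T' - u) i →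
      lit τ (pos (tT x P T') Z.s u i a) = true := by
    intro u i a hu hi ha
    rw [hτ u i a hu hi (by rw [ha]; exact Z.R_lt x y _ _), ha]
    simp
  have hneg : ∀ u i a, u ≤ tT x P T' → i < tT x P T' + 2 → a < Z.s →
      a ≠ Z.R x y (tT x P T' - u) i → lit τ (neg (tT x P T') Z.s u i a) = true := by
    intro u i a hu hi ha hne
    rw [lit_neg, hτ u i a hu hi ha]
    simpa using hne
  have hR0 : ∀ i, Z.R x y (tT x P T' - tT x P T') i = Z.sy ((enc2 x y)[i]?) := by
    intro i
    rw [Nat.sub_self]
    rfl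
  have hfp : ∀ i o, i < tT x P T' + 2 → (enc2 x y)[i]? = o →
      lit τ (fp Z x P T' i o) = true := by
    intro i o hi ho
    exact hpos _ _ _ le_rfl hi (by rw [hR0, ho])
  have hfn : ∀ i b, i < tT x P T' + 2 → (enc2 x y)[i]? = some b →
      lit τ (fn Z x P T' i none) = true := by
    intro i b hi ho
    exact hneg _ _ _ le_rfl hi (Z.hsy _) (by rw [hR0, ho]; exact (Z.hne b).symm)
  refine ⟨τ, fun c hc => ?_⟩
  rcases (mem_cls Z x P T').1 hc with ⟨i, hi, rfl⟩ | ⟨i, hi, hc⟩ | rfl | ⟨j, hj, hc⟩ |
    ⟨j, hj, rfl⟩ | ⟨u, hu, p, hp, q, hq, rfl⟩ |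
    ⟨u, hu, i, hi, p, hp, q, hq, r, hr, t, ht, rfl⟩ | ⟨p, hp, hpa, rfl⟩
  · exact ⟨_, List.mem_cons_self, hfp _ _ (by omega) (enc_x hi (c := 3) (by omega))⟩
  · simp only [List.mem_cons, List.not_mem_nil, or_false] at hc
    rcases hc with rfl | rfl | rfl | rfl | rfl
    · exact ⟨_, List.mem_cons_self, hfp _ _ (by omega) (enc_x hi (c := 0) (by omega))⟩
    · exact ⟨_, List.mem_cons_self, hfp _ _ (by omega) (enc_x hi (c := 1) (by omega))⟩
    · exact ⟨_, List.mem_cons_self, hfp _ _ (by omega) (enc_x hi (c := 2) (by omega))⟩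
    · exact ⟨_, List.mem_cons_self, hfp _ _ (by omega) (enc_x hi (c := 4) (by omega))⟩
    · exact ⟨_, List.mem_cons_self, hfp _ _ (by omega) (enc_x hi (c := 5) (by omega))⟩
  · exact ⟨_, List.mem_cons_self, hfp _ _ (by omega) enc_sep⟩
  · by_cases h1 : j < y.length
    · have hy0 := enc_y (x := x) h1 (c := 0) (by omega)
      have hy1 := enc_y (x := x) h1 (c := 1) (by omega)
      have hy2 := enc_y (x := x) h1 (c := 2) (by omega)
      simp only [gue, List.mem_cons, List.not_mem_nil, or_false] at hc
      rcases hc with rfl | rfl | rfl | rfl | rfl | rfl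
      · exact ⟨_, List.mem_cons_self, hfp _ _ (by omega) hy0⟩
      · cases h3 : y.getD j false with
        | false =>
          rw [h3] at hy1
          exact ⟨_, List.mem_cons_self, hfp _ _ (by omega) hy1⟩
        | true =>
          rw [h3] at hy1
          exact ⟨_, List.mem_cons_of_mem _ List.mem_cons_self, hfp _ _ (by omega) hy1⟩
      · exact ⟨_, List.mem_cons_self, hfp _ _ (by omega) hy2⟩
      · exact ⟨_, List.mem_cons_self, hfn _ _ (by omega) hy0⟩
      · exact ⟨_, List.mem_cons_self, hfn _ _ (by omega) hy0⟩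
      · exact ⟨_, List.mem_cons_self, hfn _ _ (by omega) hy0⟩
    · have hb : ∀ i, 6 * x.length + 1 + 3 * j ≤ i → (enc2 x y)[i]? = none :=
        fun i hi => enc_blank (by omega)
      simp only [gue, List.mem_cons, List.not_mem_nil, or_false] at hc
      rcases hc with rfl | rfl | rfl | rfl | rfl | rfl
      · exact ⟨_, List.mem_cons_of_mem _ List.mem_cons_self,
          hfp _ _ (by omega) (hb _ (by omega))⟩
      · exact ⟨_, List.mem_cons_of_mem _ (List.mem_cons_of_mem _ List.mem_cons_self),
          hfp _ _ (by omega) (hb _ (by omega))⟩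
      · exact ⟨_, List.mem_cons_of_mem _ List.mem_cons_self,
          hfp _ _ (by omega) (hb _ (by omega))⟩
      · exact ⟨_, List.mem_cons_of_mem _ List.mem_cons_self,
          hfp _ _ (by omega) (hb _ (by omega))⟩
      · exact ⟨_, List.mem_cons_of_mem _ List.mem_cons_self,
          hfp _ _ (by omega) (hb _ (by omega))⟩
      · exact ⟨_, List.mem_cons_of_mem _ List.mem_cons_self,
          hfp _ _ (by omega) (hb _ (by omega))⟩
  · exact ⟨_, List.mem_cons_self, hfp _ _ (by omega) (enc_blank (by omega))⟩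
  · by_cases h1 : p = Z.R x y (tT x P T' - (u + 1)) 0
    · by_cases h2 : q = Z.R x y (tT x P T' - (u + 1)) 1
      · refine ⟨_, List.mem_cons_of_mem _ (List.mem_cons_of_mem _ List.mem_cons_self), ?_⟩
        refine hpos _ _ _ (by omega) (by omega) ?_
        rw [show tT x P T' - u = tT x P T' - (u + 1) + 1 by omega]
        simp only [RS.R]
        rw [h1, h2]
      · refine ⟨_, List.mem_cons_of_mem _ List.mem_cons_self, ?_⟩
        exact hneg _ _ _ (by omega) (by omega) hq h2
    · refine ⟨_, List.mem_cons_self, ?_⟩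
      exact hneg _ _ _ (by omega) (by omega) hp h1
  · by_cases h1 : p = Z.R x y (tT x P T' - (u + 1)) 0
    · by_cases h2 : q = Z.R x y (tT x P T' - (u + 1)) i
      · by_cases h3 : r = Z.R x y (tT x P T' - (u + 1)) (i + 1)
        · by_cases h4 : t = Z.R x y (tT x P T' - (u + 1)) (i + 2)
          · refine ⟨_, List.mem_cons_of_mem _ (List.mem_cons_of_mem _ (List.mem_cons_of_mem _
              (List.mem_cons_of_mem _ List.mem_cons_self))), ?_⟩
            refine hpos _ _ _ (by omega) (by omega) ?_
            rw [show tT x P T' - u = tT x P T' - (u + 1) + 1 by omega]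
            simp only [RS.R]
            rw [h1, h2, h3, h4]
          · refine ⟨_, List.mem_cons_of_mem _ (List.mem_cons_of_mem _ (List.mem_cons_of_mem _
              List.mem_cons_self)), ?_⟩
            exact hneg _ _ _ (by omega) (by omega) ht h4
        · refine ⟨_, List.mem_cons_of_mem _ (List.mem_cons_of_mem _ List.mem_cons_self), ?_⟩
          exact hneg _ _ _ (by omega) (by omega) hr h3
      · refine ⟨_, List.mem_cons_of_mem _ List.mem_cons_self, ?_⟩
        exact hneg _ _ _ (by omega) (by omega) hq h2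
    · refine ⟨_, List.mem_cons_self, ?_⟩
      exact hneg _ _ _ (by omega) (by omega) hp h1
  · refine ⟨_, List.mem_cons_self, ?_⟩
    refine hneg _ _ _ (by omega) (by omega) hp ?_
    rintro rfl
    rw [Nat.sub_zero, hacc] at hpa
    cases hpa

variable (Z x P T')

/-- the formula as a list of numbers -/
def frm : List ℕ := nV Z x P T' :: (cls Z x P T').length :: (cls Z x P T').flatMap C5.l

theorem frm_ok : Ok5 (frm Z x P T') := ok5_flat _ _ (cls_ok Z x P T')

theorem frm_sat : Sat5 (frm Z x P T') ↔
    ∃ y : List Bool, y.length ≤ P ∧ Z.acc (Z.R x y (tT x P T') 0) = true := by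
  unfold frm
  rw [sat5_flat]
  constructor
  · rintro ⟨τ, h⟩
    exact cls_sound h
  · rintro ⟨y, hy, h⟩
    exact cls_complete hy h

end

/-! ### The generator -/

/-- the generator of the tableau; `xP`, `xT'` are the bounds -/
def tabG (Z : RS) (xP xT' : Ex) : Lg :=
  let xT : Ex := .add (.add (.add (.mul (.con 6) xl) (.con 1)) (.mul (.con 3) xP)) xT'
  let p := posE Z.s xT
  let n := negE Z.s xT
  let y (j : Ex) : Ex := .add (.add (.mul (.con 6) xl) (.con 1)) (.mul (.con 3) j)
  let ff := Z.sy (some false)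
  let tt := Z.sy (some true)
  let bl := Z.sy none
  .seq (.el (.mul (.mul (.add xT (.con 1)) (.add xT (.con 2))) (.con Z.s)))
  (.seq (.el (.add xl (.add (.mul xl (.con 5)) (.add (.con 1) (.add (.mul xP (.con 6))
    (.add (.add xT' (.con 1))
    (.add (.mul xT (.mul (.con Z.s) (.con Z.s))) (.add (.mul xT (.mul xT
      (.con (Z.s * Z.s * (Z.s * Z.s)))))
      (.con ((List.range Z.s).filter (fun a => !Z.acc a)).length)))))))))
  (.seq (.loop xl (.ifle (.inp (.add (.con 1) (.var 0))) (.con 0)
      (uniL (p xT (.add (.mul (.con 6) (.var 0)) (.con 3)) ff))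
      (uniL (p xT (.add (.mul (.con 6) (.var 0)) (.con 3)) tt))))
  (.seq (.loop xl (.seq (uniL (p xT (.mul (.con 6) (.var 0)) tt))
      (.seq (uniL (p xT (.add (.mul (.con 6) (.var 0)) (.con 1)) tt))
      (.seq (uniL (p xT (.add (.mul (.con 6) (.var 0)) (.con 2)) tt))
      (.seq (uniL (p xT (.add (.mul (.con 6) (.var 0)) (.con 4)) tt))
      (uniL (p xT (.add (.mul (.con 6) (.var 0)) (.con 5)) ff)))))))
  (.seq (uniL (p xT (.mul (.con 6) xl) ff))
  (.seq (.loop xP
      (.seq (clL (p xT (y (.var 0)) tt) (p xT (y (.var 0)) bl) (p xT (y (.var 0)) bl)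
        (p xT (y (.var 0)) bl) (p xT (y (.var 0)) bl))
      (.seq (clL (p xT (.add (y (.var 0)) (.con 1)) ff) (p xT (.add (y (.var 0)) (.con 1)) tt)
        (p xT (y (.var 0)) bl) (p xT (y (.var 0)) bl) (p xT (y (.var 0)) bl))
      (.seq (clL (p xT (.add (y (.var 0)) (.con 2)) ff) (p xT (y (.var 0)) bl)
        (p xT (y (.var 0)) bl) (p xT (y (.var 0)) bl) (p xT (y (.var 0)) bl))
      (.seq (clL (n xT (y (.var 0)) bl) (p xT (.add (y (.var 0)) (.con 1)) bl)
        (p xT (.add (y (.var 0)) (.con 1)) bl) (p xT (.add (y (.var 0)) (.con 1)) bl)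
        (p xT (.add (y (.var 0)) (.con 1)) bl))
      (.seq (clL (n xT (y (.var 0)) bl) (p xT (.add (y (.var 0)) (.con 2)) bl)
        (p xT (.add (y (.var 0)) (.con 2)) bl) (p xT (.add (y (.var 0)) (.con 2)) bl)
        (p xT (.add (y (.var 0)) (.con 2)) bl))
      (clL (n xT (y (.var 0)) bl) (p xT (.add (y (.var 0)) (.con 3)) bl)
        (p xT (.add (y (.var 0)) (.con 3)) bl) (p xT (.add (y (.var 0)) (.con 3)) bl)
        (p xT (.add (y (.var 0)) (.con 3)) bl))))))))
  (.seq (.loop (.add xT' (.con 1)) (uniL (p xT (.add (y xP) (.var 0)) bl)))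
  (.seq (.loop xT (many (prs Z.s) (fun c => clL (n (.add (.var 0) (.con 1)) (.con 0) c.1)
      (n (.add (.var 0) (.con 1)) (.con 1) c.2) (p (.var 0) (.con 0) (Z.F0 c.1 c.2))
      (p (.var 0) (.con 0) (Z.F0 c.1 c.2)) (p (.var 0) (.con 0) (Z.F0 c.1 c.2)))))
  (.seq (.loop xT (.loop xT (many (qds Z.s) (fun c =>
      clL (n (.add (.var 1) (.con 1)) (.con 0) c.1.1) (n (.add (.var 1) (.con 1)) (.var 0) c.1.2)
        (n (.add (.var 1) (.con 1)) (.add (.var 0) (.con 1)) c.2.1)
        (n (.add (.var 1) (.con 1)) (.add (.var 0) (.con 2)) c.2.2)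
        (p (.var 1) (.add (.var 0) (.con 1)) (Z.F1 c.1.1 c.1.2 c.2.1 c.2.2))))))
  (many ((List.range Z.s).filter (fun a => !Z.acc a)) (fun a =>
      uniL (n (.con 0) (.con 0) a)))))))))))

theorem tabG_out (Z : RS) (x : List Bool) (P T' : ℕ) (xP xT' : Ex)
    (hP : ∀ env, xP.val (bits x) env = P) (hT' : ∀ env, xT'.val (bits x) env = T') :
    (tabG Z xP xT').out (bits x) [] = frm Z x P T' := by
  have hl : ∀ env, xl.val (bits x) env = x.length := fun env => rfl
  have hT : ∀ env, (Ex.add (.add (.add (.mul (.con 6) xl) (.con 1)) (.mul (.con 3) xP))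
      xT').val (bits x) env = tT x P T' := by
    intro env
    simp only [Ex.val, hP, hT', hl, tT]
  have hf : ∀ {α β γ : Type} (L : List α) (f : α → List β) (g : β → List γ),
      (L.flatMap f).flatMap g = L.flatMap (fun a => (f a).flatMap g) := by
    intro α β γ L f g
    induction L with
    | nil => rfl
    | cons a L ih => simp [ih]
  unfold frm
  rw [length_cls]
  unfold cls tabG
  simp only [Lg.out, List.flatMap_append, hf, many_out, uniL, clL_out,
    posE_val Z.s _ (hT _), negE_val Z.s _ (hT _), Ex.val, hl, hP, hT', List.getD_cons_zero,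
    List.getD_cons_succ, List.flatMap_cons, List.flatMap_nil, List.append_nil,
    List.cons_append, List.nil_append, nV, tT, uni, gue, fp, fn]
  congr 4
  · funext i
    split_ifs <;> simp

end Pool.Agent.H1.PNP
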