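import Pool.Agent.H1.NP.Btw

/-!
The tableau of a row system as a formula with clauses of five literals.
-/

namespace Pool.Agent.H1.NP

open Pool.Agent.H68.OQP Polynomial

/-- code of a pair of strings -/
def encPair (p : List Bool × List Bool) : List (Option Bool) := p.1.map some ++ none :: p.2.map some

/-- a finite row system -/
structure RS where
  s : ℕ
  F0 : ℕ → ℕ → ℕ
  F1 : ℕ → ℕ → ℕ → ℕ → ℕ
  sy : Option (Option Bool) → ℕ
  acc : ℕ → Bool
  hF0 : ∀ a b, a < s → b < s → F0 a b < s
  hF1 : ∀ a b c d, a < s → b < s → c < s → d < s → F1 a b c d < s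
  hsy : ∀ o, sy o < s
  hne : ∀ b, sy (some (some b)) ≠ sy none

/-- the rows -/
def RS.R (Z : RS) (x y : List Bool) : ℕ → ℕ → ℕ
  | 0, i => Z.sy ((encPair (x, y))[i]?)
  | t + 1, 0 => Z.F0 (RS.R Z x y t 0) (RS.R Z x y t 1)
  | t + 1, i + 1 => Z.F1 (RS.R Z x y t 0) (RS.R Z x y t i) (RS.R Z x y t (i + 1))
      (RS.R Z x y t (i + 2))

theorem RS.R_lt (Z : RS) (x y : List Bool) : ∀ t i, Z.R x y t i < Z.s := by
  intro t
  induction t with
  | zero => intro i; exact Z.hsy _
  | succ t ih =>
    intro i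
    cases i with
    | zero => exact Z.hF0 _ _ (ih 0) (ih 1)
    | succ i => exact Z.hF1 _ _ _ _ (ih 0) (ih i) (ih _) (ih _)

/-- clauses -/
abbrev C5 : Type := ℕ × ℕ × ℕ × ℕ × ℕ

/-- literals of a clause -/
def C5.l (c : C5) : List ℕ := [c.1, c.2.1, c.2.2.1, c.2.2.2.1, c.2.2.2.2]

theorem flat_getD (cls : List C5) : ∀ (j : ℕ) (hj : j < cls.length) (i : ℕ), i < 5 →
    (cls.flatMap C5.l).getD (i + 5 * j) 0 = (C5.l cls[j]).getD i 0 := by
  induction cls with
  | nil => intro j hj; simp at hj
  | cons c cls ih =>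
    intro j hj i hi
    cases j with
    | zero =>
      simp only [List.flatMap_cons, Nat.mul_zero, Nat.add_zero, List.getElem_cons_zero]
      rw [List.getD_append]
      simpa [C5.l] using hi
    | succ j =>
      have := ih j (by simpa using hj) i hi
      simp only [List.flatMap_cons, List.getElem_cons_succ]
      rw [← this, List.getD_append_right]
      · congr 1
      · simp only [C5.l, List.length_cons, List.length_nil]
        omega

theorem cd5_flat (n : ℕ) (cls : List C5) {j i : ℕ} (hj : j < cls.length) (hi : i < 5) :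
    cd5 (n :: cls.length :: cls.flatMap C5.l) j i = (C5.l cls[j]).getD i 0 := by
  unfold cd5
  rw [show 2 + i + 5 * j = (i + 5 * j) + 1 + 1 by ring, List.getD_cons_succ,
    List.getD_cons_succ]
  exact flat_getD cls j hj i hi

theorem getD_mem_l (c : C5) {i : ℕ} (hi : i < 5) : (C5.l c).getD i 0 ∈ C5.l c := by
  interval_cases i <;> simp [C5.l]

theorem mem_l_getD {c : C5} {a : ℕ} (h : a ∈ C5.l c) : ∃ i < 5, (C5.l c).getD i 0 = a := by
  simp only [C5.l, List.mem_cons, List.not_mem_nil, or_false] at h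
  rcases h with h | h | h | h | h
  exacts [⟨0, by omega, h.symm⟩, ⟨1, by omega, h.symm⟩, ⟨2, by omega, h.symm⟩,
    ⟨3, by omega, h.symm⟩, ⟨4, by omega, h.symm⟩]

theorem sat5_flat (n : ℕ) (cls : List C5) : Sat5 (n :: cls.length :: cls.flatMap C5.l) ↔
    ∃ τ : ℕ → Bool, ∀ c ∈ cls, ∃ a ∈ C5.l c, lit τ a = true := by
  unfold Sat5
  refine exists_congr fun τ => ?_
  constructor
  · intro h c hc
    obtain ⟨j, hj, rfl⟩ := List.getElem_of_mem hc
    obtain ⟨i, hi, h1⟩ := h j hj
    rw [cd5_flat n cls hj hi] at h1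
    exact ⟨_, getD_mem_l _ hi, h1⟩
  · intro h j hj
    have hj' : j < cls.length := hj
    obtain ⟨a, ha, h1⟩ := h _ (List.getElem_mem hj')
    obtain ⟨i, hi, h2⟩ := mem_l_getD ha
    exact ⟨i, hi, by rw [cd5_flat n cls hj' hi, h2]; exact h1⟩

theorem ok5_flat (n : ℕ) (cls : List C5) (h : ∀ c ∈ cls, ∀ a ∈ C5.l c, a < 2 * n) :
    Ok5 (n :: cls.length :: cls.flatMap C5.l) := by
  intro j hj i hi
  have hj' : j < cls.length := hj
  rw [cd5_flat n cls hj' hi]
  exact h _ (List.getElem_mem hj') _ (getD_mem_l _ hi)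

/-- positive literal: at `u` steps before the end, cell `i` is `a` -/
def pos (T s u i a : ℕ) : ℕ := 2 * ((u * (T + 2) + i) * s + a) + 1

/-- negative literal -/
def neg (T s u i a : ℕ) : ℕ := 2 * ((u * (T + 2) + i) * s + a)

/-- unit clause -/
def uni (a : ℕ) : C5 := (a, a, a, a, a)

section

variable (Z : RS) (x : List Bool) (P T' : ℕ)

/-- number of steps -/
def tT : ℕ := x.length + 1 + P + T'

/-- pairs of cells -/
def prs (s : ℕ) : List (ℕ × ℕ) := (List.range s).product (List.range s)

/-- quadruples of cells -/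
def qds (s : ℕ) : List ((ℕ × ℕ) × (ℕ × ℕ)) := (prs s).product (prs s)

/-- the clauses -/
def cls : List C5 :=
  (List.range x.length).flatMap (fun i => if (bits x).getD (1 + i) 0 ≤ 0 then
    [uni (pos (tT x P T') Z.s (tT x P T') i (Z.sy (some (some false))))] else
    [uni (pos (tT x P T') Z.s (tT x P T') i (Z.sy (some (some true))))]) ++
  ([uni (pos (tT x P T') Z.s (tT x P T') x.length (Z.sy (some none)))] ++
  ((List.range P).flatMap (fun j =>
    [(pos (tT x P T') Z.s (tT x P T') (x.length + 1 + j) (Z.sy (some (some false))),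
      pos (tT x P T') Z.s (tT x P T') (x.length + 1 + j) (Z.sy (some (some true))),
      pos (tT x P T') Z.s (tT x P T') (x.length + 1 + j) (Z.sy none),
      pos (tT x P T') Z.s (tT x P T') (x.length + 1 + j) (Z.sy none),
      pos (tT x P T') Z.s (tT x P T') (x.length + 1 + j) (Z.sy none))]) ++
  ((List.range P).flatMap (fun j =>
    [(neg (tT x P T') Z.s (tT x P T') (x.length + 1 + j) (Z.sy none),
      pos (tT x P T') Z.s (tT x P T') (x.length + 1 + j + 1) (Z.sy none),
      pos (tT x P T') Z.s (tT x P T') (x.length + 1 + j + 1) (Z.sy none),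
      pos (tT x P T') Z.s (tT x P T') (x.length + 1 + j + 1) (Z.sy none),
      pos (tT x P T') Z.s (tT x P T') (x.length + 1 + j + 1) (Z.sy none))]) ++
  ((List.range (T' + 1)).flatMap (fun j =>
    [uni (pos (tT x P T') Z.s (tT x P T') (x.length + 1 + P + j) (Z.sy none))]) ++
  ((List.range (tT x P T')).flatMap (fun u => (prs Z.s).flatMap (fun c =>
    [(neg (tT x P T') Z.s (u + 1) 0 c.1, neg (tT x P T') Z.s (u + 1) 1 c.2,
      pos (tT x P T') Z.s u 0 (Z.F0 c.1 c.2), pos (tT x P T') Z.s u 0 (Z.F0 c.1 c.2),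
      pos (tT x P T') Z.s u 0 (Z.F0 c.1 c.2))])) ++
  ((List.range (tT x P T')).flatMap (fun u => (List.range (tT x P T')).flatMap (fun i =>
    (qds Z.s).flatMap (fun c =>
    [(neg (tT x P T') Z.s (u + 1) 0 c.1.1, neg (tT x P T') Z.s (u + 1) i c.1.2,
      neg (tT x P T') Z.s (u + 1) (i + 1) c.2.1, neg (tT x P T') Z.s (u + 1) (i + 2) c.2.2,
      pos (tT x P T') Z.s u (i + 1) (Z.F1 c.1.1 c.1.2 c.2.1 c.2.2))]))) ++
  ((List.range Z.s).filter (fun a => !Z.acc a)).flatMap (fun a =>
    [uni (neg (tT x P T') Z.s 0 0 a)])))))))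

theorem mem_cls {c : C5} : c ∈ cls Z x P T' ↔
    (∃ i < x.length, c = uni (pos (tT x P T') Z.s (tT x P T') i
      (Z.sy (some (some (x.getD i false)))))) ∨
    (c = uni (pos (tT x P T') Z.s (tT x P T') x.length (Z.sy (some none)))) ∨
    (∃ j < P, c = (pos (tT x P T') Z.s (tT x P T') (x.length + 1 + j) (Z.sy (some (some false))),
      pos (tT x P T') Z.s (tT x P T') (x.length + 1 + j) (Z.sy (some (some true))),
      pos (tT x P T') Z.s (tT x P T') (x.length + 1 + j) (Z.sy none),
      pos (tT x P T') Z.s (tT x P T') (x.length + 1 + j) (Z.sy none),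
      pos (tT x P T') Z.s (tT x P T') (x.length + 1 + j) (Z.sy none))) ∨
    (∃ j < P, c = (neg (tT x P T') Z.s (tT x P T') (x.length + 1 + j) (Z.sy none),
      pos (tT x P T') Z.s (tT x P T') (x.length + 1 + j + 1) (Z.sy none),
      pos (tT x P T') Z.s (tT x P T') (x.length + 1 + j + 1) (Z.sy none),
      pos (tT x P T') Z.s (tT x P T') (x.length + 1 + j + 1) (Z.sy none),
      pos (tT x P T') Z.s (tT x P T') (x.length + 1 + j + 1) (Z.sy none))) ∨
    (∃ j < T' + 1, c =
      uni (pos (tT x P T') Z.s (tT x P T') (x.length + 1 + P + j) (Z.sy none))) ∨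
    (∃ u < tT x P T', ∃ a < Z.s, ∃ b < Z.s,
      c = (neg (tT x P T') Z.s (u + 1) 0 a, neg (tT x P T') Z.s (u + 1) 1 b,
      pos (tT x P T') Z.s u 0 (Z.F0 a b), pos (tT x P T') Z.s u 0 (Z.F0 a b),
      pos (tT x P T') Z.s u 0 (Z.F0 a b))) ∨
    (∃ u < tT x P T', ∃ i < tT x P T', ∃ a < Z.s, ∃ b < Z.s, ∃ d < Z.s, ∃ e < Z.s,
      c = (neg (tT x P T') Z.s (u + 1) 0 a, neg (tT x P T') Z.s (u + 1) i b,
      neg (tT x P T') Z.s (u + 1) (i + 1) d, neg (tT x P T') Z.s (u + 1) (i + 2) e,
      pos (tT x P T') Z.s u (i + 1) (Z.F1 a b d e))) ∨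
    (∃ a < Z.s, Z.acc a = false ∧ c = uni (neg (tT x P T') Z.s 0 0 a)) := by
  simp only [cls, List.mem_append, List.mem_flatMap, List.mem_range, List.mem_singleton]
  refine or_congr (exists_congr fun i => and_congr_right fun hi => ?_) (or_congr Iff.rfl
    (or_congr Iff.rfl (or_congr Iff.rfl (or_congr Iff.rfl (or_congr ?_ (or_congr ?_ ?_))))))
  · have h1 : (bits x).getD (1 + i) 0 = (x.getD i false).toNat := by
      rw [Nat.add_comm, bits, List.getD_cons_succ, List.getD_eq_getElem?_getD,
        List.getD_eq_getElem?_getD, List.getElem?_map, List.getElem?_eq_getElem hi]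
      rfl
    rw [h1]
    cases x.getD i false <;> simp
  · refine exists_congr fun u => and_congr_right fun _ => ?_
    simp only [prs, List.pair_mem_product, List.mem_range, Prod.exists]
    constructor
    · rintro ⟨a, b, ⟨ha, hb⟩, h⟩
      exact ⟨a, ha, b, hb, h⟩
    · rintro ⟨a, ha, b, hb, h⟩
      exact ⟨a, b, ⟨ha, hb⟩, h⟩
  · refine exists_congr fun u => and_congr_right fun _ => exists_congr fun i =>
      and_congr_right fun _ => ?_
    simp only [qds, prs, List.pair_mem_product, List.mem_range, Prod.exists]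
    constructor
    · rintro ⟨a, b, d, e, ⟨⟨ha, hb⟩, hd, he⟩, h⟩
      exact ⟨a, ha, b, hb, d, hd, e, he, h⟩
    · rintro ⟨a, ha, b, hb, d, hd, e, he, h⟩
      exact ⟨a, b, d, e, ⟨⟨ha, hb⟩, hd, he⟩, h⟩
  · simp only [List.mem_filter, List.mem_range, Bool.not_eq_true']
    refine exists_congr fun a => ?_
    tauto

theorem length_prs (s : ℕ) : (prs s).length = s * s :=
  (List.length_product _ _).trans (by simp)

theorem length_qds (s : ℕ) : (qds s).length = s * s * (s * s) :=
  (List.length_product _ _).trans (by rw [length_prs])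

theorem length_cls : (cls Z x P T').length = x.length + (1 + (P + (P + ((T' + 1) +
    (tT x P T' * (Z.s * Z.s) + (tT x P T' * (tT x P T' * (Z.s * Z.s * (Z.s * Z.s))) +
      ((List.range Z.s).filter (fun a => !Z.acc a)).length)))))) := by
  have h1 : ∀ (L : List ℕ) (p : ℕ → Prop) [DecidablePred p] (f g : ℕ → C5),
      (L.flatMap (fun i => if p i then [f i] else [g i])).length = L.length := by
    intro L p _ f g
    induction L with
    | nil => rfl
    | cons a L ih =>
      rw [List.flatMap_cons, List.length_append, ih]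
      split_ifs <;> simp [Nat.add_comm]
  have h2 : ∀ {α : Type} (L : List α) (f : α → C5),
      (L.flatMap (fun i => [f i])).length = L.length := by
    intro α L f
    induction L with
    | nil => rfl
    | cons a L ih =>
      rw [List.flatMap_cons, List.length_append, ih]
      simp [Nat.add_comm]
  have h3 : ∀ {α β : Type} (L : List α) (f : α → List β) (n : ℕ),
      (∀ a, (f a).length = n) → (L.flatMap f).length = L.length * n := by
    intro α β L f n h
    induction L with
    | nil => simp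
    | cons a L ih =>
      rw [List.flatMap_cons, List.length_append, ih, h]
      simp [Nat.succ_mul, Nat.add_comm]
  unfold cls
  rw [List.length_append, List.length_append, List.length_append, List.length_append,
    List.length_append, List.length_append, List.length_append, h1, h2, h2, h2, h2,
    h3 (List.range (tT x P T')) _ (Z.s * Z.s) (fun u => by rw [h2, length_prs]),
    h3 (List.range (tT x P T')) _ (tT x P T' * (Z.s * Z.s * (Z.s * Z.s))) (fun u => by
      rw [h3 (List.range (tT x P T')) _ (Z.s * Z.s * (Z.s * Z.s)) (fun u => by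
        rw [h2, length_qds]), List.length_range])]
  simp only [List.length_range, List.length_singleton]

/-- number of variables -/
def nV : ℕ := (tT x P T' + 1) * (tT x P T' + 2) * Z.s

theorem idx_lt {T s u i a : ℕ} (hu : u ≤ T) (hi : i < T + 2) (ha : a < s) :
    (u * (T + 2) + i) * s + a < (T + 1) * (T + 2) * s := by
  have h1 : u * (T + 2) + i + 1 ≤ (T + 1) * (T + 2) := by
    have : u * (T + 2) ≤ T * (T + 2) := Nat.mul_le_mul_right _ hu
    rw [Nat.succ_mul]
    omega
  have h2 : (u * (T + 2) + i + 1) * s ≤ (T + 1) * (T + 2) * s := Nat.mul_le_mul_right _ h1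
  rw [Nat.succ_mul] at h2
  omega

theorem pos_lt {T s u i a : ℕ} (hu : u ≤ T) (hi : i < T + 2) (ha : a < s) :
    pos T s u i a < 2 * ((T + 1) * (T + 2) * s) := by
  have := idx_lt hu hi ha
  unfold pos
  omega

theorem neg_lt {T s u i a : ℕ} (hu : u ≤ T) (hi : i < T + 2) (ha : a < s) :
    neg T s u i a < 2 * ((T + 1) * (T + 2) * s) := by
  have := idx_lt hu hi ha
  unfold neg
  omega

theorem cls_ok : ∀ c ∈ cls Z x P T', ∀ a ∈ C5.l c, a < 2 * nV Z x P T' := by
  intro c hc a ha
  have hT : tT x P T' = x.length + 1 + P + T' := rfl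
  unfold nV
  rcases (mem_cls Z x P T').1 hc with ⟨i, hi, rfl⟩ | rfl | ⟨j, hj, rfl⟩ | ⟨j, hj, rfl⟩ |
    ⟨j, hj, rfl⟩ | ⟨u, hu, p, hp, q, hq, rfl⟩ |
    ⟨u, hu, i, hi, p, hp, q, hq, r, hr, t, ht, rfl⟩ | ⟨p, hp, _, rfl⟩ <;>
    simp only [C5.l, uni, List.mem_cons, List.not_mem_nil, or_false] at ha
  · rcases ha with rfl | rfl | rfl | rfl | rfl <;>
      exact pos_lt le_rfl (by omega) (Z.hsy _)
  · rcases ha with rfl | rfl | rfl | rfl | rfl <;>
      exact pos_lt le_rfl (by omega) (Z.hsy _)
  · rcases ha with rfl | rfl | rfl | rfl | rfl <;>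
      exact pos_lt le_rfl (by omega) (Z.hsy _)
  · rcases ha with rfl | rfl | rfl | rfl | rfl
    · exact neg_lt le_rfl (by omega) (Z.hsy _)
    all_goals exact pos_lt le_rfl (by omega) (Z.hsy _)
  · rcases ha with rfl | rfl | rfl | rfl | rfl <;>
      exact pos_lt le_rfl (by omega) (Z.hsy _)
  · rcases ha with rfl | rfl | rfl | rfl | rfl
    · exact neg_lt (by omega) (by omega) hp
    · exact neg_lt (by omega) (by omega) hq
    all_goals exact pos_lt (by omega) (by omega) (Z.hF0 _ _ hp hq)
  · rcases ha with rfl | rfl | rfl | rfl | rfl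
    · exact neg_lt (by omega) (by omega) hp
    · exact neg_lt (by omega) (by omega) hq
    · exact neg_lt (by omega) (by omega) hr
    · exact neg_lt (by omega) (by omega) ht
    · exact pos_lt (by omega) (by omega) (Z.hF1 _ _ _ _ hp hq hr ht)
  · rcases ha with rfl | rfl | rfl | rfl | rfl <;>
      exact neg_lt (by omega) (by omega) hp

theorem lit_pos (τ : ℕ → Bool) (T s u i a : ℕ) :
    lit τ (pos T s u i a) = τ ((u * (T + 2) + i) * s + a) := by
  unfold lit pos
  have e1 : (2 * ((u * (T + 2) + i) * s + a) + 1) / 2 = (u * (T + 2) + i) * s + a := by omega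
  have e2 : (2 * ((u * (T + 2) + i) * s + a) + 1) % 2 = 1 := by omega
  rw [e1, e2]
  cases τ ((u * (T + 2) + i) * s + a) <;> rfl

theorem lit_neg (τ : ℕ → Bool) (T s u i a : ℕ) :
    lit τ (neg T s u i a) = !lit τ (pos T s u i a) := by
  rw [lit_pos]
  unfold lit neg
  have e1 : (2 * ((u * (T + 2) + i) * s + a)) / 2 = (u * (T + 2) + i) * s + a := by omega
  have e2 : (2 * ((u * (T + 2) + i) * s + a)) % 2 = 0 := by omega
  rw [e1, e2]
  cases τ ((u * (T + 2) + i) * s + a) <;> rfl

end

end Pool.Agent.H1.NP
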